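import Mathlib
import Pool.Agent.Lib.MP_ca2859_nt.CC.Stm

set_option autoImplicit false

open Polynomial WithZero IsDedekindDomain NumberField
open Pool.Agent.Lib.MP_ca2859_nt Pool.Agent.Lib.MP_ca2859_nt.GR

namespace Pool.Agent.Lib.MP_ca2859_nt.CC

theorem absNorm_le_of_over {K M : Type} [Field K] [NumberField K] [Field M] [NumberField M]
    [Algebra K M] (v : HeightOneSpectrum (𝓞 K)) (w : HeightOneSpectrum (𝓞 M))
    (h : w.asIdeal.LiesOver v.asIdeal) :
    Ideal.absNorm v.asIdeal ≤ Ideal.absNorm w.asIdeal := by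
  have h1 : v.asIdeal = w.asIdeal.comap (algebraMap (𝓞 K) (𝓞 M)) := h.over
  rw [Ideal.absNorm_apply, Ideal.absNorm_apply, Submodule.cardQuot_apply,
    Submodule.cardQuot_apply]
  have hfin : Finite (𝓞 M ⧸ w.asIdeal) := Ideal.finiteQuotientOfFreeOfNeBot _ w.ne_bot
  refine Nat.card_le_card_of_injective
    (Ideal.quotientMap w.asIdeal (algebraMap (𝓞 K) (𝓞 M)) (by rw [h1]) :
      𝓞 K ⧸ v.asIdeal →+* 𝓞 M ⧸ w.asIdeal) ?_
  apply Ideal.quotientMap_injective'
  rw [h1]

theorem piece_BEL : S_BEL := by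
  classical
  intro K M _ _ _ _ _ J'
  set f : HeightOneSpectrum (𝓞 M) → HeightOneSpectrum (𝓞 K) := fun w => w.under (𝓞 K) with hf
  have hfo : ∀ w : HeightOneSpectrum (𝓞 M), w.asIdeal.LiesOver (f w).asIdeal := fun w => ⟨rfl⟩
  refine ⟨J'.image f, ?_, ?_⟩
  · have h1 : ∀ v ∈ J'.image f, Ideal.absNorm v.asIdeal ≤
        ∏ w ∈ J' with f w = v, Ideal.absNorm w.asIdeal := by
      intro v hv
      obtain ⟨w, hw, rfl⟩ := Finset.mem_image.1 hv
      have h2 : Ideal.absNorm (f w).asIdeal ≤ Ideal.absNorm w.asIdeal :=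
        absNorm_le_of_over _ _ (hfo w)
      refine h2.trans ?_
      have h3 : w ∈ J'.filter (fun w' => f w' = f w) := Finset.mem_filter.2 ⟨hw, rfl⟩
      apply Finset.single_le_prod' (f := fun w : HeightOneSpectrum (𝓞 M) =>
        Ideal.absNorm w.asIdeal) ?_ h3
      intro u _
      exact Nat.one_le_iff_ne_zero.2 (fun h0 => u.ne_bot (Ideal.absNorm_eq_zero_iff.1 h0))
    calc ∏ v ∈ J'.image f, Ideal.absNorm v.asIdeal
        ≤ ∏ v ∈ J'.image f, ∏ w ∈ J' with f w = v, Ideal.absNorm w.asIdeal :=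
          Finset.prod_le_prod' h1
      _ = ∏ w ∈ J', Ideal.absNorm w.asIdeal :=
          Finset.prod_fiberwise_of_maps_to (fun w hw => Finset.mem_image_of_mem f hw) _
  · intro v hv w hw hw'
    apply hv
    have h1 : f w = v := by
      apply HeightOneSpectrum.ext
      rw [hw.over, (hfo w).over]
    rw [← h1]
    exact Finset.mem_image_of_mem f hw'

end Pool.Agent.Lib.MP_ca2859_nt.CC
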