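import Mathlib
import Pool.Agent.Lib.MP_ca2859_nt.CC.Stm

/-!
# BLK: two blocks see every splitting
-/

set_option autoImplicit false

open Polynomial WithZero IsDedekindDomain NumberField

namespace Pool.Agent.Lib.MP_ca2859_nt.CC

private theorem BLK_A {r : ℕ} (hr : 2 ≤ r) (s c : Fin r → ℕ) (h : ∀ i, 2 ≤ s i + c i)
    (hc : 2 ≤ ∑ i, c i) (i : Fin r) (hi : 2 ≤ s i) :
    ∃ i j, i ≠ j ∧ 2 ≤ s i + s j ∧ 2 ≤ c i + c j := by
  by_contra hcon
  push Not at hcon
  have H : ∀ j, j ≠ i → c i + c j ≤ 1 := by
    intro j hj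
    have := hcon i j (Ne.symm hj) (by omega)
    omega
  obtain ⟨j₀, hj₀⟩ : ∃ j, j ≠ i := by
    have : Nontrivial (Fin r) := Fin.nontrivial_iff_two_le.2 hr
    exact exists_ne i
  by_cases hci : c i = 0
  · have hle : ∀ j, c j ≤ if 1 ≤ c j then 1 else 0 := by
      intro j
      by_cases hj : j = i
      · rw [hj, hci]
        simp
      · have := H j hj
        split_ifs with h1 <;> omega
    have h2 : 2 ≤ (Finset.univ.filter fun j => 1 ≤ c j).card := by
      rw [Finset.card_filter]
      exact hc.trans (Finset.sum_le_sum fun j _ => hle j)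
    obtain ⟨j, hj, l, hl, hjl⟩ := Finset.one_lt_card.1 (show 1 < _ from h2)
    rw [Finset.mem_filter] at hj hl
    have hji : j ≠ i := by
      rintro rfl
      omega
    have hli : l ≠ i := by
      rintro rfl
      omega
    have h3 := H j hji
    have h4 := H l hli
    have h5 := h j
    have h6 := h l
    have h7 := hcon j l hjl (by omega)
    omega
  · have h1 := H j₀ hj₀
    have h2 : ∑ j, c j = c i := by
      refine Finset.sum_eq_single i (fun j _ hj => ?_) (fun h' => absurd (Finset.mem_univ i) h')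
      have := H j hj
      omega
    omega

private theorem BLK_core {r : ℕ} (hr : 2 ≤ r) (s c : Fin r → ℕ) (h : ∀ i, 2 ≤ s i + c i)
    (hs : 2 ≤ ∑ i, s i) (hc : 2 ≤ ∑ i, c i) :
    ∃ i j, i ≠ j ∧ 2 ≤ s i + s j ∧ 2 ≤ c i + c j := by
  by_cases h1 : ∃ i, 2 ≤ s i
  · obtain ⟨i, hi⟩ := h1
    exact BLK_A hr s c h hc i hi
  by_cases h2 : ∃ i, 2 ≤ c i
  · obtain ⟨i, hi⟩ := h2
    obtain ⟨a, b, hab, ha, hb⟩ := BLK_A hr c s (fun i => by
      have := h i
      omega) hs i hi
    exact ⟨a, b, hab, hb, ha⟩
  push Not at h1 h2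
  have : Nontrivial (Fin r) := Fin.nontrivial_iff_two_le.2 hr
  obtain ⟨i, j, hij⟩ := exists_pair_ne (Fin r)
  refine ⟨i, j, hij, ?_, ?_⟩
  all_goals
    have a1 := h i
    have a2 := h j
    have a3 := h1 i
    have a4 := h1 j
    have a5 := h2 i
    have a6 := h2 j
    omega

/-- BLK -/
theorem piece_BLK : S_BLK := by
  intro n r β hr hβ S hS hSc
  have hsum : ∀ U : Finset (Fin n), ∑ i, ((Finset.univ.filter fun x => β x = i) ∩ U).card =
      U.card := by
    intro U
    rw [Finset.card_eq_sum_card_fiberwise (f := β) (t := Finset.univ)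
      (fun x _ => Finset.mem_univ _)]
    refine Finset.sum_congr rfl fun i _ => ?_
    congr 1
    ext x
    simp only [Finset.mem_inter, Finset.mem_filter, Finset.mem_univ, true_and]
    exact and_comm
  have hsdiff : ∀ A : Finset (Fin n), A \ S = A ∩ Sᶜ := fun A => by
    ext x
    simp [Finset.mem_sdiff]
  have hdisj : ∀ (i j : Fin r), i ≠ j → ∀ U : Finset (Fin n),
      (((Finset.univ.filter fun x => β x = i) ∪ (Finset.univ.filter fun x => β x = j)) ∩ U).card =
        ((Finset.univ.filter fun x => β x = i) ∩ U).card +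
          ((Finset.univ.filter fun x => β x = j) ∩ U).card := by
    intro i j hij U
    rw [Finset.union_inter_distrib_right, Finset.card_union_of_disjoint]
    rw [Finset.disjoint_left]
    intro x hx hx'
    simp only [Finset.mem_inter, Finset.mem_filter, Finset.mem_univ, true_and] at hx hx'
    exact hij (hx.1.symm.trans hx'.1)
  obtain ⟨i, j, hij, h1, h2⟩ := BLK_core hr
    (fun i => ((Finset.univ.filter fun x => β x = i) ∩ S).card)
    (fun i => ((Finset.univ.filter fun x => β x = i) ∩ Sᶜ).card) (fun i => by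
      have h1 := hβ i
      have h2 : ((Finset.univ.filter fun x => β x = i) ∩ S).card +
          ((Finset.univ.filter fun x => β x = i) ∩ Sᶜ).card =
          (Finset.univ.filter fun x => β x = i).card := by
        rw [← hsdiff]
        exact Finset.card_inter_add_card_sdiff _ _
      omega) (by rw [hsum]; exact hS) (by rw [hsum]; exact hSc)
  refine ⟨i, j, hij, ?_, ?_⟩
  · rw [hdisj i j hij]
    exact h1
  · rw [hsdiff, hdisj i j hij]
    exact h2

end Pool.Agent.Lib.MP_ca2859_nt.CC
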