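import Pool.Agent.Lib.MP_ca2859_nt.CC.Stm

set_option autoImplicit false

namespace Pool.Agent.Lib.MP_ca2859_nt.CC

theorem piece_BND : S_BND := by
  intro h k
  obtain ⟨N, hN⟩ : ∃ N, N = (2 * h + 2) ^ (2 * h + 2) := ⟨_, rfl⟩
  obtain ⟨m, hm⟩ : ∃ m, m = 4 * h + 4 := ⟨_, rfl⟩
  obtain ⟨B, hB⟩ : ∃ B, B = 8 * m * (k + 1) * (N * m) ^ N := ⟨_, rfl⟩
  refine ⟨B + N + 1, ?_⟩
  intro n D M Q hn hD hM hQ
  rw [← hN, ← hm] at hQ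
  rw [← hm]
  have h1 : (M * m ^ n) * (k + 1) ^ n * (4 ^ n * Q) * (2 ^ n * D) ≤
      (M * m ^ n) * (k + 1) ^ n * (4 ^ n * (((N ^ n * (M * m ^ n)) ^ N) * D ^ N)) *
        (2 ^ n * D) := by
    gcongr
  have h2 : (M * m ^ n) * (k + 1) ^ n * (4 ^ n * (((N ^ n * (M * m ^ n)) ^ N) * D ^ N)) *
        (2 ^ n * D) = B ^ n * (D * M) ^ (N + 1) := by
    have h8 : (8 : ℕ) ^ n = 4 ^ n * 2 ^ n := by rw [← Nat.mul_pow]
    have h3 : (N ^ n) ^ N = (N ^ N) ^ n := by rw [← pow_mul, ← pow_mul, Nat.mul_comm]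
    have h4 : (m ^ n) ^ N = (m ^ N) ^ n := by rw [← pow_mul, ← pow_mul, Nat.mul_comm]
    rw [hB]
    simp only [Nat.mul_pow]
    rw [h8, h3, h4, pow_succ, pow_succ]
    ring
  have hA1 : 1 ≤ B + N + 1 := by omega
  have h5 : B ^ n ≤ ((B + N + 1) ^ n) ^ (B + N + 1) := by
    calc B ^ n ≤ (B + N + 1) ^ n := Nat.pow_le_pow_left (by omega) n
      _ = ((B + N + 1) ^ n) ^ 1 := (pow_one _).symm
      _ ≤ ((B + N + 1) ^ n) ^ (B + N + 1) :=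
        Nat.pow_le_pow_right (Nat.one_le_pow _ _ hA1) hA1
  have h6 : (D * M) ^ (N + 1) ≤ (D * M) ^ (B + N + 1) :=
    Nat.pow_le_pow_right (Nat.mul_pos hD hM) (by omega)
  calc (M * m ^ n) * (k + 1) ^ n * (4 ^ n * Q) * (2 ^ n * D)
      ≤ B ^ n * (D * M) ^ (N + 1) := h1.trans h2.le
    _ ≤ ((B + N + 1) ^ n) ^ (B + N + 1) * (D * M) ^ (B + N + 1) := Nat.mul_le_mul h5 h6
    _ = ((B + N + 1) ^ n * D * M) ^ (B + N + 1) := by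
      rw [← Nat.mul_pow, Nat.mul_assoc]

end Pool.Agent.Lib.MP_ca2859_nt.CC
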