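import Mathlib
import Pool.Agent.Lib.MP_ca2859_nt.CC.Stm

/-!
# Fixed field theorem, cyclic covers: choice of `c, d` for the covering
-/

set_option autoImplicit false

open Polynomial WithZero IsDedekindDomain NumberField
open Pool.Agent.Lib.MP_ca2859_nt Pool.Agent.Lib.MP_ca2859_nt.GR

namespace Pool.Agent.Lib.MP_ca2859_nt.CC

section
variable {K L : Type} [Field K] [Field L] [Algebra K L]

theorem cdj_pow (δ : K) (θ : L) (hθ : θ ^ 2 = algebraMap K L δ) (n : ℕ) :
    ∃ x y : K, θ ^ n = algebraMap K L x + algebraMap K L y * θ ∧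
      (-θ) ^ n = algebraMap K L x - algebraMap K L y * θ := by
  induction n with
  | zero => exact ⟨1, 0, by simp, by simp⟩
  | succ n ih =>
    obtain ⟨x, y, h1, h2⟩ := ih
    refine ⟨y * δ, x, ?_, ?_⟩
    · rw [pow_succ, h1, map_mul, ← hθ]
      ring
    · rw [pow_succ, h2, map_mul, ← hθ]
      ring

/-- the values at `± θ` of a polynomial over `K` are `x ± y θ` -/
theorem cdj_eval (G : K[X]) (δ : K) (θ : L) (hθ : θ ^ 2 = algebraMap K L δ) :
    ∃ x y : K, (G.map (algebraMap K L)).eval θ = algebraMap K L x + algebraMap K L y * θ ∧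
      (G.map (algebraMap K L)).eval (-θ) = algebraMap K L x - algebraMap K L y * θ := by
  induction G using Polynomial.induction_on' with
  | add p q hp hq =>
    obtain ⟨x, y, h1, h2⟩ := hp
    obtain ⟨x', y', h3, h4⟩ := hq
    refine ⟨x + x', y + y', ?_, ?_⟩
    · rw [Polynomial.map_add, eval_add, h1, h3, map_add, map_add]
      ring
    · rw [Polynomial.map_add, eval_add, h2, h4, map_add, map_add]
      ring
  | monomial n c =>
    obtain ⟨x, y, h1, h2⟩ := cdj_pow δ θ hθ n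
    refine ⟨c * x, c * y, ?_, ?_⟩
    · rw [Polynomial.map_monomial, eval_monomial, h1, map_mul, map_mul]
      ring
    · rw [Polynomial.map_monomial, eval_monomial, h2, map_mul, map_mul]
      ring

/-- `z ∈ K + K θ` -/
def InKθ (K : Type) [Field K] {L : Type} [Field L] [Algebra K L] (θ z : L) : Prop :=
  ∃ s t : K, z = algebraMap K L s + algebraMap K L t * θ

theorem InKθ.mul {δ : K} {θ z z' : L} (hθ : θ ^ 2 = algebraMap K L δ) (h : InKθ K θ z)
    (h' : InKθ K θ z') : InKθ K θ (z * z') := by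
  obtain ⟨s, t, rfl⟩ := h
  obtain ⟨s', t', rfl⟩ := h'
  refine ⟨s * s' + t * t' * δ, s * t' + s' * t, ?_⟩
  simp only [map_add, map_mul]
  rw [← hθ]
  ring

theorem InKθ.inv [CharZero L] {δ : K} {θ z : L} (hθ : θ ^ 2 = algebraMap K L δ)
    (h : InKθ K θ z) (hz : z ≠ 0) : InKθ K θ z⁻¹ := by
  obtain ⟨s, t, rfl⟩ := h
  by_cases h1 : algebraMap K L s - algebraMap K L t * θ = 0
  · refine ⟨(2 * s)⁻¹, 0, ?_⟩
    have h2 : algebraMap K L s + algebraMap K L t * θ = algebraMap K L (2 * s) := by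
      rw [map_mul, map_ofNat]
      linear_combination -h1
    rw [h2, map_inv₀, map_zero]
    ring
  · refine ⟨s / (s ^ 2 - t ^ 2 * δ), -t / (s ^ 2 - t ^ 2 * δ), ?_⟩
    have h3 : algebraMap K L (s ^ 2 - t ^ 2 * δ) =
        (algebraMap K L s + algebraMap K L t * θ) * (algebraMap K L s - algebraMap K L t * θ) := by
      simp only [map_sub, map_mul, map_pow]
      rw [← hθ]
      ring
    rw [map_div₀, map_div₀, h3, map_neg]
    field_simp
    ring

theorem InKθ.max {Γ : Type} [LinearOrderedCommGroupWithZero Γ] (w : Valuation L Γ)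
    {θ z : L} (h : InKθ K θ z) :
    ∃ z' : L, InKθ K θ z' ∧ z' ≠ 0 ∧ w z' = max 1 (w z) := by
  rcases le_total (w z) 1 with h1 | h1
  · exact ⟨1, ⟨1, 0, by simp⟩, one_ne_zero, by rw [max_eq_left h1, map_one]⟩
  · refine ⟨z, h, ?_, by rw [max_eq_right h1]⟩
    rintro rfl
    rw [map_zero] at h1
    exact absurd h1 (by simp)

end

theorem piece_CDJ (hRTS : S_RTS) (hFRP : S_FRP) (hMINK : S_MINK) : S_CDJ := by
  intro K _ _ L _ _ _ h b hh hb f G δ θ a g0 α β hf ha hfα hg0 hGβ hθ hdiv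
  have hinj0 : Function.Injective (algebraMap K L) := (algebraMap K L).injective
  have hdiv' : (X ^ 2 - C (θ ^ 2)) * G.map (algebraMap K L) ∣ f.map (algebraMap K L) := by
    have h1 := Polynomial.map_dvd (algebraMap K L) hdiv
    rw [Polynomial.map_mul, Polynomial.map_sub, Polynomial.map_pow, map_X, map_C, ← hθ] at h1
    exact h1
  obtain ⟨hθ0, hinj, -⟩ := hRTS L (2 * h + 2) b (f.map (algebraMap K L))
    (G.map (algebraMap K L)) a g0 θ α β hf.1.map ha hfα hg0 hGβ hdiv'
  have hm : ∀ j, β j - θ ≠ 0 := fun j h0 => by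
    have h1 : pts θ β (Sum.inl j) = pts θ β (Sum.inr 0) := by
      simp only [pts]
      simpa using sub_eq_zero.1 h0
    exact absurd (hinj h1) (by simp)
  have hp : ∀ j, β j + θ ≠ 0 := fun j h0 => by
    have h1 : pts θ β (Sum.inl j) = pts θ β (Sum.inr 1) := by
      simp only [pts]
      simpa using eq_neg_of_add_eq_zero_left h0
    exact absurd (hinj h1) (by simp)
  obtain ⟨x, y, hx, hy⟩ := cdj_eval G δ θ hθ
  have e1 : (G.map (algebraMap K L)).eval θ = g0 * ∏ j, (θ - β j) := by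
    rw [hGβ, eval_mul, eval_C, eval_prod]
    simp
  have e2 : (G.map (algebraMap K L)).eval (-θ) = g0 * ∏ j, (-θ - β j) := by
    rw [hGβ, eval_mul, eval_C, eval_prod]
    simp
  have n1 : algebraMap K L x + algebraMap K L y * θ ≠ 0 := by
    rw [← hx, e1]
    refine mul_ne_zero hg0 (Finset.prod_ne_zero_iff.2 fun j _ => ?_)
    rw [← neg_sub]
    exact neg_ne_zero.2 (hm j)
  have n2 : algebraMap K L x - algebraMap K L y * θ ≠ 0 := by
    rw [← hy, e2]
    refine mul_ne_zero hg0 (Finset.prod_ne_zero_iff.2 fun j _ => ?_)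
    have h1 : -θ - β j = -(β j + θ) := by ring
    rw [h1]
    exact neg_ne_zero.2 (hp j)
  have hq : (algebraMap K L x + algebraMap K L y * θ) /
      (algebraMap K L x - algebraMap K L y * θ) = ∏ j, ((β j - θ) / (β j + θ)) := by
    rw [← hx, ← hy, e1, e2, mul_div_mul_left _ _ hg0, ← Finset.prod_div_distrib]
    refine Finset.prod_congr rfl fun j _ => ?_
    have h1 : -θ - β j = -(β j + θ) := by ring
    have h2 : θ - β j = -(β j - θ) := by ring
    rw [h1, h2, neg_div_neg_eq]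
  -- local analysis
  have hloc : ∀ v, v ∉ SB h f → ∀ w : HeightOneSpectrum (𝓞 L), w.asIdeal.LiesOver v.asIdeal →
      ∃ κ : L, InKθ K θ κ ∧ κ ≠ 0 ∧
        ∀ j, w.valuation L ((β j - θ) / (β j + θ)) = w.valuation L κ := by
    intro v hv w hw
    obtain ⟨α₀, ρ, hFar⟩ := hFRP K L h b hh f G δ θ a g0 α β hf ha hfα hg0 hGβ hθ hdiv v hv w hw
    have hρ : ρ ≠ 0 := fun h0 => hFar.r0 (by rw [h0, map_zero])
    have i1 : InKθ K θ ((θ - algebraMap K L α₀) / algebraMap K L ρ) := by
      refine ⟨-α₀ / ρ, 1 / ρ, ?_⟩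
      rw [map_div₀, map_div₀, map_neg, map_one]
      ring
    have i2 : InKθ K θ ((-θ - algebraMap K L α₀) / algebraMap K L ρ) := by
      refine ⟨-α₀ / ρ, -1 / ρ, ?_⟩
      rw [map_div₀, map_div₀, map_neg, map_neg, map_one]
      ring
    obtain ⟨s, hs, hs0, hsw⟩ := i1.max (w.valuation L)
    obtain ⟨t, ht, ht0, htw⟩ := i2.max (w.valuation L)
    refine ⟨s * t⁻¹, hs.mul hθ (ht.inv hθ ht0), mul_ne_zero hs0 (inv_ne_zero ht0), fun j => ?_⟩
    have f1 := hFar.far (Sum.inl j) (Sum.inr 0) (by simp)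
    have f2 := hFar.far (Sum.inl j) (Sum.inr 1) (by simp)
    have p1 : pts θ β (Sum.inl j) = β j := rfl
    have p2 : pts θ β (Sum.inr 0) = θ := by simp [pts]
    have p3 : pts θ β (Sum.inr 1) = -θ := by simp [pts]
    rw [p1, p2, ← hsw] at f1
    rw [p1, p3, ← htw, sub_neg_eq_add] at f2
    rw [map_div₀, f1, f2, map_mul, map_inv₀]
    have w1 : w.valuation L (algebraMap K L ρ) ≠ 0 :=
      (Valuation.ne_zero_iff _).2 hFar.r0
    have w2 : max 1 (w.valuation L ((β j - algebraMap K L α₀) / algebraMap K L ρ)) ≠ 0 :=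
      (lt_of_lt_of_le zero_lt_one (le_max_left _ _)).ne'
    rw [mul_div_mul_left _ _ w1, mul_div_mul_left _ _ w2, div_eq_mul_inv]
  have hprod : ∀ (w : HeightOneSpectrum (𝓞 L)) (κ : L),
      (∀ j, w.valuation L ((β j - θ) / (β j + θ)) = w.valuation L κ) →
      ord (w.valuation L) ((algebraMap K L x + algebraMap K L y * θ) /
        (algebraMap K L x - algebraMap K L y * θ)) = b * ord (w.valuation L) κ := by
    intro w κ hκ
    rw [hq, ← ord_pow]
    unfold ord
    rw [map_prod, Finset.prod_congr rfl fun j _ => hκ j, Finset.prod_const, Finset.card_univ,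
      Fintype.card_fin, map_pow]
  obtain ⟨c, d, hc, hd, J, hJ, hfin⟩ := hMINK K L θ δ x y b hb hθ0 hθ n1 n2 (SB h f) (by
    intro v hv w hw
    obtain ⟨κ, ⟨s, t, rfl⟩, hκ0, hκ⟩ := hloc v hv w hw
    exact ⟨s, t, hκ0, hprod w _ hκ⟩)
  refine ⟨c, d, hc, hd, J, hJ, fun v hv hvJ w hw j => ?_⟩
  obtain ⟨κ, -, hκ0, hκ⟩ := hloc v hv w hw
  have h1 := hfin v hv hvJ w hw
  rw [hprod w κ hκ] at h1
  have h2 : ord (w.valuation L) ((algebraMap K L c - algebraMap K L d * θ) /
      (algebraMap K L c + algebraMap K L d * θ)) = ord (w.valuation L) κ := by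
    have h3 : (b : ℤ) ≠ 0 := by
      have : 0 < b := hb
      exact_mod_cast this.ne'
    exact mul_left_cancel₀ h3 h1
  rw [hκ j, w_eq_exp (div_ne_zero hd hc), w_eq_exp hκ0, h2]

end Pool.Agent.Lib.MP_ca2859_nt.CC
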