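import Mathlib
import Pool.Agent.Lib.MP_ca2859_nt.CC.Stm
import Pool.Agent.Lib.MP_ca2859_nt.Global2

/-!
# CLS: elements with prescribed valuations outside a small set of places
-/

set_option autoImplicit false

open Polynomial WithZero IsDedekindDomain NumberField nonZeroDivisors
open Pool.Agent.Lib.MP_ca2859_nt Pool.Agent.Lib.MP_ca2859_nt.GR

namespace Pool.Agent.Lib.MP_ca2859_nt.CC

section
variable {K : Type} [Field K] [NumberField K]

private theorem CLS_irr (v : HeightOneSpectrum (𝓞 K)) : Irreducible (Associates.mk v.asIdeal) :=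
  v.associates_irreducible

private theorem CLS_cnt_zero (v : HeightOneSpectrum (𝓞 K)) (I : Ideal (𝓞 K)) (hI : I ≠ 0)
    (h : ¬ v.asIdeal ∣ I) : (Associates.mk v.asIdeal).count (Associates.mk I).factors = 0 := by
  by_contra hc
  exact h ((Associates.count_ne_zero_iff_dvd hI v.irreducible).1 hc)

private theorem CLS_cnt_mul (v : HeightOneSpectrum (𝓞 K)) (I J : Ideal (𝓞 K)) (hI : I ≠ 0)
    (hJ : J ≠ 0) : (Associates.mk v.asIdeal).count (Associates.mk (I * J)).factors =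
      (Associates.mk v.asIdeal).count (Associates.mk I).factors +
        (Associates.mk v.asIdeal).count (Associates.mk J).factors := by
  rw [← Associates.mk_mul_mk, Associates.count_mul (Associates.mk_ne_zero.2 hI)
    (Associates.mk_ne_zero.2 hJ) (CLS_irr v)]

private theorem CLS_prime_dvd (v : HeightOneSpectrum (𝓞 K))
    (S : Finset (HeightOneSpectrum (𝓞 K))) (h : v.asIdeal ∣ ∏ u ∈ S, u.asIdeal) : v ∈ S := by
  obtain ⟨v', hv', hd⟩ := (Prime.dvd_finsetProd_iff v.prime _).1 h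
  have h1 : v'.asIdeal ≤ v.asIdeal := Ideal.dvd_iff_le.1 hd
  have h2 := v'.isMaximal.eq_of_le v.isPrime.ne_top h1
  have h3 : v' = v := HeightOneSpectrum.ext h2
  rwa [h3] at hv'

private theorem CLS_norm (A : Ideal (𝓞 K)) (hA : A ≠ 0) (J : Finset (HeightOneSpectrum (𝓞 K)))
    (hJ : ∀ v ∈ J, v.asIdeal ∣ A) : ∏ v ∈ J, Ideal.absNorm v.asIdeal ≤ Ideal.absNorm A := by
  classical
  have hinj : Set.InjOn (fun w : HeightOneSpectrum (𝓞 K) => w.asIdeal) (J : Set _) :=
    fun w _ w' _ h => HeightOneSpectrum.ext h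
  have hdvd : ∏ w ∈ J, w.asIdeal ∣ A := by
    have h1 : ∏ w ∈ J, w.asIdeal = ∏ P ∈ J.image (fun w => w.asIdeal), P := by
      rw [Finset.prod_image hinj]
    rw [h1]
    apply Finset.prod_primes_dvd
    · intro P hP
      obtain ⟨w, -, rfl⟩ := Finset.mem_image.1 hP
      exact w.prime
    · intro P hP
      obtain ⟨w, hw, rfl⟩ := Finset.mem_image.1 hP
      exact hJ w hw
  rw [← map_prod]
  apply Nat.le_of_dvd
  · apply Nat.pos_of_ne_zero
    rw [Ne, Ideal.absNorm_eq_zero_iff]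
    exact hA
  · exact map_dvd _ hdvd

private theorem CLS_bound (n r d : ℕ) (hr : r ≤ n) (hd : 1 ≤ d) :
    (4 / Real.pi) ^ r * ((n.factorial : ℝ) / (n : ℝ) ^ n * Real.sqrt d) ≤ 2 ^ n * d := by
  have hpi := Real.pi_gt_three
  have h1 : (4 / Real.pi) ^ r ≤ 2 ^ n := by
    have h2 : 4 / Real.pi ≤ 2 := by
      rw [div_le_iff₀ (by linarith)]
      linarith
    have h3 : (0 : ℝ) ≤ 4 / Real.pi := by positivity
    calc (4 / Real.pi) ^ r ≤ 2 ^ r := pow_le_pow_left₀ h3 h2 r
      _ ≤ 2 ^ n := pow_le_pow_right₀ (by norm_num) hr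
  have h4 : (n.factorial : ℝ) / (n : ℝ) ^ n ≤ 1 := by
    apply div_le_one_of_le₀ _ (by positivity)
    exact_mod_cast Nat.factorial_le_pow n
  have hd' : (1 : ℝ) ≤ d := by exact_mod_cast hd
  have h5 : Real.sqrt d ≤ d := by
    rw [Real.sqrt_le_left (by linarith)]
    nlinarith
  have h6 : (n.factorial : ℝ) / (n : ℝ) ^ n * Real.sqrt d ≤ 1 * d :=
    mul_le_mul h4 h5 (Real.sqrt_nonneg _) zero_le_one
  rw [one_mul] at h6
  exact mul_le_mul h1 h6 (by positivity) (by positivity)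

end

open Classical in
private theorem CLS_cnt_prod {K : Type} [Field K] [NumberField K]
    (k : HeightOneSpectrum (𝓞 K) → ℕ) (v : HeightOneSpectrum (𝓞 K))
    (S : Finset (HeightOneSpectrum (𝓞 K))) :
    (Associates.mk v.asIdeal).count (Associates.mk (∏ u ∈ S, u.asIdeal ^ k u)).factors =
      if v ∈ S then k v else 0 := by
  induction S using Finset.induction_on with
  | empty =>
    rw [Finset.prod_empty, if_neg (Finset.notMem_empty _)]
    exact CLS_cnt_zero v 1 one_ne_zero fun h => v.isPrime.ne_top (by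
      have := Ideal.dvd_iff_le.1 h
      rw [Ideal.one_eq_top] at this
      exact top_le_iff.1 this)
  | insert u S hu ih =>
    have h0 : (∏ u ∈ S, u.asIdeal ^ k u : Ideal (𝓞 K)) ≠ 0 :=
      Finset.prod_ne_zero_iff.2 fun v _ => pow_ne_zero _ v.ne_bot
    rw [Finset.prod_insert hu, CLS_cnt_mul v _ _ (pow_ne_zero _ u.ne_bot) h0, ih]
    by_cases hvu : v = u
    · subst hvu
      rw [if_neg hu, if_pos (Finset.mem_insert_self _ _), add_zero, Associates.mk_pow,
        Associates.count_pow (Associates.mk_ne_zero.2 v.ne_bot) (CLS_irr v),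
        Associates.count_self (CLS_irr v), mul_one]
    · have h1 : (Associates.mk v.asIdeal).count (Associates.mk (u.asIdeal ^ k u)).factors = 0 := by
        refine CLS_cnt_zero v _ (pow_ne_zero _ u.ne_bot) fun h => hvu ?_
        have h2 := v.prime.dvd_of_dvd_pow h
        have h3 : u.asIdeal ≤ v.asIdeal := Ideal.dvd_iff_le.1 h2
        have h4 := u.isMaximal.eq_of_le v.isPrime.ne_top h3
        exact HeightOneSpectrum.ext h4.symm
      rw [h1, zero_add]
      simp only [Finset.mem_insert, hvu, false_or]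

/-- CLS -/
theorem piece_CLS : S_CLS := by
  intro M _ _ n hn
  classical
  set S : Finset (HeightOneSpectrum (𝓞 M)) := hn.toFinset with hS
  set I₁ : Ideal (𝓞 M) := ∏ v ∈ S, v.asIdeal ^ (n v).toNat with hI₁
  set I₂ : Ideal (𝓞 M) := ∏ v ∈ S, v.asIdeal ^ (-n v).toNat with hI₂
  have hI₁0 : I₁ ≠ 0 := Finset.prod_ne_zero_iff.2 fun v _ => pow_ne_zero _ v.ne_bot
  have hI₂0 : I₂ ≠ 0 := Finset.prod_ne_zero_iff.2 fun v _ => pow_ne_zero _ v.ne_bot
  set J₁ : (Ideal (𝓞 M))⁰ := ⟨I₁, mem_nonZeroDivisors_iff_ne_zero.mpr hI₁0⟩ with hJ₁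
  set J₂ : (Ideal (𝓞 M))⁰ := ⟨I₂, mem_nonZeroDivisors_iff_ne_zero.mpr hI₂0⟩ with hJ₂
  obtain ⟨A, hA, hnorm⟩ := NumberField.exists_ideal_in_class_of_norm_le
    (ClassGroup.mk0 J₁ * (ClassGroup.mk0 J₂)⁻¹)
  have hA0 : (A : Ideal (𝓞 M)) ≠ 0 := nonZeroDivisors.coe_ne_zero A
  have hcls : ClassGroup.mk0 (A * J₂) = ClassGroup.mk0 J₁ := by
    rw [map_mul, hA, inv_mul_cancel_right]
  obtain ⟨x, y, hx0, hy0, hxy⟩ := (ClassGroup.mk0_eq_mk0_iff).1 hcls
  have hxy' : Ideal.span {x} * ((A : Ideal (𝓞 M)) * I₂) = Ideal.span {y} * I₁ := hxy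
  have hsx : (Ideal.span {x} : Ideal (𝓞 M)) ≠ 0 := by
    rw [Ne, Ideal.zero_eq_bot, Ideal.span_singleton_eq_bot]
    exact hx0
  have hsy : (Ideal.span {y} : Ideal (𝓞 M)) ≠ 0 := by
    rw [Ne, Ideal.zero_eq_bot, Ideal.span_singleton_eq_bot]
    exact hy0
  have hx0' : algebraMap (𝓞 M) M x ≠ 0 := by simpa using hx0
  have hy0' : algebraMap (𝓞 M) M y ≠ 0 := by simpa using hy0
  have hfin : {v : HeightOneSpectrum (𝓞 M) | v.asIdeal ∣ (A : Ideal (𝓞 M))}.Finite :=
    Ideal.finite_factors hA0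
  refine ⟨algebraMap (𝓞 M) M x / algebraMap (𝓞 M) M y, div_ne_zero hx0' hy0', hfin.toFinset,
    ?_, ?_⟩
  · have h1 := CLS_norm (A : Ideal (𝓞 M)) hA0 hfin.toFinset fun v hv => by
      rw [Set.Finite.mem_toFinset] at hv
      exact hv
    have hD : (|(discr M : ℝ)|) = ((discr M).natAbs : ℝ) := by
      rw [Nat.cast_natAbs, Int.cast_abs]
    have h2 : (Ideal.absNorm (A : Ideal (𝓞 M)) : ℝ) ≤
        2 ^ Module.finrank ℚ M * ((discr M).natAbs : ℝ) := by
      refine hnorm.trans ?_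
      rw [hD]
      refine CLS_bound _ _ _ ?_ (one_le_discr M)
      have := InfinitePlace.card_add_two_mul_card_eq_rank M
      omega
    have h3 : Ideal.absNorm (A : Ideal (𝓞 M)) ≤ 2 ^ Module.finrank ℚ M * (discr M).natAbs := by
      exact_mod_cast h2
    exact h1.trans h3
  · intro v hv
    rw [Set.Finite.mem_toFinset] at hv
    have hcA := CLS_cnt_zero v A hA0 hv
    have h1 := congrArg (fun J : Ideal (𝓞 M) =>
      (Associates.mk v.asIdeal).count (Associates.mk J).factors) hxy'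
    rw [CLS_cnt_mul v _ _ hsx (mul_ne_zero hA0 hI₂0), CLS_cnt_mul v _ _ hA0 hI₂0,
      CLS_cnt_mul v _ _ hsy hI₁0, hcA, zero_add, hI₁, hI₂, CLS_cnt_prod, CLS_cnt_prod] at h1
    rw [ord_div hx0' hy0', ord_eq_cntx x hx0 v, ord_eq_cntx y hy0 v, cntx, cntx]
    have h2 : v ∉ S → n v = 0 := fun h => by
      by_contra hne
      exact h (by rw [hS, Set.Finite.mem_toFinset]; exact hne)
    by_cases hvS : v ∈ S
    · rw [if_pos hvS, if_pos hvS] at h1
      omega
    · rw [if_neg hvS, if_neg hvS] at h1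
      have := h2 hvS
      omega

end Pool.Agent.Lib.MP_ca2859_nt.CC
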