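import Pool.Agent.Lib.MP_ca2859_nt.CC.Stm

/-!
# Cyclic covers, piece COVE: a field with all roots of the covering
-/

set_option autoImplicit false

open Polynomial WithZero IsDedekindDomain NumberField
open Pool.Agent.Lib.MP_ca2859_nt Pool.Agent.Lib.MP_ca2859_nt.GR

namespace Pool.Agent.Lib.MP_ca2859_nt.CC

/-- Adjoining a primitive root of unity and finitely many roots. -/
private theorem COVE_field (L : Type) [Field L] [NumberField L] (b k : ℕ) (x : Fin b → L) :
    ∃ (L' : Type) (_ : Field L') (_ : NumberField L') (_ : Algebra L L') (ζ : L')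
      (ω : Fin b → L'), IsPrimitiveRoot ζ (k + 1) ∧
        ∀ j, ω j ^ (k + 1) = algebraMap L L' (x j) := by
  classical
  have hne : NeZero ((k + 1 : ℕ) : L) := ⟨by exact_mod_cast Nat.succ_ne_zero k⟩
  have hne' : NeZero ((k + 1 : ℕ) : AlgebraicClosure L) := ⟨by exact_mod_cast Nat.succ_ne_zero k⟩
  obtain ⟨ζ, hζ⟩ := HasEnoughRootsOfUnity.exists_primitiveRoot (AlgebraicClosure L) (k + 1)
  have hroot : ∀ j, ∃ ω : AlgebraicClosure L, ω ^ (k + 1) = algebraMap L (AlgebraicClosure L) (x j) :=
    fun j => IsAlgClosed.exists_pow_nat_eq _ (Nat.succ_pos k)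
  choose ω hω using hroot
  set S : Set (AlgebraicClosure L) := insert ζ (Set.range ω) with hS
  have hSf : Finite S := ((Set.finite_range ω).insert ζ).to_subtype
  have hfd : FiniteDimensional L (IntermediateField.adjoin L S) :=
    IntermediateField.finiteDimensional_adjoin
      fun y _ => (Algebra.IsAlgebraic.isAlgebraic (R := L) y).isIntegral
  have hQ : FiniteDimensional ℚ (IntermediateField.adjoin L S) :=
    FiniteDimensional.trans ℚ L (IntermediateField.adjoin L S)
  have hN : NumberField (IntermediateField.adjoin L S) := { }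
  have h1 : ζ ∈ IntermediateField.adjoin L S :=
    IntermediateField.subset_adjoin L S (Set.mem_insert _ _)
  have h2 : ∀ j, ω j ∈ IntermediateField.adjoin L S := fun j =>
    IntermediateField.subset_adjoin L S (Set.mem_insert_of_mem _ ⟨j, rfl⟩)
  refine ⟨IntermediateField.adjoin L S, inferInstance, hN, inferInstance, ⟨ζ, h1⟩,
    fun j => ⟨ω j, h2 j⟩, ?_, fun j => ?_⟩
  · exact IsPrimitiveRoot.of_map_of_injective
      (f := (IntermediateField.adjoin L S).val) hζ Subtype.val_injective
  · apply Subtype.ext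
    exact hω j

theorem piece_COVE : S_COVE := by
  intro K _ _ L _ _ _ b k θ β c d hθ hinj hp hm
  obtain ⟨L', i1, i2, i3, ζ, ω, hζ, hω⟩ := COVE_field L b k (fun j =>
    (β j - θ) * (algebraMap K L c - algebraMap K L d * θ) ^ k /
      ((β j + θ) * (algebraMap K L c + algebraMap K L d * θ) ^ k))
  have hbm : ∀ j, β j - θ ≠ 0 := by
    intro j h
    have h1 : pts θ β (Sum.inl j) = pts θ β (Sum.inr 0) := by
      simpa [pts] using sub_eq_zero.1 h
    exact absurd (hinj h1) (by simp)
  have hbp : ∀ j, β j + θ ≠ 0 := by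
    intro j h
    have h1 : pts θ β (Sum.inl j) = pts θ β (Sum.inr 1) := by
      simpa [pts] using eq_neg_of_add_eq_zero_left h
    exact absurd (hinj h1) (by simp)
  let iK : Algebra K L' := ((algebraMap L L').comp (algebraMap K L)).toAlgebra
  have hT : IsScalarTower K L L' := IsScalarTower.of_algebraMap_eq fun _ => rfl
  have hK : ∀ z : K, algebraMap K L' z = algebraMap L L' (algebraMap K L z) := fun _ => rfl
  refine ⟨L', i1, i2, i3, iK, hT, ζ, ω, ?_⟩
  have hi : Function.Injective (algebraMap L L') := (algebraMap L L').injective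
  refine ⟨?_, ?_, ?_, ?_, ?_, ?_, hζ, ?_⟩
  · exact (map_ne_zero_iff _ hi).2 hθ
  · rw [hK, hK, ← map_mul, ← map_add]
    exact (map_ne_zero_iff _ hi).2 hp
  · rw [hK, hK, ← map_mul, ← map_sub]
    exact (map_ne_zero_iff _ hi).2 hm
  · intro i j hij
    have h1 : pts θ β (Sum.inl i) = pts θ β (Sum.inl j) := hi hij
    exact Sum.inl_injective (hinj h1)
  · intro j
    rw [← map_sub]
    exact (map_ne_zero_iff _ hi).2 (hbm j)
  · intro j
    rw [← map_add]
    exact (map_ne_zero_iff _ hi).2 (hbp j)
  · intro j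
    rw [hω j, hK, hK]
    simp only [← map_mul, ← map_add, ← map_sub, ← map_pow]
    congr 1
    have h3 : (β j + θ) * (algebraMap K L c + algebraMap K L d * θ) ^ k ≠ 0 :=
      mul_ne_zero (hbp j) (pow_ne_zero _ hp)
    rw [div_mul_cancel₀ _ h3]

end Pool.Agent.Lib.MP_ca2859_nt.CC
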