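import Mathlib
import Pool.Agent.Lib.MP_ca2859_nt.CC.Stm

set_option autoImplicit false

open Polynomial WithZero IsDedekindDomain NumberField
open Pool.Agent.Lib.MP_ca2859_nt Pool.Agent.Lib.MP_ca2859_nt.GR

namespace Pool.Agent.Lib.MP_ca2859_nt.CC

theorem CRD_pts {L L' : Type} [Field L] [Field L'] (φ : L →+* L') {b : ℕ} (θ : L)
    (β : Fin b → L) (i : Fin b ⊕ Fin 2) :
    pts (φ θ) (fun j => φ (β j)) i = φ (pts θ β i) := by
  rcases i with j | q
  · rfl
  · simp only [pts]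
    split_ifs
    · rfl
    · rw [map_neg]

theorem CRD_map {K L L' : Type} [Field K] [Field L] [Field L'] [Algebra K L] [Algebra L L']
    [Algebra K L'] [IsScalarTower K L L'] (b k ε : ℕ) (G : K[X]) (δ c d e : K) (θ g0 : L)
    (β : Fin b → L) (hθδ : θ ^ 2 = algebraMap K L δ)
    (hG : G.map (algebraMap K L) = C g0 * ∏ j, (X - C (β j))) :
    (C e * DD b k ε δ c d G).map (algebraMap K L') = C (algebraMap K L' e) *
      DD b k ε ((algebraMap L L' θ) ^ 2) (algebraMap K L' c) (algebraMap K L' d)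
        (C (algebraMap L L' g0) * ∏ j, (X - C (algebraMap L L' (β j)))) := by
  rw [Polynomial.map_mul, Polynomial.map_C, DD_map]
  have h1 : algebraMap K L' δ = (algebraMap L L' θ) ^ 2 := by
    rw [← map_pow, hθδ, ← IsScalarTower.algebraMap_apply]
  have h2 : G.map (algebraMap K L') =
      C (algebraMap L L' g0) * ∏ j, (X - C (algebraMap L L' (β j))) := by
    rw [IsScalarTower.algebraMap_eq K L L', ← Polynomial.map_map, hG, Polynomial.map_mul,
      Polynomial.map_C, Polynomial.map_prod]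
    simp only [Polynomial.map_sub, Polynomial.map_X, Polynomial.map_C]
  rw [h1, h2]

theorem piece_CRD (hCOVE : S_COVE) (hFACT : S_FACT) (hHYP : S_HYP) (hCRP : S_CRP)
    (hVALC : S_VALC) : S_CRD := by
  intro K _ _ L _ _ _ g b k ε hg hε hkε hcard v w hwv G δ c d e θ g0 β hg0 hθ hinj hθδ hG hcd he
  have hcdL : (algebraMap K L c + algebraMap K L d * θ) *
      (algebraMap K L c - algebraMap K L d * θ) = algebraMap K L (c ^ 2 - δ * d ^ 2) := by
    rw [map_sub, map_mul, map_pow, map_pow, ← hθδ]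
    ring
  have hne : algebraMap K L (c ^ 2 - δ * d ^ 2) ≠ 0 := (_root_.map_ne_zero _).2 hcd
  rw [← hcdL] at hne
  obtain ⟨hp, hm⟩ := mul_ne_zero_iff.1 hne
  obtain ⟨L', i1, i2, i3, i4, i5, ζ, ω, hC⟩ := hCOVE K L b k θ β c d hθ hinj hp hm
  have hg0' : algebraMap L L' g0 ≠ 0 := (_root_.map_ne_zero _).2 hg0
  have he' : algebraMap K L' e ≠ 0 := (_root_.map_ne_zero _).2 he
  have hF := hFACT L' b k ε (algebraMap L L' θ) (algebraMap K L' c) (algebraMap K L' d) ζ
    (algebraMap L L' g0) (fun j => algebraMap L L' (β j)) ω hε hg0' hC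
  obtain ⟨u0, hu0⟩ : ∃ u0, u0 = algebraMap L L' g0 * ∏ j, ((algebraMap L L' (β j) +
    algebraMap L L' θ) * (algebraMap K L' c + algebraMap K L' d * algebraMap L L' θ) ^ k /
      (2 * algebraMap L L' θ)) := ⟨_, rfl⟩
  rw [← hu0] at hF
  obtain ⟨D, hD⟩ : ∃ D, D = C e * DD b k ε δ c d G := ⟨_, rfl⟩
  have hPF : PFac (D.map (algebraMap K L')) (algebraMap K L' e * u0)
      (xx (b := b) (k := k) (ε := ε) (algebraMap L L' θ) ζ ω)
      (zz (b := b) (k := k) (ε := ε) ζ ω) := by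
    refine ⟨mul_ne_zero he' hF.u0, ?_, hF.ind⟩
    rw [hD, CRD_map b k ε G δ c d e θ g0 β hθδ hG, hF.fac, C_mul, mul_assoc]
  have hIx : Fintype.card (Ix b k ε) = 2 * g + 2 := by
    rw [← hcard]
    simp [Ix]
  have hHy := hHYP K L' g D (Ix b k ε) _ _ _ hIx hPF
  obtain ⟨w', hw'⟩ := exists_place_above (K := L) (L := L') w
  have hw'v : w'.asIdeal.LiesOver v.asIdeal :=
    Ideal.LiesOver.trans w'.asIdeal w.asIdeal v.asIdeal
  have hcr := hCRP K L' g hg D hHy v w' hw'v (Ix b k ε) _ _ _ hIx hPF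
  have hval2 : v.valuation K (2 : K) ≤ 1 := by
    have h : ∀ n : ℕ, v.valuation K (n : K) ≤ 1 := fun n => by
      simpa using v.valuation_le_one (K := K) (n : 𝓞 K)
    exact_mod_cast h 2
  have ho2 : 0 ≤ ord (v.valuation K) (2 : K) := ord_nonneg hval2
  have hB : 0 ≤ ((Ideal.ramificationIdx' v.asIdeal w'.asIdeal : ℕ) : ℤ) *
      (discExp g D v + (4 * g + 4) * ord (v.valuation K) (2 : K)) := by positivity
  have hV := hVALC L' (w'.valuation L') b k ε (algebraMap L L' θ) (algebraMap K L' c)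
    (algebraMap K L' d) ζ (fun j => algebraMap L L' (β j)) ω hε hkε hC _ hB hcr
  have htow : Ideal.ramificationIdx' v.asIdeal w'.asIdeal =
      Ideal.ramificationIdx' v.asIdeal w.asIdeal * Ideal.ramificationIdx' w.asIdeal w'.asIdeal :=
    Ideal.ramificationIdx'_algebra_tower' v.asIdeal w.asIdeal w'.asIdeal
  have hk1 : ord (w'.valuation L') ((k + 1 : ℕ) : L') =
      (Ideal.ramificationIdx' v.asIdeal w'.asIdeal : ℕ) *
        ord (v.valuation K) ((k + 1 : ℕ) : K) := by
    rw [← ord_base v w', map_natCast]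
  intro i j i' j' h1 h2 h3 h4 h5 h6
  have hf := hV i j i' j' h1 h2 h3 h4 h5 h6
  simp only [CRD_pts] at hf
  rw [← map_sub, ← map_sub, ← map_sub, ← map_sub, ← map_mul, ← map_mul, ord_base w w',
    ord_base w w', hk1, htow] at hf
  have hpos : (0 : ℤ) < (Ideal.ramificationIdx' w.asIdeal w'.asIdeal : ℕ) := by
    exact_mod_cast ram_pos w w'
  rw [← hD]
  refine le_of_mul_le_mul_left (le_trans hf (le_of_eq ?_)) hpos
  push_cast
  ring

end Pool.Agent.Lib.MP_ca2859_nt.CC
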