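import Mathlib
import Pool.Agent.Lib.MP_ca2859_nt.CC.Stm
import Pool.Agent.Lib.MP_ca2859_nt.GR.A2

set_option autoImplicit false

/-!
# CRP: projective form of the cross ratio bound
-/

open Polynomial WithZero IsDedekindDomain NumberField
open Pool.Agent.Lib.MP_ca2859_nt Pool.Agent.Lib.MP_ca2859_nt.GR

namespace Pool.Agent.Lib.MP_ca2859_nt.CC

private theorem CRP_map_flip {K L : Type} [Field K] [Field L] [Algebra K L] (g : ℕ) (t : K)
    (f : K[X]) : (flip g t f).map (algebraMap K L) =
      flip g (algebraMap K L t) (f.map (algebraMap K L)) := by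
  rw [flip, flip, ← reflect_map, ← map_taylor]

private theorem CRP_deg {L : Type} [Field L] (n : ℕ) (u : L) (x z : Fin n → L) :
    (C u * ∏ i, (C (z i) * X - C (x i))).natDegree ≤ n := by
  refine (natDegree_C_mul_le _ _).trans ?_
  refine (natDegree_prod_le _ _).trans ?_
  calc ∑ i : Fin n, (C (z i) * X - C (x i)).natDegree ≤ ∑ _i : Fin n, 1 := by
        refine Finset.sum_le_sum fun i _ => ?_
        refine (natDegree_sub_le _ _).trans ?_
        rw [natDegree_C]
        have := natDegree_C_mul_le (z i) (X : L[X])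
        have h2 := natDegree_X_le (R := L)
        omega
    _ = n := by simp

private theorem CRP_factor {L : Type} [Field L] [CharZero L] (g : ℕ) (u : L)
    (x z : Fin (2 * g + 2) → L) (T : L) (hT : ∀ j, x j - T * z j ≠ 0) :
    flip g T (C u * ∏ i, (C (z i) * X - C (x i))) = C (u * ∏ j, (T * z j - x j)) *
      ∏ j : Fin (2 * g + 2), (X - C (z j / (x j - T * z j))) := by
  refine Polynomial.eq_of_infinite_eval_eq _ _ ?_
  refine Set.Infinite.mono (s := {y : L | y ≠ 0}) ?_ ?_
  · intro y hy
    have hy' : y ≠ 0 := hy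
    show (flip g T _).eval y = _
    rw [flip_eval g T _ (CRP_deg _ u x z) y hy', eval_mul, eval_C, eval_prod, eval_mul, eval_C,
      eval_prod]
    simp only [eval_sub, eval_mul, eval_X, eval_C]
    have h1 : y ^ (2 * g + 2) = ∏ _j : Fin (2 * g + 2), y := by
      rw [Finset.prod_const, Finset.card_univ, Fintype.card_fin]
    have h2 : ∀ j, (T * z j - x j) * (y - z j / (x j - T * z j)) =
        y * (z j * (y⁻¹ + T) - x j) := by
      intro j
      have h3 := hT j
      have h4 : T * z j - x j = -(x j - T * z j) := by ring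
      rw [h4]
      generalize hd : x j - T * z j = d at h3
      have h5 : x j = d + T * z j := by rw [← hd]; ring
      rw [h5]
      field_simp
      ring
    calc y ^ (2 * g + 2) * (u * ∏ j, (z j * (y⁻¹ + T) - x j))
        = u * ((∏ _j : Fin (2 * g + 2), y) * ∏ j, (z j * (y⁻¹ + T) - x j)) := by
          rw [h1]
          ring
      _ = u * ∏ j, (y * (z j * (y⁻¹ + T) - x j)) := by
          rw [← Finset.prod_mul_distrib]
      _ = u * ∏ j, ((T * z j - x j) * (y - z j / (x j - T * z j))) := by
          simp only [h2]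
      _ = u * (∏ j, (T * z j - x j)) * ∏ j, (y - z j / (x j - T * z j)) := by
          rw [Finset.prod_mul_distrib]
          ring
  · have h : ({y : L | y ≠ 0} : Set L) = ({0} : Set L)ᶜ := rfl
    rw [h]
    exact (Set.finite_singleton _).infinite_compl

theorem piece_CRP : S_CRP := by
  intro K _ _ L _ _ _ g hg f hf v w hw ι _ u x z hcard hP
  obtain ⟨t, ht⟩ := exists_nonroot g f hf
  set T := algebraMap K L t with hTdef
  have hfd : f.natDegree ≤ 2 * g + 2 := by
    have := hf.2
    omega
  have hne : ∀ j, x j - T * z j ≠ 0 := by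
    have h1 : (f.map (algebraMap K L)).eval T ≠ 0 := by
      rw [eval_map_algebraMap, hTdef, aeval_algebraMap_apply]
      intro h
      apply ht
      have h2 := (algebraMap K L).injective (h.trans (map_zero (algebraMap K L)).symm)
      simpa using h2
    rw [hP.fac, eval_mul, eval_prod] at h1
    have h2 := right_ne_zero_of_mul h1
    rw [Finset.prod_ne_zero_iff] at h2
    intro j hj
    apply h2 j (Finset.mem_univ j)
    rw [eval_sub, eval_mul, eval_X, eval_C, eval_C]
    linear_combination -hj
  let en : Fin (2 * g + 2) ≃ ι := (Fintype.equivFinOfCardEq hcard).symm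
  set γ : Fin (2 * g + 2) → L := fun j => z (en j) / (x (en j) - T * z (en j)) with hγ
  have hsub : ∀ i j, γ i - γ j = -dt x z (en i) (en j) *
      ((x (en i) - T * z (en i))⁻¹ * (x (en j) - T * z (en j))⁻¹) := by
    intro i j
    have h1 := hne (en i)
    have h2 := hne (en j)
    simp only [hγ, dt]
    generalize ha : x (en i) - T * z (en i) = a at h1
    generalize hb : x (en j) - T * z (en j) = b at h2
    have h3 : x (en i) = a + T * z (en i) := by rw [← ha]; ring
    have h4 : x (en j) = b + T * z (en j) := by rw [← hb]; ring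
    rw [h3, h4]
    field_simp
    ring
  have hγinj : Function.Injective γ := by
    intro i j hij
    by_contra hne'
    have h1 := hsub i j
    rw [hij, sub_self] at h1
    have h2 := hP.ind (en i) (en j) (fun h => hne' (en.injective h))
    refine mul_ne_zero (neg_ne_zero.2 h2)
      (mul_ne_zero (inv_ne_zero (hne (en i))) (inv_ne_zero (hne (en j)))) h1.symm
  have hfac : (flip g t f).map (algebraMap K L) =
      C (u * ∏ j, (T * z (en j) - x (en j))) * ∏ j, (X - C (γ j)) := by
    rw [CRP_map_flip, hP.fac, ← en.prod_comp]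
    exact CRP_factor g u (fun j => x (en j)) (fun j => z (en j)) T (fun j => hne (en j))
  have ha' : u * ∏ j, (T * z (en j) - x (en j)) ≠ 0 := by
    refine mul_ne_zero hP.u0 (Finset.prod_ne_zero_iff.2 fun j _ => ?_)
    rw [← neg_sub]
    exact neg_ne_zero.2 (hne (en j))
  intro i j k l hij hik hil hjk hjl hkl
  have hs : ∀ {a b : ι}, a ≠ b → en.symm a ≠ en.symm b := fun h h' => h (en.symm.injective h')
  have key := cross_bound g hg (flip g t f) (flip_hyper g hg t f hf) v w _ ha' γ hγinj hfac
    (en.symm i) (en.symm k) (en.symm j) (en.symm l) (hs hik) (hs hij) (hs hil) (hs hjk.symm)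
    (hs hkl) (hs hjl)
  rw [discExp_flip g t f hfd v] at key
  set c : L := (x i - T * z i)⁻¹ * (x j - T * z j)⁻¹ * ((x k - T * z k)⁻¹ * (x l - T * z l)⁻¹)
    with hc
  have hc0 : c ≠ 0 := mul_ne_zero (mul_ne_zero (inv_ne_zero (hne i)) (inv_ne_zero (hne j)))
    (mul_ne_zero (inv_ne_zero (hne k)) (inv_ne_zero (hne l)))
  have e1 : (γ (en.symm i) - γ (en.symm k)) * (γ (en.symm j) - γ (en.symm l)) =
      (dt x z i k * dt x z j l) * c := by
    rw [hsub, hsub]
    simp only [Equiv.apply_symm_apply]
    rw [hc]
    ring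
  have e2 : (γ (en.symm i) - γ (en.symm j)) * (γ (en.symm k) - γ (en.symm l)) =
      (dt x z i j * dt x z k l) * c := by
    rw [hsub, hsub]
    simp only [Equiv.apply_symm_apply]
    rw [hc]
    ring
  rw [e1, e2, ord_mul (mul_ne_zero (hP.ind i k hik) (hP.ind j l hjl)) hc0,
    ord_mul (mul_ne_zero (hP.ind i j hij) (hP.ind k l hkl)) hc0] at key
  have hpos : 0 ≤ (Ideal.ramificationIdx' v.asIdeal w.asIdeal : ℤ) *
      (discExp g f v + (4 * g + 4) * ord (v.valuation K) (2 : K)) := by
    have h2 : 0 ≤ ord (v.valuation K) (2 : K) := by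
      have : v.valuation K (2 : K) ≤ 1 := by
        exact_mod_cast natCast_le_one (v.valuation K) 2
      exact ord_nonneg this
    positivity
  linarith

end Pool.Agent.Lib.MP_ca2859_nt.CC
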