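import Mathlib
import Pool.Agent.Lib.MP_ca2859_nt.CC.Stm

/-!
# Fixed field theorem, part 2: piece DSUB
-/

set_option autoImplicit false

open Polynomial WithZero IsDedekindDomain NumberField
open Pool.Agent.Lib.MP_ca2859_nt Pool.Agent.Lib.MP_ca2859_nt.GR

namespace Pool.Agent.Lib.MP_ca2859_nt.CC

theorem piece_DSUB : S_DSUB := by
  intro M L _ _ _ _ _
  have h : discr M ∣ discr L := discr_dvd_discr M L
  exact Nat.le_of_dvd (Int.natAbs_pos.2 (discr_ne_zero L)) (Int.natAbs_dvd_natAbs.2 h)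

end Pool.Agent.Lib.MP_ca2859_nt.CC
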