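import Pool.Agent.Lib.MP_ca2859_nt.CC.Stm

/-!
# Cyclic covers: the roots of the factors
-/

set_option autoImplicit false

open Polynomial NumberField

namespace Pool.Agent.Lib.MP_ca2859_nt.CC

/-- two factors of a separable product have no common root -/
private theorem FACB_disj {K L : Type} [Field K] [Field L] [Algebra K L] {r : ℕ} (F : Fin r → K[X])
    (hs : (∏ i, F i).Separable) {i i' : Fin r} (h : i ≠ i') (x : L)
    (h1 : ((F i).map (algebraMap K L)).eval x = 0)
    (h2 : ((F i').map (algebraMap K L)).eval x = 0) : False := by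
  have hdvd : F i * F i' ∣ ∏ i, F i := by
    rw [← Finset.prod_pair h]
    exact Finset.prod_dvd_prod_of_subset _ _ _ (Finset.subset_univ _)
  have hc : IsCoprime (F i) (F i') := (hs.of_dvd hdvd).isCoprime
  obtain ⟨u, v, huv⟩ := hc
  have h3 := congrArg (fun P : K[X] => (P.map (algebraMap K L)).eval x) huv
  simp only [Polynomial.map_add, Polynomial.map_mul, eval_add, eval_mul, h1, h2, mul_zero,
    add_zero, Polynomial.map_one, eval_one] at h3
  exact zero_ne_one h3

theorem piece_FACB : S_FACB := by
  classical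
  intro K L _ _ _ _ _ n r m F hsep hdeg hsum a ha α hα hfac
  have hne : ∀ i, F i ≠ 0 := by
    intro i h0
    have h1 : (∏ i, F i) = 0 := Finset.prod_eq_zero (Finset.mem_univ i) h0
    rw [h1] at hsep
    exact not_separable_zero hsep
  have hroot : ∀ j, ∃ i, ((F i).map (algebraMap K L)).eval (α j) = 0 := by
    intro j
    have h1 : ((∏ i, F i).map (algebraMap K L)).eval (α j) = 0 := by
      rw [hfac, eval_mul, eval_prod, Finset.prod_eq_zero (Finset.mem_univ j), mul_zero]
      rw [eval_sub, eval_X, eval_C, sub_self]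
    rw [Polynomial.map_prod, eval_prod, Finset.prod_eq_zero_iff] at h1
    obtain ⟨i, -, hi⟩ := h1
    exact ⟨i, hi⟩
  choose β hβ using hroot
  have hG0 : ∀ i, (F i).map (algebraMap K L) ≠ 0 := fun i =>
    (Polynomial.map_ne_zero_iff (algebraMap K L).injective).2 (hne i)
  have hmon : ∀ i, (∏ j ∈ Finset.univ.filter (fun x => β x = i), (X - C (α j)) : L[X]).Monic :=
    fun i => monic_prod_of_monic _ _ fun j _ => monic_X_sub_C _
  have hDdeg : ∀ i, (∏ j ∈ Finset.univ.filter (fun x => β x = i), (X - C (α j)) : L[X]).natDegree =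
      (Finset.univ.filter (fun x => β x = i)).card := by
    intro i
    rw [natDegree_prod_of_monic _ _ fun j _ => monic_X_sub_C _]
    simp only [natDegree_X_sub_C, Finset.sum_const, smul_eq_mul, mul_one]
  have hdvd : ∀ i, (∏ j ∈ Finset.univ.filter (fun x => β x = i), (X - C (α j)) : L[X]) ∣
      (F i).map (algebraMap K L) := by
    intro i
    apply Finset.prod_dvd_of_coprime
    · intro j _ j' _ hjj
      exact pairwise_coprime_X_sub_C hα hjj
    · intro j hj
      rw [Finset.mem_filter] at hj
      rw [dvd_iff_isRoot, IsRoot.def, ← hj.2]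
      exact hβ j
  have hle : ∀ i ∈ (Finset.univ : Finset (Fin r)),
      (Finset.univ.filter (fun x => β x = i)).card ≤ m i := by
    intro i _
    have h1 := natDegree_le_of_dvd (hdvd i) (hG0 i)
    rw [hDdeg, natDegree_map, hdeg] at h1
    exact h1
  have hcard : ∑ i, (Finset.univ.filter (fun x => β x = i)).card = ∑ i, m i := by
    rw [hsum]
    have h1 := Finset.card_eq_sum_card_fiberwise (f := β) (s := (Finset.univ : Finset (Fin n)))
      (t := (Finset.univ : Finset (Fin r))) (fun x _ => Finset.mem_coe.2 (Finset.mem_univ _))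
    rw [Finset.card_univ, Fintype.card_fin] at h1
    exact h1.symm
  have heq := (Finset.sum_eq_sum_iff_of_le hle).1 hcard
  refine ⟨β, fun i => ⟨heq i (Finset.mem_univ i), C ((F i).leadingCoeff)⁻¹ * F i, ?_⟩⟩
  obtain ⟨q, hq⟩ := hdvd i
  have hq0 : q ≠ 0 := by
    rintro rfl
    rw [mul_zero] at hq
    exact hG0 i hq
  have hqd : q.natDegree = 0 := by
    have h1 := congrArg natDegree hq
    rw [natDegree_mul (hmon i).ne_zero hq0, hDdeg, natDegree_map, hdeg,
      heq i (Finset.mem_univ i)] at h1
    omega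
  obtain ⟨c, rfl⟩ := natDegree_eq_zero.1 hqd
  have hc : algebraMap K L (F i).leadingCoeff = c := by
    have h1 := congrArg leadingCoeff hq
    rw [leadingCoeff_mul, (hmon i).leadingCoeff, one_mul, leadingCoeff_C, leadingCoeff_map] at h1
    exact h1
  have hc0 : c ≠ 0 := fun h => hq0 (by rw [h, C_0])
  rw [Polynomial.map_mul, map_C, map_inv₀, hc, hq, mul_comm (∏ j ∈ _, _), ← mul_assoc, ← C_mul,
    inv_mul_cancel₀ hc0, C_1, one_mul]

end Pool.Agent.Lib.MP_ca2859_nt.CC
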