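import Pool.Agent.Lib.MP_ca2859_nt.CC.Stm

/-!
# Cyclic covers, piece FACT
-/

set_option autoImplicit false

open Polynomial WithZero IsDedekindDomain NumberField
open Pool.Agent.Lib.MP_ca2859_nt Pool.Agent.Lib.MP_ca2859_nt.GR

namespace Pool.Agent.Lib.MP_ca2859_nt.CC

theorem FACT_prod {R : Type} [CommRing R] [IsDomain R] {ζ : R} {n : ℕ}
    (hn : 0 < n) (hζ : IsPrimitiveRoot ζ n) (x y : R) :
    x ^ n - y ^ n = ∏ a : Fin n, (x - ζ ^ (a : ℕ) * y) := by
  have h := X_pow_sub_C_eq_prod hζ hn (rfl : y ^ n = y ^ n)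
  have h1 := congrArg (Polynomial.eval x) h
  rw [eval_sub, eval_pow, eval_X, eval_C, eval_prod] at h1
  rw [h1, Finset.prod_range]
  exact Finset.prod_congr rfl fun a _ => by rw [eval_sub, eval_X, eval_C]

theorem FACT_one {F : Type} [Field F] [CharZero F] (k : ℕ) (θ c d ζ β ω : F) (hθ : θ ≠ 0)
    (hζ : IsPrimitiveRoot ζ (k + 1))
    (om : ω ^ (k + 1) * ((β + θ) * (c + d * θ) ^ k) = (β - θ) * (c - d * θ) ^ k) :
    (PQ (θ ^ 2) c d k).1 - C β * (PQ (θ ^ 2) c d k).2 =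
      C ((β + θ) * (c + d * θ) ^ k / (2 * θ)) *
        ∏ a : Fin (k + 1), (C (1 - ζ ^ (a : ℕ) * ω) * X - C (θ * (1 + ζ ^ (a : ℕ) * ω))) := by
  have h2 : (2 * θ : F) ≠ 0 := mul_ne_zero two_ne_zero hθ
  have hC : (C (2 * θ) : F[X]) ≠ 0 := C_ne_zero.2 h2
  refine mul_left_cancel₀ hC ?_
  rw [PQ_beta, ← mul_assoc, ← C_mul, mul_div_cancel₀ _ h2, ← om]
  have h3 := FACT_prod (n := k + 1) (Nat.succ_pos k) (hζ.map_of_injective (C_injective (R := F)))
    (X - C θ) (C ω * (X + C θ))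
  have h4 : ∏ a : Fin (k + 1), (C (1 - ζ ^ (a : ℕ) * ω) * X - C (θ * (1 + ζ ^ (a : ℕ) * ω))) =
      ∏ a : Fin (k + 1), ((X - C θ) - (C ζ) ^ (a : ℕ) * (C ω * (X + C θ))) := by
    refine Finset.prod_congr rfl fun a _ => ?_
    simp only [C_sub, C_mul, C_add, C_pow, C_1]
    ring
  rw [h4, ← h3, mul_pow, ← C_pow]
  simp only [C_mul]
  ring

theorem piece_FACT : S_FACT := by
  intro F _ _ b k ε θ c d ζ g0 β ω hε hg h
  have h2 : (2 * θ : F) ≠ 0 := mul_ne_zero two_ne_zero h.th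
  have hω : ∀ j, ω j ≠ 0 := by
    intro j h0
    have h1 := h.om j
    rw [h0, zero_pow (Nat.succ_ne_zero k), zero_mul] at h1
    exact mul_ne_zero (h.bm j) (pow_ne_zero k h.cm) h1.symm
  have hζ0 : ζ ≠ 0 := h.pr.ne_zero (Nat.succ_ne_zero k)
  refine ⟨?_, ?_, ?_⟩
  · refine mul_ne_zero hg (Finset.prod_ne_zero_iff.2 fun j _ => ?_)
    exact div_ne_zero (mul_ne_zero (h.bp j) (pow_ne_zero k h.cp)) h2
  · rw [DD, hom_prod, Fintype.prod_sum_type, Fintype.prod_prod_type]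
    have e1 : ∏ j, ((PQ (θ ^ 2) c d k).1 - C (β j) * (PQ (θ ^ 2) c d k).2) =
        C (∏ j, ((β j + θ) * (c + d * θ) ^ k / (2 * θ))) *
        ∏ j, ∏ a : Fin (k + 1), (C (zz (b := b) (k := k) (ε := ε) ζ ω (Sum.inl (j, a))) * X -
          C (xx (b := b) (k := k) (ε := ε) θ ζ ω (Sum.inl (j, a)))) := by
      rw [map_prod, ← Finset.prod_mul_distrib]
      refine Finset.prod_congr rfl fun j _ => ?_
      rw [FACT_one k θ c d ζ (β j) (ω j) h.th h.pr (h.om j)]
      rfl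
    have e2 : ((X ^ 2 - C (θ ^ 2)) ^ ε : F[X]) =
        ∏ q : Fin (2 * ε), (C (zz (b := b) (k := k) (ε := ε) ζ ω (Sum.inr q)) * X -
          C (xx (b := b) (k := k) (ε := ε) θ ζ ω (Sum.inr q))) := by
      rcases Nat.le_one_iff_eq_zero_or_eq_one.1 hε with h0 | h0
      · subst h0
        rfl
      · subst h0
        rw [pow_one]
        show _ = ∏ q : Fin 2, _
        rw [Fin.prod_univ_two]
        show _ = (C 1 * X - C θ) * (C 1 * X - C (-θ))
        rw [C_1, C_neg, C_pow]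
        ring
    rw [e1, e2, C_mul]
    ring
  · have key : ∀ p q : Fin b × Fin (k + 1), p ≠ q →
        ζ ^ (p.2 : ℕ) * ω p.1 - ζ ^ (q.2 : ℕ) * ω q.1 ≠ 0 := by
      intro p q hpq h0
      have h1 := sub_eq_zero.1 h0
      have h3 : ∀ a : ℕ, (ζ ^ a) ^ (k + 1) = 1 := by
        intro a
        rw [← pow_mul, mul_comm, pow_mul, h.pr.pow_eq_one, one_pow]
      have h4 : ω p.1 ^ (k + 1) = ω q.1 ^ (k + 1) := by
        have := congrArg (· ^ (k + 1)) h1
        simpa only [mul_pow, h3, one_mul] using this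
      have hc : (c + d * θ) ^ k ≠ 0 := pow_ne_zero k h.cp
      have hc' : (c - d * θ) ^ k ≠ 0 := pow_ne_zero k h.cm
      have h5 : β p.1 = β q.1 := by
        have a1 := h.om p.1
        have a2 := h.om q.1
        rw [← h4] at a2
        have a3 : (β p.1 - θ) * (β q.1 + θ) = (β q.1 - θ) * (β p.1 + θ) := by
          have e1 : (c - d * θ) ^ k * (c + d * θ) ^ k ≠ 0 := mul_ne_zero hc' hc
          refine mul_left_cancel₀ e1 ?_
          linear_combination (-(β q.1 + θ) * (c + d * θ) ^ k) * a1 +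
            ((β p.1 + θ) * (c + d * θ) ^ k) * a2
        have a4 : (2 * θ) * (β p.1 - β q.1) = 0 := by linear_combination a3
        exact sub_eq_zero.1 ((mul_eq_zero.1 a4).resolve_left h2)
      have h6 : p.1 = q.1 := h.inj h5
      rw [h6] at h1
      have h7 : ζ ^ (p.2 : ℕ) = ζ ^ (q.2 : ℕ) := mul_right_cancel₀ (hω _) h1
      have h8 := h.pr.pow_inj p.2.2 q.2.2 h7
      exact hpq (Prod.ext h6 (Fin.ext h8))
    have hinr : ∀ q q' : Fin (2 * ε), q ≠ q' → ¬((q : ℕ) = 0 ↔ (q' : ℕ) = 0) := by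
      intro q q' hq h0
      have := q.2
      have := q'.2
      have h3 : (q : ℕ) ≠ q' := fun h3 => hq (Fin.ext h3)
      omega
    rintro (p | q) (p' | q') hij
    · rw [dt_inl_inl]
      exact mul_ne_zero h2 (key p p' fun h0 => hij (by rw [h0]))
    · by_cases hq : (q' : ℕ) = 0
      · rw [dt_inl_zero _ _ _ _ _ hq]
        exact mul_ne_zero h2 (mul_ne_zero (pow_ne_zero _ hζ0) (hω _))
      · rw [dt_inl_one _ _ _ _ _ hq]
        exact h2
    · rw [dt_swap, neg_ne_zero]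
      by_cases hq : (q : ℕ) = 0
      · rw [dt_inl_zero _ _ _ _ _ hq]
        exact mul_ne_zero h2 (mul_ne_zero (pow_ne_zero _ hζ0) (hω _))
      · rw [dt_inl_one _ _ _ _ _ hq]
        exact h2
    · have h3 := hinr q q' (fun h0 => hij (by rw [h0]))
      by_cases hq : (q : ℕ) = 0
      · have hq' : (q' : ℕ) ≠ 0 := fun h0 => h3 ⟨fun _ => h0, fun _ => hq⟩
        rw [dt_zero_one _ _ _ _ _ hq hq']
        exact h2
      · have hq' : (q' : ℕ) = 0 := by
          by_contra h0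
          exact h3 ⟨fun h4 => absurd h4 hq, fun h4 => absurd h4 h0⟩
        rw [dt_swap, dt_zero_one _ _ _ _ _ hq' hq, neg_ne_zero]
        exact h2

end Pool.Agent.Lib.MP_ca2859_nt.CC
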