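import Pool.Agent.Lib.MP_ca2859_nt.CC.Stm

/-!
# Cyclic covers, piece FINI: good reduction of the even twists outside a finite set
-/

set_option autoImplicit false

open Polynomial WithZero IsDedekindDomain NumberField
open Pool.Agent.Lib.MP_ca2859_nt Pool.Agent.Lib.MP_ca2859_nt.GR

namespace Pool.Agent.Lib.MP_ca2859_nt.CC

private theorem FINI_discr {F : Type} [Field F] (q : F[X]) (t : F) (ht : t ≠ 0)
    (hq : 0 < q.natDegree) :
    (C t * q).discr = t ^ (q.natDegree - 1 + (q.natDegree - 1)) * q.discr := by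
  have hnd : (C t * q).natDegree = q.natDegree := natDegree_C_mul ht
  have hq0 : q ≠ 0 := by
    rintro rfl
    simp at hq
  have hlc : q.leadingCoeff ≠ 0 := leadingCoeff_ne_zero.2 hq0
  have h1 := resultant_deriv (f := C t * q) (by
    rw [← natDegree_pos_iff_degree_pos, hnd]
    exact hq)
  have h2 := resultant_deriv (f := q) (by
    rw [← natDegree_pos_iff_degree_pos]
    exact hq)
  rw [hnd, derivative_C_mul, resultant_C_mul_left, resultant_C_mul_right, h2, leadingCoeff_mul,
    leadingCoeff_C] at h1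
  have h3 : ((-1) ^ (q.natDegree * (q.natDegree - 1) / 2) : F) ≠ 0 :=
    pow_ne_zero _ (neg_ne_zero.2 one_ne_zero)
  have h4 : t ^ q.natDegree = t * t ^ (q.natDegree - 1) := by
    rw [← pow_succ']
    congr 1
    omega
  rw [h4] at h1
  apply mul_left_cancel₀ (mul_ne_zero h3 (mul_ne_zero ht hlc))
  rw [pow_add]
  linear_combination -h1

/-- the valuation of `eqDisc` does not change under scaling by a unit -/
private theorem FINI_eqDisc {F : Type} [Field F] (w : Valuation F ℤᵐ⁰) (g : ℕ) (q : F[X]) (t : F)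
    (ht : t ≠ 0) (hw : w t = 1) (hq : 0 < q.natDegree) :
    w (eqDisc g (C t * q)) = w (eqDisc g q) := by
  have hnd : (C t * q).natDegree = q.natDegree := natDegree_C_mul ht
  unfold eqDisc
  rw [hnd]
  split_ifs with h
  · rw [map_mul, map_mul, FINI_discr q t ht hq, map_mul, map_pow _ t, hw, one_pow, one_mul]
  · rw [leadingCoeff_mul, leadingCoeff_C, FINI_discr q t ht hq]
    simp only [map_mul, map_pow, hw, one_pow, one_mul]

/-- FINI -/
theorem piece_FINI : S_FINI := by
  intro K _ _ g hg q hf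
  have hdeg := hf.2
  have h1 : (⋃ i ∈ Finset.range (q.natDegree + 1),
      HeightOneSpectrum.Support (𝓞 K) (q.coeff i)).Finite :=
    Set.Finite.biUnion (Finset.finite_toSet _)
      (fun i _ => HeightOneSpectrum.Support.finite (𝓞 K) (q.coeff i))
  refine (h1.union (finite_val_ne_one (eqDisc g q) (eqDisc_ne_zero g q hf))).subset ?_
  intro v hv
  by_contra hcon
  simp only [Set.mem_union, Set.mem_iUnion, not_or, not_exists, Set.mem_ofPred_eq, not_not] at hcon
  apply hv
  rintro e he ⟨k, hk⟩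
  obtain ⟨π, hπ⟩ := v.valuation_exists_uniformizer K
  have hπ0 : π ≠ 0 := by
    rintro rfl
    rw [map_zero] at hπ
    exact absurd hπ.symm (exp_ne_zero)
  have hordπ : ord (v.valuation K) π = 1 := by
    rw [ord, hπ, log_exp]
    ring
  have hc0 : π ^ (-k) ≠ 0 := zpow_ne_zero _ hπ0
  have ht0 : (π ^ (-k)) ^ 2 * e ≠ 0 := mul_ne_zero (pow_ne_zero _ hc0) he
  have hv1 : v.valuation K ((π ^ (-k)) ^ 2 * e) = 1 := by
    rw [w_eq_exp ht0, ord_mul (pow_ne_zero _ hc0) he, ord_pow, ord_zpow, hordπ, hk]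
    have : -(((2 : ℕ) : ℤ) * (-k * 1) + 2 * k) = 0 := by
      push_cast
      ring
    rw [this, exp_zero]
  have hnd : (C ((π ^ (-k)) ^ 2 * e) * q).natDegree = q.natDegree := natDegree_C_mul ht0
  apply Nat.le_zero.mp
  refine minDiscExp_le _ g _ 0 ⟨C ((π ^ (-k)) ^ 2 * e) * q, 0, ⟨?_, fun i => by simp, ?_, by simp,
    ?_, ?_⟩, ?_⟩
  · intro i
    rw [coeff_C_mul, map_mul, hv1, one_mul]
    by_cases hi : i ∈ Finset.range (q.natDegree + 1)
    · exact not_lt.mp (hcon.1 i hi)
    · rw [coeff_eq_zero_of_natDegree_lt (by rw [Finset.mem_range] at hi; omega)]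
      simp
  · rw [hnd]
    omega
  · rw [f0_zero, hnd]
    exact hdeg
  · rw [f0_zero]
    refine ⟨1, 0, 0, 1, π ^ (-k), by simp, hc0, fun x _ => ?_⟩
    simp only [eval_mul, eval_C, zero_mul, zero_add, one_mul, add_zero, div_one, one_pow, mul_one]
    ring
  · rw [f0_zero, FINI_eqDisc _ g q _ ht0 hv1 (by omega), hcon.2]
    simp

end Pool.Agent.Lib.MP_ca2859_nt.CC
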