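import Pool.Agent.Lib.MP_ca2859_nt.CC.Stm

/-!
# MP_ca2859_nt, CC, piece FRP (helper82)
-/

set_option autoImplicit false

open Polynomial WithZero IsDedekindDomain NumberField

namespace Pool.Agent.Lib.MP_ca2859_nt.CC

theorem piece_FRP (hRTS : S_RTS) : S_FRP := by
  intro K _ _ L _ _ _ h b hh f G δ θ a g0 α β hf ha hfα hg0 hGβ hθ hdvd v hv w hw
  obtain ⟨g1, g2, g3⟩ := not_mem_SB h f hf v hv
  obtain ⟨c₁, α₀, ρ, hfar⟩ := good_far h hh f hf v w g3 g1 g2 a ha α hfα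
  have hsep : (f.map (algebraMap K L)).Separable := hf.1.map
  have hd2 : (X ^ 2 - C (θ ^ 2)) * G.map (algebraMap K L) ∣ f.map (algebraMap K L) := by
    have h1 := Polynomial.map_dvd (algebraMap K L) hdvd
    rw [hθ]
    simpa using h1
  obtain ⟨h1, h2, τ, hτ, hατ⟩ := hRTS L (2 * h + 2) b _ _ a g0 θ α β hsep ha hfα hg0 hGβ hd2
  refine ⟨α₀, ρ, hfar.r0, fun i j hij => ?_⟩
  have h3 := hfar.dist (τ i) (τ j) (fun e => hij (hτ e))
  rw [hατ, hατ] at h3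
  exact h3

end Pool.Agent.Lib.MP_ca2859_nt.CC
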