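import Mathlib
import Pool.Agent.Lib.MP_ca2859_nt.CC.Stm

/-!
# GSS: Gauss lemma for a product of primitive linear forms
-/

set_option autoImplicit false

open Polynomial WithZero IsDedekindDomain NumberField

namespace Pool.Agent.Lib.MP_ca2859_nt.CC

private theorem GSS_unit {F : Type} [Field F] (w : Valuation F ℤᵐ⁰) (a : w.valuationSubring) :
    IsUnit a ↔ w (a : F) = 1 := by
  have ha : w (a : F) ≤ 1 := a.2
  constructor
  · rintro ⟨u, hu⟩
    have h1 : (a : F) * ((u⁻¹ : (w.valuationSubring)ˣ) : w.valuationSubring) = 1 := by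
      rw [← hu]
      exact_mod_cast congrArg (fun t : w.valuationSubring => (t : F)) (u.mul_inv)
    have h2 := congrArg w h1
    rw [map_mul, map_one] at h2
    have h3 : w (((u⁻¹ : (w.valuationSubring)ˣ) : w.valuationSubring) : F) ≤ 1 :=
      ((u⁻¹ : (w.valuationSubring)ˣ) : w.valuationSubring).2
    refine le_antisymm ha ?_
    by_contra hlt
    push Not at hlt
    have h4 : w (a : F) * w (((u⁻¹ : (w.valuationSubring)ˣ) : w.valuationSubring) : F) < 1 :=
      mul_lt_one_of_lt_of_le hlt h3
    exact h4.ne h2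
  · intro h
    have h0 : (a : F) ≠ 0 := by
      intro h0
      rw [h0, map_zero] at h
      exact zero_ne_one h
    have hinv : w ((a : F)⁻¹) ≤ 1 := by
      rw [map_inv₀, h, inv_one]
    refine IsUnit.of_mul_eq_one ⟨(a : F)⁻¹, hinv⟩ ?_
    exact Subtype.ext (mul_inv_cancel₀ h0)

/-- GSS -/
theorem piece_GSS : S_GSS := by
  intro F _ w ι _ x z h
  classical
  -- lift the linear forms to the valuation ring
  have hx : ∀ i, w (x i) ≤ 1 := fun i => by rw [← h i]; exact le_max_left _ _
  have hz : ∀ i, w (z i) ≤ 1 := fun i => by rw [← h i]; exact le_max_right _ _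
  let O := w.valuationSubring
  let X' : ι → O := fun i => ⟨x i, hx i⟩
  let Z' : ι → O := fun i => ⟨z i, hz i⟩
  let P : O[X] := ∏ i, (C (Z' i) * X - C (X' i))
  have hP : P.map (algebraMap O F) = ∏ i, (C (z i) * X - C (x i)) := by
    simp only [P, Polynomial.map_prod, Polynomial.map_sub, Polynomial.map_mul, map_C, map_X]
    rfl
  have hres : P.map (IsLocalRing.residue O) ≠ 0 := by
    simp only [P, Polynomial.map_prod]
    rw [Finset.prod_ne_zero_iff]
    intro i _ h0
    have h1 : IsLocalRing.residue O (Z' i) = 0 := by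
      have := congrArg (fun Q => Polynomial.coeff Q 1) h0
      simpa using this
    have h2 : IsLocalRing.residue O (X' i) = 0 := by
      have := congrArg (fun Q => Polynomial.coeff Q 0) h0
      simpa using this
    have key : ∀ a : O, IsLocalRing.residue O a = 0 → w (a : F) < 1 := by
      intro a ha
      rw [IsLocalRing.residue_eq_zero_iff, IsLocalRing.mem_maximalIdeal, mem_nonunits_iff,
        GSS_unit] at ha
      exact lt_of_le_of_ne a.2 ha
    have h3 := key _ h1
    have h4 := key _ h2
    have h5 : max (w (x i)) (w (z i)) < 1 := max_lt h4 h3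
    exact absurd (h i) h5.ne
  obtain ⟨n, hn⟩ : ∃ n, (P.map (IsLocalRing.residue O)).coeff n ≠ 0 := by
    by_contra hcon
    push Not at hcon
    exact hres (Polynomial.ext fun n => by rw [hcon n, Polynomial.coeff_zero])
  refine ⟨n, ?_⟩
  rw [Polynomial.coeff_map, Ne, IsLocalRing.residue_eq_zero_iff, IsLocalRing.mem_maximalIdeal,
    mem_nonunits_iff, not_not, GSS_unit] at hn
  rw [← hP, Polynomial.coeff_map]
  exact hn

end Pool.Agent.Lib.MP_ca2859_nt.CC
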