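import Pool.Agent.Lib.MP_ca2859_nt.CC.Stm

/-!
# Cyclic covers, piece HYP
-/

set_option autoImplicit false

open Polynomial WithZero IsDedekindDomain NumberField
open Pool.Agent.Lib.MP_ca2859_nt Pool.Agent.Lib.MP_ca2859_nt.GR

namespace Pool.Agent.Lib.MP_ca2859_nt.CC

open Classical in
theorem HYP_deg {L : Type} [Field L] (z x : L) :
    (C z * X - C x : L[X]).natDegree = if z = 0 then 0 else 1 := by
  split_ifs with h
  · rw [h, C_0, zero_mul, zero_sub, natDegree_neg, natDegree_C]
  · rw [sub_eq_add_neg, ← C_neg]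
    exact natDegree_linear h

theorem HYP_sep {L : Type} [Field L] (z x : L) (h : z ≠ 0 ∨ x ≠ 0) :
    (C z * X - C x : L[X]).Separable := by
  have hd : derivative (C z * X - C x : L[X]) = C z := by simp
  show IsCoprime _ _
  rw [hd]
  by_cases hz : z = 0
  · have hx : x ≠ 0 := by tauto
    rw [hz, C_0, zero_mul, zero_sub]
    exact IsCoprime.neg_left (isCoprime_zero_right.2 (isUnit_C.2 (isUnit_iff_ne_zero.2 hx)))
  · refine ⟨0, C z⁻¹, ?_⟩
    rw [zero_mul, zero_add, ← C_mul, inv_mul_cancel₀ hz, C_1]

theorem HYP_cop {L : Type} [Field L] (z x z' x' : L) (h : x * z' - x' * z ≠ 0) :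
    IsCoprime (C z * X - C x : L[X]) (C z' * X - C x') := by
  refine ⟨C (-z' / (x * z' - x' * z)), C (z / (x * z' - x' * z)), ?_⟩
  have h1 : C (-z' / (x * z' - x' * z)) * (C z * X - C x) +
      C (z / (x * z' - x' * z)) * (C z' * X - C x') =
      C ((-z' * z + z * z') / (x * z' - x' * z)) * X + C ((x * z' - x' * z) / (x * z' - x' * z)) := by
    simp only [div_eq_mul_inv, C_mul, C_add, C_sub, C_neg]
    ring
  rw [h1, div_self h, C_1]
  have h2 : -z' * z + z * z' = 0 := by ring
  rw [h2, zero_div, C_0, zero_mul, zero_add]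

theorem piece_HYP : S_HYP := by
  intro K L _ _ _ g f ι _ u x z hcard hf
  classical
  have hne : ∀ i, z i ≠ 0 ∨ x i ≠ 0 := by
    intro i
    have h1 : 1 < Fintype.card ι := by omega
    obtain ⟨j, hj⟩ := Fintype.exists_ne_of_one_lt_card h1 i
    by_contra hcon
    push Not at hcon
    apply hf.ind i j (Ne.symm hj)
    simp [dt, hcon.1, hcon.2]
  have hfac0 : ∀ i, (C (z i) * X - C (x i) : L[X]) ≠ 0 := fun i => (HYP_sep _ _ (hne i)).ne_zero
  constructor
  · have h1 : (∏ i, (C (z i) * X - C (x i) : L[X])).Separable := by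
      refine separable_prod ?_ (fun i => HYP_sep _ _ (hne i))
      intro i j hij
      exact HYP_cop _ _ _ _ (hf.ind i j hij)
    have h2 : (f.map (algebraMap K L)).Separable := by
      rw [hf.fac]
      have h3 : IsUnit (C u) := isUnit_C.2 (isUnit_iff_ne_zero.2 hf.u0)
      exact (Associated.separable_iff ⟨h3.unit, by rw [IsUnit.unit_spec, mul_comm]⟩).1 h1
    exact (separable_map _).1 h2
  · have h1 : f.natDegree = ∑ i, (if z i = 0 then 0 else 1) := by
      rw [← natDegree_map (algebraMap K L), hf.fac, natDegree_C_mul hf.u0,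
        natDegree_prod _ _ (fun i _ => hfac0 i)]
      exact Finset.sum_congr rfl fun i _ => HYP_deg _ _
    by_cases h0 : ∃ i, z i = 0
    · obtain ⟨i0, hi0⟩ := h0
      left
      have h2 : ∀ i, (if z i = 0 then 0 else 1 : ℕ) = if i = i0 then 0 else 1 := by
        intro i
        by_cases hi : i = i0
        · rw [hi, hi0, if_pos rfl, if_pos rfl]
        · rw [if_neg hi, if_neg]
          intro hz
          apply hf.ind i i0 hi
          simp [dt, hz, hi0]
      rw [h1, Finset.sum_congr rfl fun i _ => h2 i]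
      have h3 : ∑ i, (if i = i0 then 0 else 1 : ℕ) = (Finset.univ.erase i0).card := by
        rw [Finset.card_eq_sum_ones, ← Finset.sum_erase Finset.univ (a := i0) (by simp)]
        exact Finset.sum_congr rfl fun i hi => if_neg (Finset.ne_of_mem_erase hi)
      rw [h3, Finset.card_erase_of_mem (Finset.mem_univ _), Finset.card_univ, hcard]
      omega
    · right
      push Not at h0
      rw [h1, Finset.sum_congr rfl fun i _ => if_neg (h0 i), Finset.sum_const, smul_eq_mul,
        mul_one, Finset.card_univ, hcard]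

end Pool.Agent.Lib.MP_ca2859_nt.CC
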