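import Pool.Agent.Lib.MP_ca2859_nt.CC.Stm

/-!
# VALC: cross ratios downstairs are bounded by those upstairs
-/

set_option autoImplicit false

open Polynomial WithZero IsDedekindDomain NumberField
open Pool.Agent.Lib.MP_ca2859_nt Pool.Agent.Lib.MP_ca2859_nt.GR

namespace Pool.Agent.Lib.MP_ca2859_nt.CC.VALC

variable {F : Type} [Field F]

theorem ord_neg (w : Valuation F ℤᵐ⁰) (x : F) : ord w (-x) = ord w x := by
  rw [ord, ord, Valuation.map_neg]

theorem ord_one (w : Valuation F ℤᵐ⁰) : ord w (1 : F) = 0 := by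
  rw [ord, map_one, log_one, neg_zero]

/-- ultrametric inequality -/
theorem ord_sub_ge (w : Valuation F ℤᵐ⁰) {x y : F} (hx : x ≠ 0) (hy : y ≠ 0) (hxy : x - y ≠ 0)
    {r : ℤ} (h1 : r ≤ ord w x) (h2 : r ≤ ord w y) : r ≤ ord w (x - y) := by
  have h3 : w (x - y) ≤ exp (-r) := by
    refine (Valuation.map_sub w x y).trans (max_le ?_ ?_)
    · rw [le_exp_iff hx]; linarith
    · rw [le_exp_iff hy]; linarith
  rw [le_exp_iff hxy] at h3
  linarith

theorem ord_sub_eq (w : Valuation F ℤᵐ⁰) {x y : F} (hx : x ≠ 0) (hy : y ≠ 0)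
    (h : ord w x < ord w y) : ord w (x - y) = ord w x := by
  have h1 : w y < w x := by
    rw [w_eq_exp hx, w_eq_exp hy, exp_lt_exp]; linarith
  rw [ord, ord, Valuation.map_sub_eq_of_lt_left w h1]

/-- cross ratio bound in terms of an additive function -/
theorem crB_of {ι : Type} (w : Valuation F ℤᵐ⁰) (D : ι → ι → F) (E : ι → ι → ℤ) (L : ι → ℤ)
    (c B : ℤ) (hD : ∀ i j, i ≠ j → D i j ≠ 0)
    (hE : ∀ i j, i ≠ j → ord w (D i j) = c + L i + L j + E i j)
    (h : ∀ i j k l : ι, i ≠ j → i ≠ k → i ≠ l → j ≠ k → j ≠ l → k ≠ l →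
      E i k + E j l ≤ E i j + E k l + B) : CrB w D B := by
  intro i j k l hij hik hil hjk hjl hkl
  rw [ord_mul (hD i k hik) (hD j l hjl), ord_mul (hD i j hij) (hD k l hkl), hE i k hik,
    hE j l hjl, hE i j hij, hE k l hkl]
  have := h i j k l hij hik hil hjk hjl hkl
  linarith

/-- the function `E` downstairs -/
def Ep {b : ℕ} (n : Fin b → ℤ) (N : Fin b → Fin b → ℤ) : Fin b ⊕ Fin 2 → Fin b ⊕ Fin 2 → ℤ
  | Sum.inl i, Sum.inl j => N i j
  | Sum.inl i, Sum.inr q => if (q : ℕ) = 0 then n i else 0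
  | Sum.inr q, Sum.inl i => if (q : ℕ) = 0 then n i else 0
  | Sum.inr _, Sum.inr _ => 0

/-- the scaling downstairs -/
def Lp {b : ℕ} (l : Fin b → ℤ) (t : ℤ) : Fin b ⊕ Fin 2 → ℤ
  | Sum.inl i => l i
  | Sum.inr _ => t

theorem fin2_cases (q : Fin 2) : (q : ℕ) = 0 ∨ (q : ℕ) = 1 := by omega

section
variable [CharZero F] {b k : ℕ} {θ c d ζ : F} {β ω : Fin b → F}

/-- `ν j = (β j - θ)/(β j + θ)` -/
def nu (θ : F) (β : Fin b → F) (j : Fin b) : F := (β j - θ) / (β j + θ)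

theorem nu_ne (h : Cov k θ c d ζ β ω) (j : Fin b) : nu θ β j ≠ 0 :=
  div_ne_zero (h.bm j) (h.bp j)

theorem nu_sub (h : Cov k θ c d ζ β ω) (i j : Fin b) :
    (β i - β j) * (2 * θ) = (β i + θ) * (β j + θ) * (nu θ β i - nu θ β j) := by
  have h1 := h.bp i
  have h2 := h.bp j
  unfold nu
  field_simp
  ring

theorem nu_sub_ne (h : Cov k θ c d ζ β ω) {i j : Fin b} (hij : i ≠ j) :
    nu θ β i - nu θ β j ≠ 0 := by
  intro h0
  have h1 := nu_sub h i j
  rw [h0, mul_zero] at h1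
  have h2 : (2 : F) * θ ≠ 0 := mul_ne_zero two_ne_zero h.th
  have h3 : β i - β j = 0 := (mul_eq_zero.mp h1).resolve_right h2
  exact hij (h.inj (sub_eq_zero.mp h3))

theorem beta_sub_ne (h : Cov k θ c d ζ β ω) {i j : Fin b} (hij : i ≠ j) : β i - β j ≠ 0 :=
  sub_ne_zero.mpr fun h1 => hij (h.inj h1)

theorem two_th (h : Cov k θ c d ζ β ω) : (2 : F) * θ ≠ 0 := mul_ne_zero two_ne_zero h.th

/-- `s = ((c - dθ)/(c + dθ))^k` -/
def ss (k : ℕ) (θ c d : F) : F := ((c - d * θ) / (c + d * θ)) ^ k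

theorem ss_ne (h : Cov k θ c d ζ β ω) : ss k θ c d ≠ 0 :=
  pow_ne_zero _ (div_ne_zero h.cm h.cp)

theorem om_pow (h : Cov k θ c d ζ β ω) (j : Fin b) :
    ω j ^ (k + 1) = nu θ β j * ss k θ c d := by
  have h1 := h.om j
  have h2 := h.bp j
  have h3 := pow_ne_zero k h.cp
  rw [nu, ss, div_pow, div_mul_div_comm, eq_div_iff (mul_ne_zero h2 h3)]
  exact h1

theorem om_ne (h : Cov k θ c d ζ β ω) (j : Fin b) : ω j ≠ 0 := by
  intro h0
  have h1 := om_pow h j
  rw [h0, zero_pow (Nat.succ_ne_zero k)] at h1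
  exact mul_ne_zero (nu_ne h j) (ss_ne h) h1.symm

theorem zeta_pow (h : Cov k θ c d ζ β ω) : ζ ^ (k + 1) = 1 := h.pr.pow_eq_one

theorem zeta_ne (h : Cov k θ c d ζ β ω) : ζ ≠ 0 := h.pr.ne_zero (Nat.succ_ne_zero k)

theorem zom_pow (h : Cov k θ c d ζ β ω) (a : ℕ) (j : Fin b) :
    (ζ ^ a * ω j) ^ (k + 1) = ω j ^ (k + 1) := by
  rw [mul_pow, ← pow_mul, mul_comm a, pow_mul, zeta_pow h, one_pow, one_mul]

theorem om_sub_ne (h : Cov k θ c d ζ β ω) {i j : Fin b} (hij : i ≠ j) (a : ℕ) :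
    ω i - ζ ^ a * ω j ≠ 0 := by
  intro h0
  have h1 : ω i ^ (k + 1) = ω j ^ (k + 1) := by
    rw [sub_eq_zero.mp h0, zom_pow h]
  rw [om_pow h, om_pow h] at h1
  exact nu_sub_ne h hij (sub_eq_zero.mpr (mul_right_cancel₀ (ss_ne h) h1))

/-- downstairs, the hypotheses of `crB_of` -/
theorem down (h : Cov k θ c d ζ β ω) (w : Valuation F ℤᵐ⁰) (B : ℤ)
    (hB : ∀ i j k l : Fin b ⊕ Fin 2, i ≠ j → i ≠ k → i ≠ l → j ≠ k → j ≠ l → k ≠ l →
      Ep (fun i => ord w (nu θ β i)) (fun i j => ord w (nu θ β i - nu θ β j)) i k +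
      Ep (fun i => ord w (nu θ β i)) (fun i j => ord w (nu θ β i - nu θ β j)) j l ≤
      Ep (fun i => ord w (nu θ β i)) (fun i j => ord w (nu θ β i - nu θ β j)) i j +
      Ep (fun i => ord w (nu θ β i)) (fun i j => ord w (nu θ β i - nu θ β j)) k l + B) :
    CrB w (fun i j => pts θ β i - pts θ β j) B := by
  have h2 := two_th h
  have hn : ∀ i, ord w (β i - θ) = ord w (β i + θ) + ord w (nu θ β i) := by
    intro i
    rw [nu, ord_div (h.bm i) (h.bp i)]
    ring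
  refine crB_of w _ _ (Lp (fun i => ord w (β i + θ)) (ord w (2 * θ))) (-(ord w (2 * θ))) B ?_ ?_ hB
  · rintro (i | q) (j | q') hij
    · simp only [pts]
      exact beta_sub_ne h fun h0 => hij (by rw [h0])
    · simp only [pts]
      split_ifs with h0
      · exact h.bm i
      · rw [sub_neg_eq_add]; exact h.bp i
    · simp only [pts]
      split_ifs with h0
      · rw [← neg_sub]; exact neg_ne_zero.mpr (h.bm j)
      · rw [show -θ - β j = -(β j + θ) by ring]; exact neg_ne_zero.mpr (h.bp j)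
    · simp only [pts]
      have hq : (q : ℕ) ≠ (q' : ℕ) := fun h0 => hij (by rw [Fin.ext h0])
      rcases fin2_cases q with h0 | h0 <;> rcases fin2_cases q' with h0' | h0'
      · exact absurd (h0.trans h0'.symm) hq
      · rw [if_pos h0, if_neg (by omega), show θ - -θ = 2 * θ by ring]; exact h2
      · rw [if_neg (by omega), if_pos h0', show -θ - θ = -(2 * θ) by ring]
        exact neg_ne_zero.mpr h2
      · exact absurd (h0.trans h0'.symm) hq
  · rintro (i | q) (j | q') hij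
    · simp only [pts, Lp, Ep]
      have hij' : i ≠ j := fun h0 => hij (by rw [h0])
      have h3 := congrArg (ord w) (nu_sub h i j)
      rw [ord_mul (beta_sub_ne h hij') h2, ord_mul (mul_ne_zero (h.bp i) (h.bp j))
        (nu_sub_ne h hij'), ord_mul (h.bp i) (h.bp j)] at h3
      linarith
    · simp only [pts, Lp, Ep]
      split_ifs with h0
      · rw [hn]; ring
      · rw [sub_neg_eq_add]; ring
    · simp only [pts, Lp, Ep]
      split_ifs with h0
      · rw [show θ - β j = -(β j - θ) by ring, ord_neg, hn]; ring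
      · rw [show -θ - β j = -(β j + θ) by ring, ord_neg]; ring
    · simp only [pts, Lp, Ep]
      have hq : (q : ℕ) ≠ (q' : ℕ) := fun h0 => hij (by rw [Fin.ext h0])
      rcases fin2_cases q with h0 | h0 <;> rcases fin2_cases q' with h0' | h0'
      · exact absurd (h0.trans h0'.symm) hq
      · rw [if_pos h0, if_neg (by omega), show θ - -θ = 2 * θ by ring]; ring
      · rw [if_neg (by omega), if_pos h0', show -θ - θ = -(2 * θ) by ring, ord_neg]; ring
      · exact absurd (h0.trans h0'.symm) hq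

/-- combinatorial part of case (b) -/
theorem comb (r M : ℤ) (hM : 0 ≤ M) (n : Fin b → ℤ) (N : Fin b → Fin b → ℤ)
    (h1 : ∀ i, r ≤ n i ∧ n i ≤ r + M) (h2 : ∀ i j, i ≠ j → r ≤ N i j ∧ N i j ≤ r + M)
    (i j k l : Fin b ⊕ Fin 2) (hij : i ≠ j) (hik : i ≠ k) (hil : i ≠ l) (hjk : j ≠ k)
    (hjl : j ≠ l) (hkl : k ≠ l) :
    Ep n N i k + Ep n N j l ≤ Ep n N i j + Ep n N k l + 2 * M := by
  have key : ∀ x y : Fin b ⊕ Fin 2, x ≠ y →
      (x ≠ Sum.inr 1 → y ≠ Sum.inr 1 → (r ≤ Ep n N x y ∧ Ep n N x y ≤ r + M)) ∧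
      ((x = Sum.inr 1 ∨ y = Sum.inr 1) → Ep n N x y = 0) := by
    rintro (x | x) (y | y) hxy
    · refine ⟨fun _ _ => ?_, fun h => ?_⟩
      · simp only [Ep]; exact h2 x y fun h0 => hxy (by rw [h0])
      · rcases h with h | h <;> simp at h
    · refine ⟨fun _ h => ?_, fun h => ?_⟩
      · have h0 : (y : ℕ) = 0 := by
          rcases fin2_cases y with h0 | h0
          · exact h0
          · exact absurd (congrArg Sum.inr (Fin.ext h0)) h
        simp only [Ep, if_pos h0]; exact h1 x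
      · rcases h with h | h
        · simp at h
        · rw [h]; simp [Ep]
    · refine ⟨fun h _ => ?_, fun h => ?_⟩
      · have h0 : (x : ℕ) = 0 := by
          rcases fin2_cases x with h0 | h0
          · exact h0
          · exact absurd (congrArg Sum.inr (Fin.ext h0)) h
        simp only [Ep, if_pos h0]; exact h1 y
      · rcases h with h | h
        · rw [h]; simp [Ep]
        · simp at h
    · refine ⟨fun h h' => ?_, fun _ => rfl⟩
      have h0 : (x : ℕ) = 0 := by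
        rcases fin2_cases x with h0 | h0
        · exact h0
        · exact absurd (congrArg Sum.inr (Fin.ext h0)) h
      have h0' : (y : ℕ) = 0 := by
        rcases fin2_cases y with h0' | h0'
        · exact h0'
        · exact absurd (congrArg Sum.inr (Fin.ext h0')) h'
      exact absurd (by rw [Fin.ext (h0.trans h0'.symm)]) hxy
  by_cases ei : i = Sum.inr 1
  · have a1 := (key i k hik).2 (Or.inl ei)
    have a2 := (key i j hij).2 (Or.inl ei)
    have a3 := (key j l hjl).1 (fun h => hij (ei.trans h.symm)) (fun h => hil (ei.trans h.symm))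
    have a4 := (key k l hkl).1 (fun h => hik (ei.trans h.symm)) (fun h => hil (ei.trans h.symm))
    linarith [a3.2, a4.1]
  by_cases ej : j = Sum.inr 1
  · have a1 := (key j l hjl).2 (Or.inl ej)
    have a2 := (key i j hij).2 (Or.inr ej)
    have a3 := (key i k hik).1 ei (fun h => hjk (ej.trans h.symm))
    have a4 := (key k l hkl).1 (fun h => hjk (ej.trans h.symm)) (fun h => hjl (ej.trans h.symm))
    linarith [a3.2, a4.1]
  by_cases ek : k = Sum.inr 1
  · have a1 := (key i k hik).2 (Or.inr ek)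
    have a2 := (key k l hkl).2 (Or.inl ek)
    have a3 := (key j l hjl).1 ej (fun h => hkl (ek.trans h.symm))
    have a4 := (key i j hij).1 ei ej
    linarith [a3.2, a4.1]
  by_cases el : l = Sum.inr 1
  · have a1 := (key j l hjl).2 (Or.inr el)
    have a2 := (key k l hkl).2 (Or.inr el)
    have a3 := (key i k hik).1 ei ek
    have a4 := (key i j hij).1 ei ej
    linarith [a3.2, a4.1]
  have a1 := (key i k hik).1 ei ek
  have a2 := (key j l hjl).1 ej el
  have a3 := (key i j hij).1 ei ej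
  have a4 := (key k l hkl).1 ek el
  linarith [a1.2, a2.2, a3.1, a4.1]

/-- the root of unity of the index after `a` -/
theorem zeta_next (h : Cov k θ c d ζ β ω) (a : Fin (k + 1)) :
    ζ ^ ((a + 1 : Fin (k + 1)) : ℕ) = ζ * ζ ^ (a : ℕ) := by
  rw [Fin.val_add]
  have h1 : ∀ n : ℕ, ζ ^ (n % (k + 1)) = ζ ^ n := by
    intro n
    conv_rhs => rw [← Nat.mod_add_div n (k + 1), pow_add, pow_mul, zeta_pow h, one_pow, mul_one]
  rw [h1, pow_add]
  rcases Nat.eq_zero_or_pos k with hk | hk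
  · subst hk
    have hz : ζ = 1 := by have := zeta_pow h; simpa using this
    simp [hz]
  · have : ((1 : Fin (k + 1)) : ℕ) = 1 := by
      rw [Fin.val_one']
      exact Nat.mod_eq_of_lt (by omega)
    rw [this, pow_one, mul_comm]

theorem ord_zeta (h : Cov k θ c d ζ β ω) (w : Valuation F ℤᵐ⁰) : ord w ζ = 0 := by
  have h1 := congrArg (ord w) (zeta_pow h)
  rw [ord_pow, ord_one] at h1
  rcases mul_eq_zero.mp h1 with h2 | h2
  · exact absurd h2 (by positivity)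
  · exact h2

theorem w_zeta (h : Cov k θ c d ζ β ω) (w : Valuation F ℤᵐ⁰) : w ζ = 1 := by
  rw [w_eq_exp (zeta_ne h), ord_zeta h, neg_zero, exp_zero]

theorem w_one_sub (h : Cov k θ c d ζ β ω) (w : Valuation F ℤᵐ⁰) (a : ℕ) :
    w (1 - ζ ^ a) ≤ 1 := by
  refine (Valuation.map_sub w _ _).trans (max_le ?_ ?_)
  · rw [map_one]
  · rw [map_pow, w_zeta h, one_pow]

theorem one_sub_ne (h : Cov k θ c d ζ β ω) (hk : 1 ≤ k) : 1 - ζ ≠ 0 := by
  intro h0
  have h1 : ζ ^ 1 = 1 := by rw [pow_one]; exact (sub_eq_zero.mp h0).symm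
  have h2 := (h.pr.pow_eq_one_iff_dvd 1).mp h1
  have := Nat.le_of_dvd one_pos h2
  omega

theorem ord_one_sub (h : Cov k θ c d ζ β ω) (hk : 1 ≤ k) (w : Valuation F ℤᵐ⁰) :
    0 ≤ ord w (1 - ζ) ∧ ord w (1 - ζ) ≤ ord w ((k + 1 : ℕ) : F) := by
  have h0 : 0 ≤ ord w (1 - ζ) := by
    have := w_one_sub h w 1
    rw [pow_one] at this
    exact ord_nonneg this
  refine ⟨h0, ?_⟩
  have h1 := h.pr.prod_one_sub_pow_eq_order
  obtain ⟨k', rfl⟩ : ∃ k', k = k' + 1 := ⟨k - 1, by omega⟩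
  rw [Finset.prod_range_succ'] at h1
  have h2 : (((k' + 1 + 1 : ℕ) : ℕ) : F) = (k' + 1 : ℕ) + 1 := by push_cast; ring
  rw [h2, ← h1]
  simp only [zero_add, pow_one]
  have h3 : (((k' + 1 : ℕ) : F) + 1) ≠ 0 := by
    rw [← h2, Nat.cast_ne_zero]; omega
  have h4 : ∏ i ∈ Finset.range k', (1 - ζ ^ (i + 1 + 1)) ≠ 0 := by
    intro h5
    rw [h5, zero_mul] at h1
    exact h3 h1.symm
  rw [ord_mul h4 (one_sub_ne h hk)]
  have h5 : 0 ≤ ord w (∏ i ∈ Finset.range k', (1 - ζ ^ (i + 1 + 1))) := by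
    apply ord_nonneg
    rw [map_prod]
    exact Finset.prod_le_one' fun i _ => w_one_sub h w _
  linarith

/-- `ω i ^ m - ω j ^ m = ∏ (ω i - ζ^a ω j)` -/
theorem prod_om (h : Cov k θ c d ζ β ω) (i j : Fin b) :
    ω i ^ (k + 1) - ω j ^ (k + 1) = ∏ a ∈ Finset.range (k + 1), (ω i - ζ ^ a * ω j) := by
  have h1 := X_pow_sub_C_eq_prod h.pr (Nat.succ_pos k) (rfl : ω j ^ (k + 1) = ω j ^ (k + 1))
  have h2 := congrArg (Polynomial.eval (ω i)) h1
  rw [eval_sub, eval_pow, eval_X, eval_C, eval_prod] at h2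
  rw [h2]
  refine Finset.prod_congr rfl fun a _ => ?_
  rw [eval_sub, eval_X, eval_C]

theorem ord_prod {ι : Type} (w : Valuation F ℤᵐ⁰) (s : Finset ι) (f : ι → F)
    (hf : ∀ i ∈ s, f i ≠ 0) : ord w (∏ i ∈ s, f i) = ∑ i ∈ s, ord w (f i) := by
  classical
  induction s using Finset.induction_on with
  | empty => simp [ord_one]
  | insert a s ha ih =>
    have h1 : ∀ i ∈ s, f i ≠ 0 := fun i hi => hf i (Finset.mem_insert_of_mem hi)
    rw [Finset.prod_insert ha, Finset.sum_insert ha, ord_mul (hf a (Finset.mem_insert_self a s))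
      (Finset.prod_ne_zero_iff.mpr h1), ih h1]

theorem ord_nu_sub (h : Cov k θ c d ζ β ω) (w : Valuation F ℤᵐ⁰) {i j : Fin b} (hij : i ≠ j) :
    ord w (nu θ β i - nu θ β j) + ord w (ss k θ c d) =
      ∑ a ∈ Finset.range (k + 1), ord w (ω i - ζ ^ a * ω j) := by
  have h1 : (nu θ β i - nu θ β j) * ss k θ c d = ω i ^ (k + 1) - ω j ^ (k + 1) := by
    rw [om_pow h, om_pow h]; ring
  rw [← ord_prod w _ _ (fun a _ => om_sub_ne h hij a), ← prod_om h, ← h1,
    ord_mul (nu_sub_ne h hij) (ss_ne h)]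

theorem ord_nu (h : Cov k θ c d ζ β ω) (w : Valuation F ℤᵐ⁰) (i : Fin b) :
    ord w (nu θ β i) + ord w (ss k θ c d) = (k + 1) * ord w (ω i) := by
  have h1 := congrArg (ord w) (om_pow h i)
  rw [ord_pow, ord_mul (nu_ne h i) (ss_ne h)] at h1
  push_cast at h1
  linarith

section up
variable {ε : ℕ}

theorem dt_same (h : Cov k θ c d ζ β ω) (i : Fin b) (a : Fin (k + 1)) :
    dt (xx (b := b) (k := k) (ε := ε) θ ζ ω) (zz (b := b) (k := k) (ε := ε) ζ ω)
      (Sum.inl (i, a)) (Sum.inl (i, a + 1)) = 2 * θ * (ζ ^ (a : ℕ) * (ω i * (1 - ζ))) := by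
  rw [dt_inl_inl]
  simp only [zeta_next h]
  ring

theorem dt_zero (i j : Fin b) (a : Fin (k + 1)) :
    dt (xx (b := b) (k := k) (ε := ε) θ ζ ω) (zz (b := b) (k := k) (ε := ε) ζ ω)
      (Sum.inl (i, 0)) (Sum.inl (j, a)) = 2 * θ * (ω i - ζ ^ (a : ℕ) * ω j) := by
  rw [dt_inl_inl]
  simp

theorem dt_one (h : Cov k θ c d ζ β ω) (i j : Fin b) (a : Fin (k + 1)) :
    dt (xx (b := b) (k := k) (ε := ε) θ ζ ω) (zz (b := b) (k := k) (ε := ε) ζ ω)
      (Sum.inl (i, 0 + 1)) (Sum.inl (j, a + 1)) = 2 * θ * (ζ * (ω i - ζ ^ (a : ℕ) * ω j)) := by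
  rw [dt_inl_inl]
  simp only [zeta_next h, Fin.val_zero, pow_zero]
  ring

theorem ne_next (hk : 1 ≤ k) (a : Fin (k + 1)) : a ≠ a + 1 := by
  intro h0
  have h1 : (1 : Fin (k + 1)) = 0 := by
    have := add_eq_left.mp h0.symm
    exact this
  rw [Fin.one_eq_zero_iff] at h1
  omega

/-- the two inequalities from the points `ω i, ζ ω i, ζ^a ω j, ζ^(a+1) ω j` -/
theorem two_ineq (h : Cov k θ c d ζ β ω) (hk : 1 ≤ k) (w : Valuation F ℤᵐ⁰) {B : ℤ}
    (H : CrB w (dt (xx (b := b) (k := k) (ε := ε) θ ζ ω) (zz (b := b) (k := k) (ε := ε) ζ ω)) B)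
    {i j : Fin b} (hij : i ≠ j) (a : Fin (k + 1)) :
    2 * ord w (ω i - ζ ^ (a : ℕ) * ω j) ≤
      ord w (ω i) + ord w (ω j) + 2 * ord w (1 - ζ) + B ∧
    ord w (ω i) + ord w (ω j) + 2 * ord w (1 - ζ) ≤
      2 * ord w (ω i - ζ ^ (a : ℕ) * ω j) + B := by
  have hne : ∀ (x y : Fin (k + 1)), (Sum.inl (i, x) : Ix b k ε) ≠ Sum.inl (j, y) := by
    intro x y h0
    exact hij (Prod.ext_iff.mp (Sum.inl_injective h0)).1
  have hn2 : ∀ (i' : Fin b) (x : Fin (k + 1)),
      (Sum.inl (i', x) : Ix b k ε) ≠ Sum.inl (i', x + 1) := by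
    intro i' x h0
    exact ne_next hk x (Prod.ext_iff.mp (Sum.inl_injective h0)).2
  have e1 := H (Sum.inl (i, 0)) (Sum.inl (i, 0 + 1)) (Sum.inl (j, a)) (Sum.inl (j, a + 1))
    (hn2 i 0) (hne _ _) (hne _ _) (hne _ _) (hne _ _) (hn2 j a)
  have e2 := H (Sum.inl (i, 0)) (Sum.inl (j, a)) (Sum.inl (i, 0 + 1)) (Sum.inl (j, a + 1))
    (hne _ _) (hn2 i 0) (hne _ _) (hne _ _).symm (hn2 j a) (hne _ _)
  have hz := zeta_ne h
  have hza : ζ ^ (a : ℕ) ≠ 0 := pow_ne_zero _ hz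
  have h2 := two_th h
  have h1 := one_sub_ne h hk
  have hX := om_sub_ne h hij (a : ℕ)
  have oz : ord w (ζ ^ (a : ℕ)) = 0 := by rw [ord_pow, ord_zeta h, mul_zero]
  have a1 : ord w (dt (xx (b := b) (k := k) (ε := ε) θ ζ ω) (zz (b := b) (k := k) (ε := ε) ζ ω)
      (Sum.inl (i, 0)) (Sum.inl (j, a)) * dt (xx (b := b) (k := k) (ε := ε) θ ζ ω)
      (zz (b := b) (k := k) (ε := ε) ζ ω) (Sum.inl (i, 0 + 1)) (Sum.inl (j, a + 1))) =
      2 * ord w (2 * θ) + 2 * ord w (ω i - ζ ^ (a : ℕ) * ω j) := by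
    rw [dt_zero, dt_one h, ord_mul (mul_ne_zero h2 hX) (mul_ne_zero h2 (mul_ne_zero hz hX)),
      ord_mul h2 hX, ord_mul h2 (mul_ne_zero hz hX), ord_mul hz hX, ord_zeta h]
    ring
  have a2 : ord w (dt (xx (b := b) (k := k) (ε := ε) θ ζ ω) (zz (b := b) (k := k) (ε := ε) ζ ω)
      (Sum.inl (i, 0)) (Sum.inl (i, 0 + 1)) * dt (xx (b := b) (k := k) (ε := ε) θ ζ ω)
      (zz (b := b) (k := k) (ε := ε) ζ ω) (Sum.inl (j, a)) (Sum.inl (j, a + 1))) =
      2 * ord w (2 * θ) + (ord w (ω i) + ord w (ω j) + 2 * ord w (1 - ζ)) := by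
    rw [dt_same h, dt_same h]
    have b1 : ∀ i' : Fin b, ω i' * (1 - ζ) ≠ 0 := fun i' => mul_ne_zero (om_ne h i') h1
    have hz0 : ζ ^ ((0 : Fin (k + 1)) : ℕ) = 1 := by simp
    rw [hz0, one_mul, ord_mul (mul_ne_zero h2 (b1 i)) (mul_ne_zero h2 (mul_ne_zero hza (b1 j))),
      ord_mul h2 (b1 i), ord_mul h2 (mul_ne_zero hza (b1 j)), ord_mul hza (b1 j),
      ord_mul (om_ne h i) h1, ord_mul (om_ne h j) h1, oz]
    ring
  rw [a1, a2] at e1
  rw [a1, a2] at e2
  constructor <;> linarith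

/-- case (b) -/
theorem case_b (h : Cov k θ c d ζ β ω) (hk : 1 ≤ k) (w : Valuation F ℤᵐ⁰) {B : ℤ} (hB : 0 ≤ B)
    (H : CrB w (dt (xx (b := b) (k := k) (ε := ε) θ ζ ω) (zz (b := b) (k := k) (ε := ε) ζ ω)) B) :
    CrB w (fun i j => pts θ β i - pts θ β j) (8 * (k + 1) * (B + ord w ((k + 1 : ℕ) : F))) := by
  obtain ⟨u0, u1⟩ := ord_one_sub h hk w
  have hk0 : (0 : ℤ) ≤ (k : ℤ) + 1 := by positivity
  have hm0 : (0 : ℤ) ≤ ((k : ℤ) + 1) * B := mul_nonneg hk0 hB
  have hmm : (0 : ℤ) ≤ ((k : ℤ) + 1) * ord w ((k + 1 : ℕ) : F) :=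
    mul_nonneg hk0 (u0.trans u1)
  have hmu : ((k : ℤ) + 1) * ord w (1 - ζ) ≤ ((k : ℤ) + 1) * ord w ((k + 1 : ℕ) : F) :=
    mul_le_mul_of_nonneg_left u1 hk0
  have hmu0 : 0 ≤ ((k : ℤ) + 1) * ord w (1 - ζ) := mul_nonneg hk0 u0
  rcases Nat.eq_zero_or_pos b with hb | hb
  · subst hb
    intro i j k' l hij hik hil hjk hjl hkl
    exfalso
    have h3 : ({i, j, k'} : Finset (Fin 0 ⊕ Fin 2)).card = 3 := by
      rw [Finset.card_insert_of_notMem, Finset.card_insert_of_notMem, Finset.card_singleton]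
      · simpa using hjk
      · simp [hij, hik]
    have h4 : ({i, j, k'} : Finset (Fin 0 ⊕ Fin 2)).card ≤ Fintype.card (Fin 0 ⊕ Fin 2) :=
      Finset.card_le_univ _
    rw [h3] at h4
    simp at h4
  have hdiff : ∀ i j : Fin b, ord w (ω j) ≤ ord w (ω i) + B := by
    intro i j
    rcases eq_or_ne i j with rfl | hij
    · linarith
    by_contra hlt
    push Not at hlt
    have h1 := (two_ineq h hk w H hij 0).2
    simp only [Fin.val_zero, pow_zero, one_mul] at h1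
    rw [ord_sub_eq w (om_ne h i) (om_ne h j) (by linarith)] at h1
    linarith
  have hn := ord_nu h w
  have hndiff : ∀ i j : Fin b, ord w (nu θ β j) ≤ ord w (nu θ β i) + ((k : ℤ) + 1) * B := by
    intro i j
    have h1 := mul_le_mul_of_nonneg_left (hdiff i j) hk0
    have h2 := hn i
    have h3 := hn j
    linarith
  have hN : ∀ i j : Fin b, i ≠ j → 2 * ord w (nu θ β i - nu θ β j) ≤
      ord w (nu θ β i) + ord w (nu θ β j) + 2 * (((k : ℤ) + 1) * ord w (1 - ζ)) +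
        ((k : ℤ) + 1) * B := by
    intro i j hij
    have h1 := ord_nu_sub h w hij
    have h2 : ∑ a ∈ Finset.range (k + 1), 2 * ord w (ω i - ζ ^ a * ω j) ≤
        ∑ _a ∈ Finset.range (k + 1), (ord w (ω i) + ord w (ω j) + 2 * ord w (1 - ζ) + B) := by
      refine Finset.sum_le_sum fun a ha => ?_
      exact (two_ineq h hk w H hij ⟨a, Finset.mem_range.mp ha⟩).1
    rw [Finset.sum_const, Finset.card_range, nsmul_eq_mul, ← Finset.mul_sum, ← h1] at h2
    push_cast at h2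
    have h3 := hn i
    have h4 := hn j
    nlinarith [h2, h3, h4]
  set M : ℤ := 3 * (((k : ℤ) + 1) * B) + ((k : ℤ) + 1) * ord w ((k + 1 : ℕ) : F) with hM
  have hM0 : 0 ≤ M := by rw [hM]; linarith
  set i0 : Fin b := ⟨0, hb⟩
  set r : ℤ := ord w (nu θ β i0) - ((k : ℤ) + 1) * B with hr
  have q1 : ∀ i, r ≤ ord w (nu θ β i) ∧ ord w (nu θ β i) ≤ r + M := by
    intro i
    have := hndiff i i0
    have := hndiff i0 i
    constructor <;> linarith
  have q2 : ∀ i j, i ≠ j → r ≤ ord w (nu θ β i - nu θ β j) ∧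
      ord w (nu θ β i - nu θ β j) ≤ r + M := by
    intro i j hij
    refine ⟨ord_sub_ge w (nu_ne h i) (nu_ne h j) (nu_sub_ne h hij) (q1 i).1 (q1 j).1, ?_⟩
    have := hN i j hij
    have := hndiff i0 i
    have := hndiff i0 j
    linarith
  refine down h w _ ?_
  intro i j k' l hij hik hil hjk hjl hkl
  have h1 := comb r M hM0 (fun i => ord w (nu θ β i)) (fun i j => ord w (nu θ β i - nu θ β j))
    q1 q2 i j k' l hij hik hil hjk hjl hkl
  have h2 : 2 * M ≤ 8 * ((k : ℤ) + 1) * (B + ord w ((k + 1 : ℕ) : F)) := by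
    rw [hM]
    have : 8 * ((k : ℤ) + 1) * (B + ord w ((k + 1 : ℕ) : F)) =
      8 * (((k : ℤ) + 1) * B) + 8 * (((k : ℤ) + 1) * ord w ((k + 1 : ℕ) : F)) := by ring
    rw [this]
    linarith
  linarith

end up

/-- the index map in case (a) -/
def fa {b : ℕ} : Fin b ⊕ Fin 2 → Ix b 0 1 := Sum.map (fun i => (i, 0)) id

theorem fa_inj {b : ℕ} : Function.Injective (fa (b := b)) := by
  refine Function.Injective.sumMap (fun i j h => ?_) Function.injective_id
  exact (Prod.ext_iff.mp h).1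

theorem zeta_a (h : Cov 0 θ c d ζ β ω) : ζ = 1 := by
  have h1 := zeta_pow h
  simpa using h1

theorem om_a (h : Cov 0 θ c d ζ β ω) (j : Fin b) : ω j = nu θ β j := by
  have h1 := om_pow h j
  simpa [ss] using h1

theorem up_a (h : Cov 0 θ c d ζ β ω) (w : Valuation F ℤᵐ⁰) (x y : Fin b ⊕ Fin 2) (hxy : x ≠ y) :
    dt (xx (b := b) (k := 0) (ε := 1) θ ζ ω) (zz (b := b) (k := 0) (ε := 1) ζ ω) (fa x) (fa y) ≠ 0
    ∧ ord w (dt (xx (b := b) (k := 0) (ε := 1) θ ζ ω) (zz (b := b) (k := 0) (ε := 1) ζ ω)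
      (fa x) (fa y)) = ord w (2 * θ) +
        Ep (fun i => ord w (nu θ β i)) (fun i j => ord w (nu θ β i - nu θ β j)) x y := by
  have h2 := two_th h
  have hz := zeta_a h
  have aux : ∀ (i : Fin b) (q : Fin 2),
      dt (xx (b := b) (k := 0) (ε := 1) θ ζ ω) (zz (b := b) (k := 0) (ε := 1) ζ ω)
      (fa (Sum.inl i)) (fa (Sum.inr q)) ≠ 0 ∧
      ord w (dt (xx (b := b) (k := 0) (ε := 1) θ ζ ω) (zz (b := b) (k := 0) (ε := 1) ζ ω)
      (fa (Sum.inl i)) (fa (Sum.inr q))) =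
      ord w (2 * θ) + (if (q : ℕ) = 0 then ord w (nu θ β i) else 0) := by
    intro i q
    rcases fin2_cases q with h0 | h0
    · have e : dt (xx (b := b) (k := 0) (ε := 1) θ ζ ω) (zz (b := b) (k := 0) (ε := 1) ζ ω)
          (fa (Sum.inl i)) (fa (Sum.inr q)) = 2 * θ * nu θ β i := by
        have := dt_inl_zero (k := 0) (ε := 1) θ ζ ω (i, 0) q h0
        rw [hz, one_pow, one_mul, om_a h] at this
        rw [hz]
        exact this
      rw [e, if_pos h0, ord_mul h2 (nu_ne h i)]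
      exact ⟨mul_ne_zero h2 (nu_ne h i), rfl⟩
    · have e : dt (xx (b := b) (k := 0) (ε := 1) θ ζ ω) (zz (b := b) (k := 0) (ε := 1) ζ ω)
          (fa (Sum.inl i)) (fa (Sum.inr q)) = 2 * θ :=
        dt_inl_one (k := 0) (ε := 1) θ ζ ω (i, 0) q (by omega)
      rw [e, if_neg (by omega), add_zero]
      exact ⟨h2, rfl⟩
  rcases x with i | q <;> rcases y with j | q'
  · have hij : i ≠ j := fun h0 => hxy (by rw [h0])
    have e : dt (xx (b := b) (k := 0) (ε := 1) θ ζ ω) (zz (b := b) (k := 0) (ε := 1) ζ ω)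
        (fa (Sum.inl i)) (fa (Sum.inl j)) = 2 * θ * (nu θ β i - nu θ β j) := by
      have := dt_inl_inl (k := 0) (ε := 1) θ ζ ω (i, 0) (j, 0)
      simp only [Fin.val_zero, pow_zero, one_mul] at this
      rw [om_a h, om_a h] at this
      exact this
    rw [e, ord_mul h2 (nu_sub_ne h hij)]
    exact ⟨mul_ne_zero h2 (nu_sub_ne h hij), rfl⟩
  · exact aux i q'
  · have h3 := aux j q
    rw [dt_swap]
    refine ⟨neg_ne_zero.mpr h3.1, ?_⟩
    rw [ord_neg]
    exact h3.2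
  · have hq : (q : ℕ) ≠ (q' : ℕ) := fun h0 => hxy (by rw [Fin.ext h0])
    rcases fin2_cases q with h0 | h0 <;> rcases fin2_cases q' with h0' | h0'
    · exact absurd (h0.trans h0'.symm) hq
    · have e : dt (xx (b := b) (k := 0) (ε := 1) θ ζ ω) (zz (b := b) (k := 0) (ε := 1) ζ ω)
          (fa (Sum.inr q)) (fa (Sum.inr q')) = 2 * θ :=
        dt_zero_one (k := 0) (ε := 1) θ ζ ω q q' h0 (by omega)
      rw [e]
      exact ⟨h2, by simp [Ep]⟩
    · have e : dt (xx (b := b) (k := 0) (ε := 1) θ ζ ω) (zz (b := b) (k := 0) (ε := 1) ζ ω)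
          (fa (Sum.inr q')) (fa (Sum.inr q)) = 2 * θ :=
        dt_zero_one (k := 0) (ε := 1) θ ζ ω q' q h0' (by omega)
      rw [dt_swap, e]
      exact ⟨neg_ne_zero.mpr h2, by simp [Ep, ord_neg]⟩
    · exact absurd (h0.trans h0'.symm) hq

theorem case_a (h : Cov 0 θ c d ζ β ω) (w : Valuation F ℤᵐ⁰) {B : ℤ}
    (H : CrB w (dt (xx (b := b) (k := 0) (ε := 1) θ ζ ω) (zz (b := b) (k := 0) (ε := 1) ζ ω)) B) :
    CrB w (fun i j => pts θ β i - pts θ β j) B := by
  refine down h w _ ?_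
  intro i j k l hij hik hil hjk hjl hkl
  have h1 := H (fa i) (fa j) (fa k) (fa l) (fa_inj.ne hij) (fa_inj.ne hik) (fa_inj.ne hil)
    (fa_inj.ne hjk) (fa_inj.ne hjl) (fa_inj.ne hkl)
  rw [ord_mul (up_a h w i k hik).1 (up_a h w j l hjl).1,
    ord_mul (up_a h w i j hij).1 (up_a h w k l hkl).1, (up_a h w i k hik).2, (up_a h w j l hjl).2,
    (up_a h w i j hij).2, (up_a h w k l hkl).2] at h1
  linarith

end

end Pool.Agent.Lib.MP_ca2859_nt.CC.VALC

namespace Pool.Agent.Lib.MP_ca2859_nt.CC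

theorem piece_VALC : S_VALC := by
  intro F _ _ w b k ε θ c d ζ β ω hε hk h B hB H
  rcases Nat.eq_zero_or_pos k with hk0 | hk0
  · subst hk0
    obtain rfl : ε = 1 := by omega
    have h1 := VALC.case_a h w H
    intro i j k' l hij hik hil hjk hjl hkl
    have h2 := h1 i j k' l hij hik hil hjk hjl hkl
    have h3 : ord w ((0 + 1 : ℕ) : F) = 0 := by
      rw [zero_add, Nat.cast_one, VALC.ord_one]
    rw [h3]
    push_cast
    linarith
  · exact VALC.case_b h hk0 w hB H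

end Pool.Agent.Lib.MP_ca2859_nt.CC
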