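import Pool.Agent.Lib.MP_ca2859_nt.CC.Stm
import Pool.Agent.Lib.MP_ca2859_nt.CC.P.VALC

/-!
# LOCD: good reduction of the covering curve at a good place
-/

set_option autoImplicit false

open Polynomial WithZero IsDedekindDomain NumberField
open Pool.Agent.Lib.MP_ca2859_nt Pool.Agent.Lib.MP_ca2859_nt.GR

namespace Pool.Agent.Lib.MP_ca2859_nt.CC.LOCD

section field
variable {F : Type} [Field F]

/-- normalising factor: `κ = 1` if `w x ≤ 1` and `κ = x⁻¹` otherwise -/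
theorem exists_kappa (w : Valuation F ℤᵐ⁰) (x : F) :
    ∃ κ : F, κ ≠ 0 ∧ w κ * max 1 (w x) = 1 ∧ w κ ≤ 1 ∧ w (κ * x) ≤ 1 := by
  rcases le_or_gt (w x) 1 with h | h
  · exact ⟨1, one_ne_zero, by rw [map_one, one_mul, max_eq_left h], by rw [map_one],
      by rw [one_mul]; exact h⟩
  · have hx : x ≠ 0 := by
      intro h0
      rw [h0, map_zero] at h
      exact absurd h (not_lt.mpr zero_le)
    have hw : w x ≠ 0 := (Valuation.ne_zero_iff w).mpr hx
    refine ⟨x⁻¹, inv_ne_zero hx, ?_, ?_, ?_⟩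
    · rw [max_eq_right h.le, ← map_mul, inv_mul_cancel₀ hx, map_one]
    · rw [map_inv₀]
      exact inv_le_one_of_one_le₀ h.le
    · rw [inv_mul_cancel₀ hx, map_one]

theorem w_mul_le_one (w : Valuation F ℤᵐ⁰) {x y : F} (hx : w x ≤ 1) (hy : w y ≤ 1) :
    w (x * y) ≤ 1 := by
  rw [map_mul]; exact mul_le_one' hx hy

theorem w_sub_le_one (w : Valuation F ℤᵐ⁰) {x y : F} (hx : w x ≤ 1) (hy : w y ≤ 1) :
    w (x - y) ≤ 1 :=
  (Valuation.map_sub w x y).trans (max_le hx hy)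

/-- integral vectors with a unit determinant are primitive -/
theorem prim_of_det (w : Valuation F ℤᵐ⁰) {x z x' z' : F} (hx : w x ≤ 1) (hz : w z ≤ 1)
    (hx' : w x' ≤ 1) (hz' : w z' ≤ 1) (hd : w (x * z' - x' * z) = 1) :
    max (w x) (w z) = 1 := by
  refine le_antisymm (max_le hx hz) ?_
  rw [← hd]
  refine (Valuation.map_sub w _ _).trans (max_le ?_ ?_)
  · rw [map_mul]
    exact (mul_le_of_le_one_right' hz').trans (le_max_left _ _)
  · rw [map_mul, mul_comm]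
    exact (mul_le_of_le_one_right' hx').trans (le_max_right _ _)

/-- substitution in a product of linear forms -/
theorem comp_fac {ι : Type} [Fintype ι] (u ρ α₀ : F) (x z x' z' l : ι → F)
    (hx : ∀ i, x i - z i * α₀ = l i * x' i) (hz : ∀ i, z i * ρ = l i * z' i) :
    (C u * ∏ i, (C (z i) * X - C (x i))).comp (C ρ * X + C α₀) =
      C (u * ∏ i, l i) * ∏ i, (C (z' i) * X - C (x' i)) := by
  rw [mul_comp, C_comp, prod_comp]
  rw [C_mul, mul_assoc, map_prod, ← Finset.prod_mul_distrib]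
  congr 1
  refine Finset.prod_congr rfl fun i _ => ?_
  rw [sub_comp, mul_comp, C_comp, X_comp, C_comp]
  have e1 : (C (l i) * (C (z' i) * X - C (x' i)) : F[X]) = C (l i * z' i) * X - C (l i * x' i) := by
    rw [C_mul, C_mul]; ring
  rw [e1, ← hx i, ← hz i, C_sub, C_mul, C_mul]
  ring

/-- determinants after the substitution -/
theorem dt_comp {ι : Type} (ρ α₀ : F) (x z x' z' l : ι → F)
    (hx : ∀ i, x i - z i * α₀ = l i * x' i) (hz : ∀ i, z i * ρ = l i * z' i) (i j : ι) :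
    l i * l j * dt x' z' i j = ρ * dt x z i j := by
  have h1 := hx i
  have h2 := hx j
  have h3 := hz i
  have h4 := hz j
  simp only [dt]
  calc l i * l j * (x' i * z' j - x' j * z' i)
      = (l i * x' i) * (l j * z' j) - (l j * x' j) * (l i * z' i) := by ring
    _ = (x i - z i * α₀) * (z j * ρ) - (x j - z j * α₀) * (z i * ρ) := by
        rw [← h1, ← h2, ← h3, ← h4]
    _ = ρ * (x i * z j - x j * z i) := by ring

end field

section vec
variable {F : Type} [Field F] {b k ε : ℕ}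

/-- scaling factors -/
def ll (μ μ' : F) : Ix b k ε → F
  | Sum.inl _ => μ
  | Sum.inr q => if (q : ℕ) = 0 then μ else μ'

/-- new vectors -/
def xn (κ κ' Θ Θ' : F) (η : Fin b × Fin (k + 1) → F) : Ix b k ε → F
  | Sum.inl p => κ * Θ - η p * (κ' * Θ')
  | Sum.inr q => if (q : ℕ) = 0 then κ * Θ else κ' * Θ'

/-- new vectors -/
def zn (κ κ' : F) (η : Fin b × Fin (k + 1) → F) : Ix b k ε → F
  | Sum.inl p => κ - η p * κ'
  | Sum.inr q => if (q : ℕ) = 0 then κ else κ'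

theorem xn_eq (θ ζ α₀ ρ κ κ' : F) (ω : Fin b → F) (hρ : ρ ≠ 0) (hκ : κ ≠ 0) (hκ' : κ' ≠ 0)
    (i : Ix b k ε) :
    xx (b := b) (k := k) (ε := ε) θ ζ ω i - zz (b := b) (k := k) (ε := ε) ζ ω i * α₀ =
      ll (b := b) (k := k) (ε := ε) (ρ / κ) (ρ / κ') i *
        xn (b := b) (k := k) (ε := ε) κ κ' ((θ - α₀) / ρ) ((-θ - α₀) / ρ)
          (fun p => ζ ^ (p.2 : ℕ) * ω p.1 * κ / κ') i := by
  rcases i with p | q
  · simp only [xx, zz, ll, xn]
    field_simp
    ring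
  · simp only [xx, zz, ll, xn]
    split_ifs with h
    · field_simp
    · field_simp

theorem zn_eq (ζ ρ κ κ' : F) (ω : Fin b → F) (hκ : κ ≠ 0) (hκ' : κ' ≠ 0) (i : Ix b k ε) :
    zz (b := b) (k := k) (ε := ε) ζ ω i * ρ =
      ll (b := b) (k := k) (ε := ε) (ρ / κ) (ρ / κ') i *
        zn (b := b) (k := k) (ε := ε) κ κ' (fun p => ζ ^ (p.2 : ℕ) * ω p.1 * κ / κ') i := by
  rcases i with p | q
  · simp only [zz, ll, zn]
    field_simp
  · simp only [zz, ll, zn]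
    split_ifs with h
    · field_simp
    · field_simp

/-- the data at a good place -/
structure Dat (w : Valuation F ℤᵐ⁰) (k : ℕ) (θ c d ζ α₀ ρ : F) (β ω : Fin b → F) (κ κ' : F) :
    Prop where
  cov : Cov k θ c d ζ β ω
  far : FarP w (pts θ β) α₀ ρ
  k0 : κ ≠ 0
  k0' : κ' ≠ 0
  kS : w κ * max 1 (w ((θ - α₀) / ρ)) = 1
  kT : w κ' * max 1 (w ((-θ - α₀) / ρ)) = 1
  ki : w κ ≤ 1
  ki' : w κ' ≤ 1
  kx : w (κ * ((θ - α₀) / ρ)) ≤ 1
  kx' : w (κ' * ((-θ - α₀) / ρ)) ≤ 1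
  om : ∀ j, w (ω j) * max 1 (w ((-θ - α₀) / ρ)) = max 1 (w ((θ - α₀) / ρ))
  omd : ∀ p q : Fin b × Fin (k + 1), p ≠ q →
    w (ζ ^ (p.2 : ℕ) * ω p.1 - ζ ^ (q.2 : ℕ) * ω q.1) * max 1 (w ((-θ - α₀) / ρ)) =
      max 1 (w ((θ - α₀) / ρ))

theorem w_l (w : Valuation F ℤᵐ⁰) {κ ρ : F} {S : ℤᵐ⁰} (h : w κ * S = 1) :
    w (ρ / κ) = w ρ * S := by
  have h1 : w κ ≠ 0 := by
    intro h0
    rw [h0, zero_mul] at h
    exact zero_ne_one h
  rw [map_div₀, div_eq_iff h1, mul_assoc, mul_comm S, h, mul_one]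

variable [CharZero F] {w : Valuation F ℤᵐ⁰} {θ c d ζ α₀ ρ : F} {β ω : Fin b → F} {κ κ' : F}

theorem Dat.w2 (h : Dat w k θ c d ζ α₀ ρ β ω κ κ') :
    w (2 * θ) = w ρ * (max 1 (w ((θ - α₀) / ρ)) * max 1 (w ((-θ - α₀) / ρ))) := by
  have h1 := h.far.far (Sum.inr 0) (Sum.inr 1) (by simp)
  simp only [pts] at h1
  rw [if_pos (by simp), if_neg (by simp)] at h1
  rw [← h1]
  congr 1
  ring

theorem Dat.wz (h : Dat w k θ c d ζ α₀ ρ β ω κ κ') (a : ℕ) (x : F) : w (ζ ^ a * x) = w x := by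
  rw [map_mul, map_pow, VALC.w_zeta h.cov, one_pow, one_mul]

/-- products of the scaling factors -/
theorem Dat.ll_eq (hε : ε ≤ 1) (h : Dat w k θ c d ζ α₀ ρ β ω κ κ') (i j : Ix b k ε) (hij : i ≠ j) :
    w (ll (b := b) (k := k) (ε := ε) (ρ / κ) (ρ / κ') i) *
      w (ll (b := b) (k := k) (ε := ε) (ρ / κ) (ρ / κ') j) =
      w ρ * w (dt (xx (b := b) (k := k) (ε := ε) θ ζ ω) (zz (b := b) (k := k) (ε := ε) ζ ω) i j) := by
  have hS := w_l (ρ := ρ) w h.kS
  have hT := w_l (ρ := ρ) w h.kT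
  have h2 := h.w2
  set S := max 1 (w ((θ - α₀) / ρ)) with hSd
  set T := max 1 (w ((-θ - α₀) / ρ)) with hTd
  have aux : ∀ e : F, w e * T = S → w ρ * S * (w ρ * S) = w ρ * (w (2 * θ * e)) := by
    intro e he
    rw [map_mul w (2 * θ) e, h2]
    calc w ρ * S * (w ρ * S) = w ρ * (w ρ * S * S) := by ac_rfl
      _ = w ρ * (w ρ * S * (w e * T)) := by rw [he]
      _ = w ρ * (w ρ * (S * T) * w e) := by ac_rfl
  have aux2 : w ρ * S * (w ρ * T) = w ρ * w (2 * θ) := by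
    rw [h2]
    ac_rfl
  have aux3 : w ρ * T * (w ρ * S) = w ρ * w (2 * θ) := by
    rw [h2]
    ac_rfl
  rcases i with p | q <;> rcases j with p' | q'
  · have hp : p ≠ p' := fun h0 => hij (by rw [h0])
    rw [dt_inl_inl]
    simp only [ll]
    rw [hS]
    exact aux _ (h.omd p p' hp)
  · simp only [ll]
    by_cases h0 : (q' : ℕ) = 0
    · rw [dt_inl_zero _ _ _ _ _ h0, if_pos h0, hS]
      refine aux _ ?_
      rw [h.wz]
      exact h.om p.1
    · rw [dt_inl_one _ _ _ _ _ h0, if_neg h0, hS, hT]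
      exact aux2
  · simp only [ll]
    rw [dt_swap, Valuation.map_neg]
    by_cases h0 : (q : ℕ) = 0
    · rw [dt_inl_zero _ _ _ _ _ h0, if_pos h0, hS]
      refine aux _ ?_
      rw [h.wz]
      exact h.om p'.1
    · rw [dt_inl_one _ _ _ _ _ h0, if_neg h0, hS, hT]
      exact aux3
  · simp only [ll]
    by_cases h0 : (q : ℕ) = 0
    · by_cases h0' : (q' : ℕ) = 0
      · exact absurd (by rw [Fin.ext (h0.trans h0'.symm)]) hij
      · rw [dt_zero_one _ _ _ _ _ h0 h0', if_pos h0, if_neg h0', hS, hT]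
        exact aux2
    · by_cases h0' : (q' : ℕ) = 0
      · rw [dt_swap, Valuation.map_neg, dt_zero_one _ _ _ _ _ h0' h0, if_neg h0, if_pos h0', hS, hT]
        exact aux3
      · exfalso
        have h1 := q.2
        have h1' := q'.2
        apply hij
        congr 1
        apply Fin.ext
        omega

theorem Dat.det_unit (hε : ε ≤ 1) (h : Dat w k θ c d ζ α₀ ρ β ω κ κ') (i j : Ix b k ε)
    (hij : i ≠ j) :
    w (dt (xn (b := b) (k := k) (ε := ε) κ κ' ((θ - α₀) / ρ) ((-θ - α₀) / ρ)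
      (fun p => ζ ^ (p.2 : ℕ) * ω p.1 * κ / κ'))
      (zn (b := b) (k := k) (ε := ε) κ κ' (fun p => ζ ^ (p.2 : ℕ) * ω p.1 * κ / κ')) i j) = 1 := by
  have h1 := dt_comp ρ α₀ _ _ _ _ _ (xn_eq (b := b) (k := k) (ε := ε) θ ζ α₀ ρ κ κ' ω h.far.r0
    h.k0 h.k0') (zn_eq (b := b) (k := k) (ε := ε) ζ ρ κ κ' ω h.k0 h.k0') i j
  have h2 := congrArg w h1
  rw [map_mul, map_mul, map_mul w ρ, ← h.ll_eq hε i j hij] at h2
  have h3 : ∀ i : Ix b k ε, w (ll (b := b) (k := k) (ε := ε) (ρ / κ) (ρ / κ') i) ≠ 0 := by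
    intro i
    rw [Valuation.ne_zero_iff]
    rcases i with p | q
    · exact div_ne_zero h.far.r0 h.k0
    · simp only [ll]
      split_ifs
      · exact div_ne_zero h.far.r0 h.k0
      · exact div_ne_zero h.far.r0 h.k0'
  exact (mul_eq_left₀ (mul_ne_zero (h3 i) (h3 j))).mp h2

theorem Dat.w_eta (h : Dat w k θ c d ζ α₀ ρ β ω κ κ') (p : Fin b × Fin (k + 1)) :
    w (ζ ^ (p.2 : ℕ) * ω p.1 * κ / κ') = 1 := by
  have h1 : w κ' ≠ 0 := (Valuation.ne_zero_iff w).mpr h.k0'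
  rw [map_div₀, map_mul, h.wz, div_eq_one_iff_eq h1]
  have h2 := h.om p.1
  have h3 := h.kS
  have h4 := h.kT
  rw [← h2] at h3
  have hT : max 1 (w ((-θ - α₀) / ρ)) ≠ 0 := by
    intro h0
    rw [h0, mul_zero] at h4
    exact zero_ne_one h4
  apply mul_right_cancel₀ hT
  rw [mul_comm (w (ω p.1)) (w κ), mul_assoc, h3, h4]

theorem Dat.integral (h : Dat w k θ c d ζ α₀ ρ β ω κ κ') (i : Ix b k ε) :
    w (xn (b := b) (k := k) (ε := ε) κ κ' ((θ - α₀) / ρ) ((-θ - α₀) / ρ)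
      (fun p => ζ ^ (p.2 : ℕ) * ω p.1 * κ / κ') i) ≤ 1 ∧
    w (zn (b := b) (k := k) (ε := ε) κ κ' (fun p => ζ ^ (p.2 : ℕ) * ω p.1 * κ / κ') i) ≤ 1 := by
  rcases i with p | q
  · simp only [xn, zn]
    exact ⟨w_sub_le_one w h.kx (w_mul_le_one w (h.w_eta p).le h.kx'),
      w_sub_le_one w h.ki (w_mul_le_one w (h.w_eta p).le h.ki')⟩
  · simp only [xn, zn]
    split_ifs
    · exact ⟨h.kx, h.ki⟩
    · exact ⟨h.kx', h.ki'⟩

end vec

end Pool.Agent.Lib.MP_ca2859_nt.CC.LOCD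

namespace Pool.Agent.Lib.MP_ca2859_nt.CC

open LOCD in
theorem piece_LOCD (hFACT : S_FACT) (hLOCW : S_LOCW) (hGSS : S_GSS) (hUNIT : S_UNIT) :
    S_LOCD := by
  intro K _ _ L _ _ _ g b k ε hg hε hcard v w hwv hv2 hvk G δ c d α₀ ρ θ ζ g0 β ω hg0 hδ hG
    hcov hfar hσ
  classical
  have hwK : ∀ x : K, w.valuation L (algebraMap K L x) =
      v.valuation K x ^ (Ideal.ramificationIdx' v.asIdeal w.asIdeal) := fun x =>
    (HeightOneSpectrum.valuation_liesOver L v w x).symm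
  have hρ : ρ ≠ 0 := by
    intro h0
    apply hfar.r0
    rw [h0, map_zero]
  have hwk : w.valuation L ((k + 1 : ℕ) : L) = 1 := by
    have h1 := hwK ((k + 1 : ℕ) : K)
    rw [map_natCast, hvk, one_pow] at h1
    exact h1
  obtain ⟨hom, homd⟩ := hLOCW L (w.valuation L) b k θ _ _ ζ _ _ β ω hcov hwk hfar hσ
  obtain ⟨κ, k0, kS, ki, kx⟩ := exists_kappa (w.valuation L)
    ((θ - algebraMap K L α₀) / algebraMap K L ρ)
  obtain ⟨κ', k0', kT, ki', kx'⟩ := exists_kappa (w.valuation L)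
    ((-θ - algebraMap K L α₀) / algebraMap K L ρ)
  have D : Dat (w.valuation L) k θ (algebraMap K L c) (algebraMap K L d) ζ (algebraMap K L α₀)
      (algebraMap K L ρ) β ω κ κ' :=
    ⟨hcov, hfar, k0, k0', kS, kT, ki, ki', kx, kx', hom, homd⟩
  have hF := hFACT L b k ε θ (algebraMap K L c) (algebraMap K L d) ζ g0 β ω hε hg0 hcov
  rw [hδ, ← hG, ← DD_map] at hF
  set DDK := DD b k ε δ c d G with hDDK
  set u0 := g0 * ∏ j, ((β j + θ) * (algebraMap K L c + algebraMap K L d * θ) ^ k / (2 * θ)) with hu0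
  set H := DDK.comp (C ρ * X + C α₀) with hH
  set x' := xn (b := b) (k := k) (ε := ε) κ κ' ((θ - algebraMap K L α₀) / algebraMap K L ρ)
    ((-θ - algebraMap K L α₀) / algebraMap K L ρ) (fun p => ζ ^ (p.2 : ℕ) * ω p.1 * κ / κ') with hx'
  set z' := zn (b := b) (k := k) (ε := ε) κ κ' (fun p => ζ ^ (p.2 : ℕ) * ω p.1 * κ / κ') with hz'
  set l := ll (b := b) (k := k) (ε := ε) (algebraMap K L ρ / κ) (algebraMap K L ρ / κ') with hl
  have hHm : H.map (algebraMap K L) = C (u0 * ∏ i, l i) * ∏ i, (C (z' i) * X - C (x' i)) := by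
    rw [hH, Polynomial.map_comp, hF.fac, Polynomial.map_add, Polynomial.map_mul, map_C, map_C,
      map_X]
    exact comp_fac u0 _ _ _ _ x' z' l
      (xn_eq θ ζ _ _ κ κ' ω hfar.r0 k0 k0') (zn_eq ζ _ κ κ' ω k0 k0')
  have hl0 : ∀ i, l i ≠ 0 := by
    intro i
    rw [hl]
    rcases i with p | q
    · exact div_ne_zero hfar.r0 k0
    · simp only [ll]
      split_ifs
      · exact div_ne_zero hfar.r0 k0
      · exact div_ne_zero hfar.r0 k0'
  have hu'0 : u0 * ∏ i, l i ≠ 0 :=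
    mul_ne_zero hF.u0 (Finset.prod_ne_zero_iff.mpr fun i _ => hl0 i)
  have hdet : ∀ i j, i ≠ j → w.valuation L (dt x' z' i j) = 1 := fun i j hij =>
    D.det_unit hε i j hij
  have hint : ∀ i, w.valuation L (x' i) ≤ 1 ∧ w.valuation L (z' i) ≤ 1 := fun i => D.integral i
  have hcardI : Fintype.card (Ix b k ε) = 2 * g + 2 := by
    rw [Fintype.card_sum, Fintype.card_prod, Fintype.card_fin, Fintype.card_fin, Fintype.card_fin,
      hcard]
  have hprim : ∀ i, max (w.valuation L (x' i)) (w.valuation L (z' i)) = 1 := by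
    intro i
    obtain ⟨j, hj⟩ : ∃ j, j ≠ i := by
      have : Nontrivial (Ix b k ε) := Fintype.one_lt_card_iff_nontrivial.mp (by omega)
      exact exists_ne i
    exact prim_of_det (w.valuation L) (hint i).1 (hint i).2 (hint j).1 (hint j).2
      (hdet i j hj.symm)
  obtain ⟨n, hn⟩ := hGSS L (w.valuation L) (Ix b k ε) x' z' hprim
  have hcoef : w.valuation L (algebraMap K L (H.coeff n)) =
      w.valuation L (u0 * ∏ i, l i) := by
    rw [← coeff_map, hHm, coeff_C_mul, map_mul, hn, mul_one]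
  have hHn : H.coeff n ≠ 0 := by
    intro h0
    rw [h0, map_zero, map_zero] at hcoef
    exact hu'0 ((Valuation.zero_iff _).mp hcoef.symm)
  refine ⟨ord (v.valuation K) (H.coeff n), ?_⟩
  rintro e he ⟨m, hm⟩
  obtain ⟨π, hπ⟩ := v.valuation_exists_uniformizer K
  have hπ0 : π ≠ 0 := by
    intro h0
    rw [h0, map_zero] at hπ
    exact exp_ne_zero hπ.symm
  have hπo : ord (v.valuation K) π = 1 := by rw [ord, hπ, log_exp]; ring
  set r : K := π ^ (-(ord (v.valuation K) (H.coeff n) + m)) with hr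
  have hr0 : r ≠ 0 := zpow_ne_zero _ hπ0
  have hro : ord (v.valuation K) r = -(ord (v.valuation K) (H.coeff n) + m) := by
    rw [hr, ord_zpow, hπo, mul_one]
  have hre0 : r ^ 2 * e ≠ 0 := mul_ne_zero (pow_ne_zero _ hr0) he
  have hunit : v.valuation K (r ^ 2 * e * H.coeff n) = 1 := by
    rw [w_eq_exp (mul_ne_zero hre0 hHn), ord_mul hre0 hHn, ord_mul (pow_ne_zero _ hr0) he, ord_pow,
      hro, hm]
    rw [← exp_zero]
    congr 1
    push_cast
    ring
  have hwu : w.valuation L (algebraMap K L (r ^ 2 * e) * (u0 * ∏ i, l i)) = 1 := by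
    rw [map_mul, ← hcoef, ← map_mul, ← map_mul, hwK, hunit, one_pow]
  have hP : PFac ((C (r ^ 2 * e) * H).map (algebraMap K L))
      (algebraMap K L (r ^ 2 * e) * (u0 * ∏ i, l i)) x' z' := by
    refine ⟨mul_ne_zero (by rw [Ne, map_eq_zero]; exact hre0) hu'0, ?_, ?_⟩
    · rw [Polynomial.map_mul, map_C, hHm, ← mul_assoc, ← C_mul]
    · intro i j hij h0
      have := hdet i j hij
      rw [h0, map_zero] at this
      exact zero_ne_one this
  refine hUNIT K L g hg (C (r ^ 2 * e) * H) v w hwv hv2 (Ix b k ε) _ x' z' hcardI hP hwu hint hdet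
    (C e * DDK) ?_ ?_
  · refine (natDegree_C_mul_le _ _).trans ?_
    rw [← natDegree_map (algebraMap K L), hF.fac]
    refine (natDegree_C_mul_le _ _).trans ?_
    refine (natDegree_prod_le _ _).trans ?_
    rw [← hcardI]
    refine (Finset.sum_le_card_nsmul _ _ 1 fun i _ => ?_).trans (by simp)
    exact (natDegree_sub_le _ _).trans (max_le ((natDegree_C_mul_le _ _).trans natDegree_X_le)
      (by simp))
  · refine ⟨ρ, α₀, 0, 1, r, by simpa using hρ, hr0, fun x _ => ?_⟩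
    rw [hH, eval_mul, eval_comp]
    simp only [eval_mul, eval_C, eval_add, eval_X]
    rw [zero_mul, zero_add, one_pow, div_one]
    ring

end Pool.Agent.Lib.MP_ca2859_nt.CC
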