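import Pool.Agent.Lib.MP_ca2859_nt.CC.Stm

/-!
# LOCW: valuations of the points upstairs at a good place
-/

set_option autoImplicit false

open Polynomial WithZero IsDedekindDomain NumberField
open Pool.Agent.Lib.MP_ca2859_nt Pool.Agent.Lib.MP_ca2859_nt.GR

namespace Pool.Agent.Lib.MP_ca2859_nt.CC

section LOCW

variable {F : Type} [Field F] (w : Valuation F ℤᵐ⁰)

private lemma LOCW_pow {a b : ℤᵐ⁰} {n : ℕ} (hn : n ≠ 0) (h : a ^ n = b ^ n) : a = b :=
  (pow_left_inj₀ zero_le zero_le hn).1 h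

private lemma LOCW_root {x : F} {n : ℕ} (hn : n ≠ 0) (h : x ^ n = 1) : w x = 1 := by
  refine LOCW_pow hn ?_
  rw [← map_pow, h, map_one, one_pow]

/-- the difference of two roots of unity of order prime to the residue characteristic -/
private lemma LOCW_unity {x : F} {n : ℕ} (hn : n ≠ 0) (h : x ^ n = 1) (h1 : x ≠ 1)
    (hw : w (n : F) = 1) : w (x - 1) = 1 := by
  have hx : w x = 1 := LOCW_root w hn h
  have hle : w (x - 1) ≤ 1 := by
    refine (Valuation.map_sub w x 1).trans ?_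
    rw [hx, map_one, max_self]
  refine le_antisymm hle ?_
  have hg : ∀ i : ℕ, w (x ^ i - 1) ≤ w (x - 1) := by
    intro i
    rw [← mul_geom_sum x i, map_mul]
    have h2 : w (∑ j ∈ Finset.range i, x ^ j) ≤ 1 := by
      refine Valuation.map_sum_le w fun j _ => ?_
      rw [map_pow, hx, one_pow]
    calc w (x - 1) * w (∑ j ∈ Finset.range i, x ^ j) ≤ w (x - 1) * 1 := by gcongr
      _ = w (x - 1) := mul_one _
  have hs : ∑ i ∈ Finset.range n, x ^ i = 0 := by
    have h3 := mul_geom_sum x n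
    rw [h, sub_self] at h3
    rcases mul_eq_zero.1 h3 with h4 | h4
    · exact absurd (sub_eq_zero.1 h4) h1
    · exact h4
  have hs2 : ∑ i ∈ Finset.range n, (x ^ i - 1) = -(n : F) := by
    rw [Finset.sum_sub_distrib, hs, Finset.sum_const, Finset.card_range, nsmul_eq_mul, mul_one,
      zero_sub]
  have h5 : w (∑ i ∈ Finset.range n, (x ^ i - 1)) ≤ w (x - 1) :=
    Valuation.map_sum_le w fun i _ => hg i
  rw [hs2, Valuation.map_neg, hw] at h5
  exact h5

/-- factors of maximal valuation -/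
private lemma LOCW_diff {x y : F} {s : ℤᵐ⁰} {n : ℕ} (hs : s ≠ 0) (hx : w x = s) (hy : w y = s)
    (h : w (x ^ (n + 1) - y ^ (n + 1)) = s ^ (n + 1)) : w (x - y) = s := by
  have hle : w (x - y) ≤ s := by
    refine (Valuation.map_sub w x y).trans ?_
    rw [hx, hy, max_self]
  refine le_antisymm hle ?_
  have h1 := geom_sum₂_mul x y (n + 1)
  have h2 : w (∑ i ∈ Finset.range (n + 1), x ^ i * y ^ (n + 1 - 1 - i)) ≤ s ^ n := by
    refine Valuation.map_sum_le w fun i hi => ?_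
    have hi' : i ≤ n := by
      have := Finset.mem_range.1 hi
      omega
    rw [map_mul, map_pow, map_pow, hx, hy, ← pow_add]
    refine le_of_eq ?_
    congr 1
    omega
  rw [← h1, map_mul] at h
  have h3 : s ^ n * s ≤ s ^ n * w (x - y) := by
    calc s ^ n * s = s ^ (n + 1) := (pow_succ s n).symm
      _ = _ := h.symm
      _ ≤ s ^ n * w (x - y) := by gcongr
  exact le_of_mul_le_mul_left h3 (zero_lt_iff.2 (pow_ne_zero n hs))

end LOCW

/-- LOCW -/
theorem piece_LOCW : S_LOCW := by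
  intro F _ _ w b k θ c d ζ α₀ ρ β ω hC hk hF hσ
  obtain ⟨S, hS⟩ : ∃ S, S = max 1 (w ((θ - α₀) / ρ)) := ⟨_, rfl⟩
  obtain ⟨T, hT⟩ : ∃ T, T = max 1 (w ((-θ - α₀) / ρ)) := ⟨_, rfl⟩
  obtain ⟨U, hU⟩ : ∃ U : Fin b → ℤᵐ⁰, ∀ j, U j = max 1 (w ((β j - α₀) / ρ)) :=
    ⟨_, fun _ => rfl⟩
  obtain ⟨r, hr⟩ : ∃ r, r = w ρ := ⟨_, rfl⟩
  have hr0 : r ≠ 0 := by
    rw [hr]
    exact (Valuation.ne_zero_iff w).2 hF.r0
  have hmax : ∀ a : ℤᵐ⁰, max 1 a ≠ 0 := fun a =>
    ne_of_gt (lt_of_lt_of_le zero_lt_one (le_max_left 1 a))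
  have hS0 : S ≠ 0 := by
    rw [hS]
    exact hmax _
  have hT0 : T ≠ 0 := by
    rw [hT]
    exact hmax _
  have hU0 : ∀ j, U j ≠ 0 := by
    intro j
    rw [hU]
    exact hmax _
  have e0 : pts θ β (Sum.inr 0) = θ := rfl
  have e1 : pts θ β (Sum.inr 1) = -θ := rfl
  have ej : ∀ j, pts θ β (Sum.inl j) = β j := fun _ => rfl
  have f0 : ∀ j, w (β j - θ) = r * (U j * S) := by
    intro j
    have h := hF.far (Sum.inl j) (Sum.inr 0) Sum.inl_ne_inr
    rw [e0, ej, ← hr, ← hU, ← hS] at h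
    exact h
  have f1 : ∀ j, w (β j + θ) = r * (U j * T) := by
    intro j
    have h := hF.far (Sum.inl j) (Sum.inr 1) Sum.inl_ne_inr
    rw [e1, ej, ← hr, ← hU, ← hT, sub_neg_eq_add] at h
    exact h
  have f2 : w (2 * θ) = r * (S * T) := by
    have h := hF.far (Sum.inr 0) (Sum.inr 1) (fun h => absurd (Sum.inr.inj h) (by decide))
    rw [e0, e1, ← hr, ← hS, ← hT, sub_neg_eq_add, ← two_mul] at h
    exact h
  have f3 : ∀ i j, i ≠ j → w (β i - β j) = r * (U i * U j) := by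
    intro i j hij
    have h := hF.far (Sum.inl i) (Sum.inl j) (fun h => hij (Sum.inl.inj h))
    rw [ej, ej, ← hr, ← hU, ← hU] at h
    exact h
  rw [← hS, ← hT]
  obtain ⟨s, hs⟩ : ∃ s, s = w ((c - d * θ) / (c + d * θ)) := ⟨_, rfl⟩
  have hs0 : s ≠ 0 := by
    rw [hs]
    exact (Valuation.ne_zero_iff w).2 (div_ne_zero hC.cm hC.cp)
  have hcp0 : w (c + d * θ) ≠ 0 := (Valuation.ne_zero_iff w).2 hC.cp
  have hcm : w (c - d * θ) = s * w (c + d * θ) := by
    rw [hs, map_div₀, div_mul_cancel₀ _ hcp0]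
  have hbp0 : ∀ j, w (β j + θ) ≠ 0 := fun j => (Valuation.ne_zero_iff w).2 (hC.bp j)
  have hbm : ∀ j, w (β j - θ) = s * w (β j + θ) := by
    intro j
    rw [hs, hσ j, map_div₀, div_mul_cancel₀ _ (hbp0 j)]
  have hsT : ∀ _ : Fin b, s * T = S := by
    intro j
    have h := hbm j
    rw [f0, f1] at h
    have h2 : (r * U j) * (s * T) = (r * U j) * S := by
      calc (r * U j) * (s * T) = s * (r * (U j * T)) := by ac_rfl
        _ = r * (U j * S) := h.symm
        _ = (r * U j) * S := by ac_rfl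
    exact mul_left_cancel₀ (mul_ne_zero hr0 (hU0 j)) h2
  have hω : ∀ j, w (ω j) = s := by
    intro j
    have h := congrArg w (hC.om j)
    rw [map_mul, map_mul, map_mul, map_pow, map_pow, map_pow, hbm, hcm] at h
    have h2 : (w (β j + θ) * w (c + d * θ) ^ k) * w (ω j) ^ (k + 1) =
        (w (β j + θ) * w (c + d * θ) ^ k) * s ^ (k + 1) := by
      calc (w (β j + θ) * w (c + d * θ) ^ k) * w (ω j) ^ (k + 1) =
          w (ω j) ^ (k + 1) * (w (β j + θ) * w (c + d * θ) ^ k) := mul_comm _ _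
        _ = s * w (β j + θ) * (s * w (c + d * θ)) ^ k := h
        _ = _ := by
          rw [mul_pow, pow_succ']
          ac_rfl
    exact LOCW_pow (Nat.succ_ne_zero k)
      (mul_left_cancel₀ (mul_ne_zero (hbp0 j) (pow_ne_zero k hcp0)) h2)
  refine ⟨fun j => by rw [hω, hsT j], ?_⟩
  have hζ : ζ ^ (k + 1) = 1 := hC.pr.pow_eq_one
  have hwζ : w ζ = 1 := LOCW_root w (Nat.succ_ne_zero k) hζ
  have hwk : ∀ (a : ℕ) (j : Fin b), w (ζ ^ a * ω j) = s := by
    intro a j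
    rw [map_mul, map_pow, hwζ, one_pow, one_mul, hω]
  -- powers upstairs
  have hpw : ∀ j, ω j ^ (k + 1) =
      (β j - θ) / (β j + θ) * ((c - d * θ) / (c + d * θ)) ^ k := by
    intro j
    have h1 := hC.bp j
    have h2 := hC.cp
    have h3 := hC.om j
    rw [div_pow, div_mul_div_comm, eq_div_iff (mul_ne_zero h1 (pow_ne_zero k h2))]
    exact h3
  have hnu : ∀ i j, i ≠ j →
      w ((β i - θ) / (β i + θ) - (β j - θ) / (β j + θ)) = s := by
    intro i j hij
    have h1 := hC.bp i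
    have h2 := hC.bp j
    have h3 : ((β i - θ) / (β i + θ) - (β j - θ) / (β j + θ)) * ((β i + θ) * (β j + θ)) =
        (2 * θ) * (β i - β j) := by
      field_simp
      ring
    have h4 := congrArg w h3
    rw [map_mul, map_mul, map_mul, f1, f1, f2, f3 i j hij, ← hsT i] at h4
    have h5 : (r * (U i * T) * (r * (U j * T))) *
        w ((β i - θ) / (β i + θ) - (β j - θ) / (β j + θ)) =
        (r * (U i * T) * (r * (U j * T))) * s := by
      rw [mul_comm, h4]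
      ac_rfl
    exact mul_left_cancel₀ (mul_ne_zero (mul_ne_zero hr0 (mul_ne_zero (hU0 i) hT0))
      (mul_ne_zero hr0 (mul_ne_zero (hU0 j) hT0))) h5
  intro p q hpq
  rw [← hsT p.1]
  congr 1
  by_cases h1 : p.1 = q.1
  · have h2 : (p.2 : ℕ) ≠ (q.2 : ℕ) := by
      intro h
      exact hpq (Prod.ext h1 (Fin.ext h))
    have hζ0 : ζ ≠ 0 := hC.pr.ne_zero (Nat.succ_ne_zero k)
    obtain ⟨x, hx⟩ : ∃ x, x = ζ ^ (p.2 : ℕ) / ζ ^ (q.2 : ℕ) := ⟨_, rfl⟩
    have hx1 : x ^ (k + 1) = 1 := by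
      rw [hx, div_pow, ← pow_mul, ← pow_mul, mul_comm, pow_mul, hζ, one_pow, mul_comm, pow_mul,
        hζ, one_pow, div_one]
    have hx2 : x ≠ 1 := by
      intro h
      rw [hx, div_eq_one_iff_eq (pow_ne_zero _ hζ0)] at h
      exact h2 (hC.pr.pow_inj p.2.2 q.2.2 h)
    have h3 := LOCW_unity w (Nat.succ_ne_zero k) hx1 hx2 hk
    have h4 : ζ ^ (p.2 : ℕ) * ω p.1 - ζ ^ (q.2 : ℕ) * ω q.1 =
        (x - 1) * (ζ ^ (q.2 : ℕ) * ω q.1) := by
      rw [hx, h1]
      field_simp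
    rw [h4, map_mul, h3, one_mul, hwk]
  · refine LOCW_diff w (n := k) hs0 (hwk _ _) (hwk _ _) ?_
    have h5 : ∀ (a : ℕ) (j : Fin b), (ζ ^ a * ω j) ^ (k + 1) = ω j ^ (k + 1) := by
      intro a j
      rw [mul_pow, ← pow_mul, mul_comm a, pow_mul, hζ, one_pow, one_mul]
    rw [h5, h5, hpw, hpw, ← sub_mul, map_mul, map_pow, ← hs, hnu p.1 q.1 h1, pow_succ']

end Pool.Agent.Lib.MP_ca2859_nt.CC
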