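import Mathlib
import Pool.Agent.Lib.MP_ca2859_nt.CC.Stm

/-!
# Fixed field theorem, part 2: piece MINK
-/

set_option autoImplicit false

open Polynomial WithZero IsDedekindDomain NumberField IntermediateField
open Pool.Agent.Lib.MP_ca2859_nt Pool.Agent.Lib.MP_ca2859_nt.GR

namespace Pool.Agent.Lib.MP_ca2859_nt.CC

section
variable {K L : Type} [Field K] [Field L] [Algebra K L]

/-- every element of `K(θ)` is `c + dθ` -/
theorem mink_repr (δ : K) (θ : L) (hθ : θ ^ 2 = algebraMap K L δ) (hθi : IsIntegral K θ)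
    (z : K⟮θ⟯) : ∃ c d : K, z = algebraMap K K⟮θ⟯ c +
      algebraMap K K⟮θ⟯ d * AdjoinSimple.gen K θ := by
  have hz : (z : L) ∈ Algebra.adjoin K {θ} := by
    rw [← adjoin_simple_toSubalgebra_of_isAlgebraic hθi.isAlgebraic]
    exact z.2
  have key : ∀ y : L, y ∈ Algebra.adjoin K {θ} →
      ∃ c d : K, y = algebraMap K L c + algebraMap K L d * θ := by
    intro y hy
    induction hy using Algebra.adjoin_induction with
    | mem x hx =>
      rw [Set.mem_singleton_iff] at hx
      exact ⟨0, 1, by simp [hx]⟩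
    | algebraMap r => exact ⟨r, 0, by simp⟩
    | add x y _ _ hx hy =>
      obtain ⟨c, d, rfl⟩ := hx
      obtain ⟨c', d', rfl⟩ := hy
      exact ⟨c + c', d + d', by simp only [map_add]; ring⟩
    | mul x y _ _ hx hy =>
      obtain ⟨c, d, rfl⟩ := hx
      obtain ⟨c', d', rfl⟩ := hy
      refine ⟨c * c' + d * d' * δ, c * d' + d * c', ?_⟩
      simp only [map_add, map_mul]
      rw [← hθ]
      ring
  obtain ⟨c, d, hcd⟩ := key z hz
  refine ⟨c, d, Subtype.ext ?_⟩
  rw [hcd]
  rfl

/-- the automorphism `θ ↦ -θ` -/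
theorem mink_aut (δ : K) (θ : L) (hθ : θ ^ 2 = algebraMap K L δ) (hθi : IsIntegral K θ)
    (hK : ∀ t : K, θ ≠ algebraMap K L t) :
    ∃ τ : K⟮θ⟯ ≃ₐ[K] K⟮θ⟯, τ (AdjoinSimple.gen K θ) = - AdjoinSimple.gen K θ := by
  have hmon : (X ^ 2 - C δ : K[X]).Monic := monic_X_pow_sub_C δ two_ne_zero
  have hirr : Irreducible (X ^ 2 - C δ : K[X]) := by
    rw [irreducible_iff_roots_eq_zero_of_degree_le_three (by rw [natDegree_X_pow_sub_C])
      (by rw [natDegree_X_pow_sub_C]; norm_num)]
    rw [Multiset.eq_zero_iff_forall_notMem]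
    intro t ht
    have h1 : t ^ 2 = δ := by
      have := (mem_roots hmon.ne_zero).1 ht
      rw [IsRoot, eval_sub, eval_pow, eval_X, eval_C, sub_eq_zero] at this
      exact this
    have h2 : (θ - algebraMap K L t) * (θ + algebraMap K L t) = 0 := by
      have : θ ^ 2 = algebraMap K L t ^ 2 := by rw [hθ, ← h1, map_pow]
      linear_combination this
    rcases mul_eq_zero.1 h2 with h3 | h3
    · exact hK t (sub_eq_zero.1 h3)
    · exact hK (-t) (by rw [map_neg]; linear_combination h3)
  have hmin : minpoly K θ = X ^ 2 - C δ := by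
    refine (minpoly.eq_of_irreducible_of_monic hirr ?_ hmon).symm
    rw [aeval_sub, map_pow, aeval_X, aeval_C, hθ, sub_self]
  have hgen : (AdjoinSimple.gen K θ) ^ 2 = algebraMap K K⟮θ⟯ δ := by
    apply Subtype.ext
    exact hθ
  have hroot : - AdjoinSimple.gen K θ ∈ (minpoly K θ).aroots K⟮θ⟯ := by
    rw [hmin, mem_aroots]
    refine ⟨hmon.ne_zero, ?_⟩
    rw [aeval_sub, map_pow, aeval_X, aeval_C, neg_sq, hgen, sub_self]
  set φ : K⟮θ⟯ →ₐ[K] K⟮θ⟯ := (algHomAdjoinIntegralEquiv K hθi).symm ⟨_, hroot⟩ with hφ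
  have hφg : φ (AdjoinSimple.gen K θ) = - AdjoinSimple.gen K θ :=
    algHomAdjoinIntegralEquiv_symm_apply_gen K hθi ⟨_, hroot⟩
  have : FiniteDimensional K K⟮θ⟯ := adjoin.finiteDimensional hθi
  exact ⟨AlgEquiv.ofBijective φ (Algebra.IsAlgebraic.algHom_bijective φ), hφg⟩

theorem mink_finrank (δ : K) (θ : L) (hθ : θ ^ 2 = algebraMap K L δ) (hθi : IsIntegral K θ) :
    Module.finrank K K⟮θ⟯ ≤ 2 := by
  rw [adjoin.finrank hθi]
  have hmon : (X ^ 2 - C δ : K[X]).Monic := monic_X_pow_sub_C δ two_ne_zero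
  have h1 : aeval θ (X ^ 2 - C δ : K[X]) = 0 := by
    rw [aeval_sub, map_pow, aeval_X, aeval_C, hθ, sub_self]
  have h2 := natDegree_le_of_dvd (minpoly.dvd K θ h1) hmon.ne_zero
  rwa [natDegree_X_pow_sub_C] at h2

end

theorem mink_div (e b m n : ℤ) (he : 0 < e) (h : e * m = b * (e * n)) : b ∣ m := by
  refine ⟨n, ?_⟩
  have : e * m = e * (b * n) := by rw [h]; ring
  exact mul_left_cancel₀ he.ne' this

theorem piece_MINK (hMKS : S_MKS) (hMKN : S_MKN) (hDSUB : S_DSUB) : S_MINK := by
  classical
  intro K _ _ L _ _ _ θ δ x y b hb hθ0 hθ hp hm B hB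
  by_cases hK : ∃ t : K, θ = algebraMap K L t
  · -- `θ ∈ K`
    obtain ⟨t, rfl⟩ := hK
    have hinj : Function.Injective (algebraMap K L) := (algebraMap K L).injective
    have ht0 : t ≠ 0 := by
      rintro rfl
      exact hθ0 (map_zero _)
    have hp' : x + y * t ≠ 0 := by
      intro h0; apply hp; rw [← map_mul, ← map_add, h0, map_zero]
    have hm' : x - y * t ≠ 0 := by
      intro h0; apply hm; rw [← map_mul, ← map_sub, h0, map_zero]
    have hq : (x + y * t) / (x - y * t) ≠ 0 := div_ne_zero hp' hm'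
    obtain ⟨c, d, hc1, hc2, J, hJ, hJv⟩ := hMKS K t ((x + y * t) / (x - y * t)) b hb ht0 hq B
      (by
        intro v hv
        obtain ⟨w, hw⟩ := exists_place_above (K := K) (L := L) v
        obtain ⟨s, t', _, hst⟩ := hB v hv w hw
        simp only [← map_mul, ← map_add, ← map_sub, ← map_div₀] at hst
        rw [ord_base v w, ord_base v w] at hst
        exact mink_div _ _ _ _ (by exact_mod_cast ram_pos v w) hst)
    refine ⟨c, d, ?_, ?_, J, ?_, ?_⟩
    · rw [← map_mul, ← map_add]
      exact (map_ne_zero_iff _ hinj).2 hc1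
    · rw [← map_mul, ← map_sub]
      exact (map_ne_zero_iff _ hinj).2 hc2
    · exact hJ.trans (Nat.mul_le_mul (Nat.pow_le_pow_left (by norm_num) _) (hDSUB K L))
    · intro v hv hvJ w hw
      simp only [← map_mul, ← map_add, ← map_sub, ← map_div₀]
      rw [ord_base v w, ord_base v w, ← hJv v hv hvJ]
      ring
  · -- `M = K(θ)`
    push Not at hK
    have hθi : IsIntegral K θ := Algebra.IsIntegral.isIntegral θ
    set M := K⟮θ⟯ with hM
    set θ' : M := AdjoinSimple.gen K θ with hθ'
    obtain ⟨τ, hτ⟩ : ∃ τ : M ≃ₐ[K] M, τ θ' = - θ' := mink_aut δ θ hθ hθi hK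
    have hgen : algebraMap M L θ' = θ := rfl
    have hKM : ∀ a : K, algebraMap M L (algebraMap K M a) = algebraMap K L a := fun a => rfl
    have : NumberField M := inferInstance
    have hp' : algebraMap K M x + algebraMap K M y * θ' ≠ 0 := by
      intro h0; apply hp
      rw [← hKM, ← hKM, ← hgen, ← map_mul, ← map_add, h0, map_zero]
    have hm' : algebraMap K M x - algebraMap K M y * θ' ≠ 0 := by
      intro h0; apply hm
      rw [← hKM, ← hKM, ← hgen, ← map_mul, ← map_sub, h0, map_zero]
    set q : M := (algebraMap K M x + algebraMap K M y * θ') /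
      (algebraMap K M x - algebraMap K M y * θ') with hqdef
    have hq : q ≠ 0 := div_ne_zero hp' hm'
    have hqL : algebraMap M L q = (algebraMap K L x + algebraMap K L y * θ) /
        (algebraMap K L x - algebraMap K L y * θ) := by
      rw [hqdef, map_div₀, map_add, map_sub, map_mul, hgen]
      rfl
    have hτq : τ q = q⁻¹ := by
      rw [hqdef, map_div₀, map_add, map_sub, map_mul, hτ, AlgEquiv.commutes, AlgEquiv.commutes,
        inv_div]
      congr 1 <;> ring
    obtain ⟨c, d, hc1, hc2, J, hJ, hJv⟩ := hMKN K M τ θ' q b hb hτ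
      (fun z => mink_repr δ θ hθ hθi z) hq hτq B
      (by
        intro v hv w₀ hw₀
        obtain ⟨w, hw⟩ := exists_place_above (K := M) (L := L) w₀
        have hwv : w.asIdeal.LiesOver v.asIdeal :=
          Ideal.LiesOver.trans w.asIdeal w₀.asIdeal v.asIdeal
        obtain ⟨s, t', _, hst⟩ := hB v hv w hwv
        have e1 : algebraMap K L s + algebraMap K L t' * θ =
            algebraMap M L (algebraMap K M s + algebraMap K M t' * θ') := by
          rw [map_add, map_mul, hgen]; rfl
        rw [← hqL, e1, ord_base w₀ w, ord_base w₀ w] at hst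
        exact mink_div _ _ _ _ (by exact_mod_cast ram_pos w₀ w) hst)
    refine ⟨c, d, ?_, ?_, J, ?_, ?_⟩
    · intro h0; apply hc1
      apply (algebraMap M L).injective
      rw [map_zero, map_add, map_mul, hgen]
      exact h0
    · intro h0; apply hc2
      apply (algebraMap M L).injective
      rw [map_zero, map_sub, map_mul, hgen]
      exact h0
    · refine hJ.trans (Nat.mul_le_mul ?_ (hDSUB M L))
      have h1 : Module.finrank ℚ M = Module.finrank ℚ K * Module.finrank K M :=
        (Module.finrank_mul_finrank ℚ K M).symm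
      rw [h1]
      calc 2 ^ (Module.finrank ℚ K * Module.finrank K M)
          ≤ 2 ^ (Module.finrank ℚ K * 2) :=
            Nat.pow_le_pow_right (by norm_num) (Nat.mul_le_mul_left _ (mink_finrank δ θ hθ hθi))
        _ = 4 ^ Module.finrank ℚ K := by rw [mul_comm, pow_mul]; norm_num
    · intro v hv hvJ w hw
      obtain ⟨w₀, hw₀⟩ := exists_place_below (K := M) w
      have hw₀v : w₀.asIdeal.LiesOver v.asIdeal :=
        Ideal.LiesOver.tower_bot w.asIdeal w₀.asIdeal v.asIdeal
      have h1 := hJv v hv hvJ w₀ hw₀v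
      have e1 : (algebraMap K L c - algebraMap K L d * θ) /
          (algebraMap K L c + algebraMap K L d * θ) = algebraMap M L
          ((algebraMap K M c - algebraMap K M d * θ') /
            (algebraMap K M c + algebraMap K M d * θ')) := by
        rw [map_div₀, map_add, map_sub, map_mul, hgen]; rfl
      rw [e1, ← hqL, ord_base w₀ w, ord_base w₀ w, ← h1]
      ring

end Pool.Agent.Lib.MP_ca2859_nt.CC
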