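import Mathlib
import Pool.Agent.Lib.MP_ca2859_nt.CC.Stm

/-!
# Choice of `c, d` in the quadratic case
-/

set_option autoImplicit false

open Polynomial WithZero IsDedekindDomain NumberField
open Pool.Agent.Lib.MP_ca2859_nt Pool.Agent.Lib.MP_ca2859_nt.GR

namespace Pool.Agent.Lib.MP_ca2859_nt.CC

theorem piece_MKN (hCLS : S_CLS) (hBEL : S_BEL) (hTAU : S_TAU) : S_MKN := by
  intro K M _ _ _ _ _ τ θ q b hb hτθ hgen hq hτq B hB
  classical
  have hb0 : (b : ℤ) ≠ 0 := by exact_mod_cast (by omega : b ≠ 0)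
  -- the exponents
  let n : HeightOneSpectrum (𝓞 M) → ℤ := fun w =>
    if ∃ v : HeightOneSpectrum (𝓞 K), v ∉ B ∧ w.asIdeal.LiesOver v.asIdeal then
      max (-(ord (w.valuation M) q / b)) 0 else 0
  have hfin : {w | n w ≠ 0}.Finite := by
    refine (finite_val_ne_one q hq).subset ?_
    intro w hw
    have h1 : n w ≠ 0 := hw
    show w.valuation M q ≠ 1
    intro h2
    apply h1
    have h3 : ord (w.valuation M) q = 0 := by rw [ord, h2]; simp
    show (if ∃ v : HeightOneSpectrum (𝓞 K), v ∉ B ∧ w.asIdeal.LiesOver v.asIdeal then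
      max (-(ord (w.valuation M) q / b)) 0 else 0) = 0
    rw [h3]
    simp
  obtain ⟨a, ha, J', hJ', haJ⟩ := hCLS M n hfin
  obtain ⟨J, hJ, hJJ⟩ := hBEL K M J'
  obtain ⟨c, d, hcd⟩ := hgen a
  have hτa : τ a = algebraMap K M c - algebraMap K M d * θ := by
    rw [hcd, map_add, map_mul, τ.commutes, τ.commutes, hτθ]
    ring
  have hτa0 : τ a ≠ 0 := by
    intro h
    exact ha ((map_eq_zero_iff τ τ.injective).1 h)
  refine ⟨c, d, by rw [← hcd]; exact ha, by rw [← hτa]; exact hτa0, J, hJ.trans hJ', ?_⟩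
  intro v hvB hvJ w hw
  rw [← hcd, ← hτa, ord_div hτa0 ha]
  obtain ⟨w', hw', hord⟩ := hTAU K M τ w
  have hwv' := hw' v hw
  have e1 : ord (w.valuation M) a = max (-(ord (w.valuation M) q / b)) 0 := by
    rw [haJ w (hJJ v hvJ w hw)]
    exact if_pos ⟨v, hvB, hw⟩
  have e2 : ord (w.valuation M) (τ a) = max (-(ord (w'.valuation M) q / b)) 0 := by
    rw [← hord, haJ w' (hJJ v hvJ w' hwv')]
    exact if_pos ⟨v, hvB, hwv'⟩
  have e3 : ord (w'.valuation M) q = -ord (w.valuation M) q := by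
    rw [hord, hτq, ← one_div, ord_div one_ne_zero hq]
    have : ord (w.valuation M) (1 : M) = 0 := by rw [ord, map_one]; simp
    rw [this, zero_sub]
  obtain ⟨t, ht⟩ := hB v hvB w hw
  rw [e1, e2, e3, ht]
  have h4 : (b : ℤ) * t / b = t := Int.mul_ediv_cancel_left t hb0
  have h5 : -((b : ℤ) * t) / b = -t := by
    rw [← mul_neg]
    exact Int.mul_ediv_cancel_left (-t) hb0
  rw [h4, h5, neg_neg]
  congr 1
  rcases le_total t 0 with h | h
  · rw [max_eq_right h, max_eq_left (by omega)]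
    ring
  · rw [max_eq_left h, max_eq_right (by omega)]
    ring

end Pool.Agent.Lib.MP_ca2859_nt.CC
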