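import Mathlib
import Pool.Agent.Lib.MP_ca2859_nt.CC.Stm

/-!
# Fixed field theorem, part 2: piece MKS
-/

set_option autoImplicit false

open Polynomial WithZero IsDedekindDomain NumberField
open Pool.Agent.Lib.MP_ca2859_nt Pool.Agent.Lib.MP_ca2859_nt.GR

namespace Pool.Agent.Lib.MP_ca2859_nt.CC

theorem piece_MKS (hCLS : S_CLS) : S_MKS := by
  classical
  intro K _ _ θ q b hb hθ hq B hB
  have hfin : {w : HeightOneSpectrum (𝓞 K) |
      (if w ∈ B then (0 : ℤ) else ord (w.valuation K) q / (b : ℤ)) ≠ 0}.Finite := by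
    refine (finite_val_ne_one q hq).subset ?_
    intro w hw h1
    apply hw
    have h2 : ord (w.valuation K) q = 0 := by
      rw [ord, h1]; simp
    split_ifs
    · rfl
    · rw [h2]; simp
  obtain ⟨σ, hσ, J, hJ, hJv⟩ := hCLS K _ hfin
  have h2 : (2 : K) ≠ 0 := two_ne_zero
  have e1 : θ * (1 + σ) - (1 - σ) * θ = 2 * θ * σ := by ring
  have e2 : θ * (1 + σ) + (1 - σ) * θ = 2 * θ := by ring
  refine ⟨θ * (1 + σ), 1 - σ, ?_, ?_, J, hJ, ?_⟩
  · rw [e2]; exact mul_ne_zero h2 hθ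
  · rw [e1]; exact mul_ne_zero (mul_ne_zero h2 hθ) hσ
  · intro v hvB hvJ
    have e3 : (θ * (1 + σ) - (1 - σ) * θ) / (θ * (1 + σ) + (1 - σ) * θ) = σ := by
      rw [e1, e2]; field_simp
    rw [e3, hJv v hvJ, if_neg hvB]
    exact Int.mul_ediv_cancel' (hB v hvB)

end Pool.Agent.Lib.MP_ca2859_nt.CC
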