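import Mathlib
import Pool.Agent.Lib.MP_ca2859_nt.CC.Stm

/-!
# Cyclic covers: monotonicity of `Seen`
-/

set_option autoImplicit false

open Polynomial WithZero IsDedekindDomain NumberField
open Pool.Agent.Lib.MP_ca2859_nt Pool.Agent.Lib.MP_ca2859_nt.GR

namespace Pool.Agent.Lib.MP_ca2859_nt.CC

private theorem MONO_cnt (K : Type) [Field K] [NumberField K] (c c' : ℕ) (hc' : 0 < c')
    (h : c ∣ c') (v : HeightOneSpectrum (𝓞 K)) : cnt c v ≤ cnt c' v := by
  obtain ⟨e, rfl⟩ := h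
  have hc : 0 < c := Nat.pos_of_mul_pos_right hc'
  have he : 0 < e := Nat.pos_of_mul_pos_left hc'
  have h1 := ord_eq_cnt (K := K) c hc v
  have h2 := ord_eq_cnt (K := K) e he v
  have h3 := ord_eq_cnt (K := K) (c * e) hc' v
  have hcK : ((c : ℕ) : K) ≠ 0 := by exact_mod_cast hc.ne'
  have heK : ((e : ℕ) : K) ≠ 0 := by exact_mod_cast he.ne'
  rw [Nat.cast_mul, ord_mul hcK heK, h1, h2] at h3
  have h4 : (cnt c v : ℤ) ≤ (cnt (c * e) v : ℤ) := by
    rw [← h3]
    linarith [Int.natCast_nonneg (cnt e v)]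
  exact_mod_cast h4

theorem piece_MONO : S_MONO := by
  intro g h A A' _ _ hA K _ _ L _ _ _ f α T hf hS
  obtain ⟨D, hD, hM, hloc⟩ := hS
  refine ⟨D, hD, hM.trans ?_, fun v w hvw i hi j hj k hk l hl h1 h2 h3 h4 h5 h6 =>
    (hloc v w hvw i hi j hj k hk l hl h1 h2 h3 h4 h5 h6).trans ?_⟩
  · have hx : A ^ Module.finrank ℚ K * (discr K).natAbs * MC h f ≤
        A' ^ Module.finrank ℚ K * (discr K).natAbs * MC h f :=
      Nat.mul_le_mul_right _ (Nat.mul_le_mul_right _ (Nat.pow_le_pow_left hA _))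
    rcases Nat.eq_zero_or_pos A' with h0 | h0
    · have hA0 : A = 0 := by omega
      rw [h0, hA0]
    · have hpos : 0 < A' ^ Module.finrank ℚ K * (discr K).natAbs * MC h f :=
        Nat.mul_pos (Nat.mul_pos (Nat.pow_pos h0) (one_le_discr K)) (MC_pos h f hf)
      exact (Nat.pow_le_pow_left hx A).trans (Nat.pow_le_pow_right hpos hA)
  · have hc := MONO_cnt K A.factorial A'.factorial (Nat.factorial_pos _)
      (Nat.factorial_dvd_factorial hA) v
    have hn : A * (discExp g D v + cnt A.factorial v) ≤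
        A' * (discExp g D v + cnt A'.factorial v) :=
      Nat.mul_le_mul hA (Nat.add_le_add_left hc _)
    have hn' : ((A * (discExp g D v + cnt A.factorial v) : ℕ) : ℤ) ≤
        ((A' * (discExp g D v + cnt A'.factorial v) : ℕ) : ℤ) := by exact_mod_cast hn
    have he : (0 : ℤ) ≤ ((Ideal.ramificationIdx' v.asIdeal w.asIdeal : ℕ) : ℤ) :=
      Int.natCast_nonneg _
    have := mul_le_mul_of_nonneg_left hn' he
    linarith

end Pool.Agent.Lib.MP_ca2859_nt.CC
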