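import Pool.Agent.Lib.MP_ca2859_nt.CC.Stm
import Pool.Agent.Lib.MP_ca2859_nt.FinalD
import Mathlib

/-!
# Cyclic covers, piece NRM: flip to full degrees
-/

set_option autoImplicit false

open Polynomial WithZero IsDedekindDomain NumberField
open Pool.Agent.Lib.MP_ca2859_nt Pool.Agent.Lib.MP_ca2859_nt.GR

namespace Pool.Agent.Lib.MP_ca2859_nt.CC

private theorem NRM_eval {K : Type} [Field K] (m : ℕ) (t : K) (F : K[X]) (hF : F.natDegree ≤ m)
    (x : K) (hx : x ≠ 0) :
    (reflect m (taylor t F)).eval x = x ^ m * F.eval (x⁻¹ + t) := by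
  rw [eval_reflect _ _ (by rw [natDegree_taylor]; exact hF) x hx, taylor_eval]

private theorem NRM_deg {K : Type} [Field K] (m : ℕ) (t : K) (F : K[X]) (hF : F.natDegree ≤ m)
    (ht : F.eval t ≠ 0) : (reflect m (taylor t F)).natDegree = m := by
  apply le_antisymm
  · exact natDegree_reflect_le' _ _ (by rw [natDegree_taylor]; exact hF)
  · apply le_natDegree_of_ne_zero
    rw [coeff_reflect, revAt_le le_rfl, Nat.sub_self, taylor_coeff_zero]
    exact ht

theorem piece_NRM : S_NRM := by
  intro K _ _ h r m F hh hf hm hs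
  obtain ⟨t, ht⟩ := exists_nonroot h (∏ i, F i) hf
  have hle : (∏ i, F i).natDegree ≤ 2 * h + 2 := by have := hf.2; omega
  have hti : ∀ i, (F i).eval t ≠ 0 := by
    intro i
    rw [eval_prod, Finset.prod_ne_zero_iff] at ht
    exact ht i (Finset.mem_univ i)
  have e : ∏ i, reflect (m i) (taylor t (F i)) = flip h t (∏ i, F i) := by
    have h0 : (∏ i, reflect (m i) (taylor t (F i)) - flip h t (∏ i, F i)) * X = 0 := by
      apply Polynomial.funext
      intro x
      rw [eval_mul, eval_X, eval_zero]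
      by_cases hx : x = 0
      · rw [hx, mul_zero]
      · rw [eval_sub, flip_eval h t _ hle x hx, eval_prod, eval_prod,
          Finset.prod_congr rfl (fun i _ => NRM_eval (m i) t (F i) (hm i) x hx),
          Finset.prod_mul_distrib, Finset.prod_pow_eq_pow_sum, hs, sub_self, zero_mul]
    rcases mul_eq_zero.1 h0 with h1 | h1
    · exact sub_eq_zero.1 h1
    · exact absurd h1 X_ne_zero
  refine ⟨fun i => reflect (m i) (taylor t (F i)), fun i => NRM_deg (m i) t (F i) (hm i) (hti i),
    ?_, ?_, ?_, ?_⟩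
  · rw [e]
    exact flip_hyper h hh t _ hf
  · rw [e]
    exact flip_natDegree h t _ hle ht
  · rw [e]
    exact MC_flip h t _ hle
  · rw [e]
    exact DeltaC_flip h t _ hle

end Pool.Agent.Lib.MP_ca2859_nt.CC
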