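import Mathlib
import Pool.Agent.Lib.MP_ca2859_nt.CC.Stm

set_option autoImplicit false

open Polynomial WithZero IsDedekindDomain NumberField
open Pool.Agent.Lib.MP_ca2859_nt Pool.Agent.Lib.MP_ca2859_nt.GR

namespace Pool.Agent.Lib.MP_ca2859_nt.CC

theorem PAIR_cnt {K : Type} [Field K] [NumberField K] (v : HeightOneSpectrum (𝓞 K)) (m n : ℕ)
    (hm : 0 < m) (hn : 0 < n) (h : m ∣ n) : ord (v.valuation K) ((m : ℕ) : K) ≤ cnt n v := by
  obtain ⟨c, rfl⟩ := h
  have hc : 0 < c := Nat.pos_of_mul_pos_left hn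
  rw [← ord_eq_cnt (m * c) hn v]
  push_cast
  rw [ord_mul (by exact_mod_cast hm.ne') (by exact_mod_cast hc.ne')]
  have : 0 ≤ ord (v.valuation K) (c : K) :=
    ord_nonneg (by simpa using v.valuation_le_one (K := K) (c : 𝓞 K))
  linarith

theorem PAIR_ke (g b : ℕ) (hg : 1 ≤ g)
    (h : b ∣ 2 * g ∨ (b ∣ 2 * g + 2 ∧ b ≤ g + 1)) : ∃ k ε : ℕ, ε ≤ 1 ∧ (1 ≤ k ∨ ε = 1) ∧
      b * (k + 1) + 2 * ε = 2 * g + 2 := by
  rcases h with ⟨c, hc⟩ | ⟨⟨c, hc⟩, hle⟩
  · have hc0 : c ≠ 0 := by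
      rintro rfl
      omega
    obtain ⟨k, rfl⟩ := Nat.exists_eq_succ_of_ne_zero hc0
    exact ⟨k, 1, le_rfl, Or.inr rfl, by rw [← Nat.succ_eq_add_one, ← hc]⟩
  · have hc1 : 2 ≤ c := by
      by_contra hlt
      have : c ≤ 1 := by omega
      have := Nat.mul_le_mul_left b this
      omega
    obtain ⟨k, rfl⟩ := Nat.exists_eq_add_of_le hc1
    exact ⟨k + 1, 0, by omega, Or.inl (by omega), by rw [hc]; ring⟩

theorem PAIR_coeff {L : Type} [Field L] (u v : L) :
    ((X - C u) * (X - C v) : L[X]).coeff 1 = -(u + v) ∧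
    ((X - C u) * (X - C v) : L[X]).coeff 0 = u * v := by
  have h : ((X - C u) * (X - C v) : L[X]) = X ^ 2 + C (-(u + v)) * X + C (u * v) := by
    rw [C_neg, C_add, C_mul]
    ring
  rw [h]
  constructor
  · simp [coeff_X_pow, coeff_C]
  · simp [coeff_X_pow]

theorem PAIR_fin (o1 o2 r W Z : ℤ) (hr : 0 ≤ r) (h1 : o1 ≤ o2 + r * W) (h2 : 2 * W ≤ Z) :
    2 * o1 ≤ 2 * o2 + r * Z := by
  nlinarith [mul_le_mul_of_nonneg_left h2 hr]

theorem PAIR_num (k g A A₀ : ℕ) (hA : A = 16 * (k + 1) * (4 * g + 5) + A₀ + 2) (dn cn : ℕ)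
    (o2 ok : ℤ) (c2 : o2 ≤ cn) (ck : ok ≤ cn) :
    2 * (8 * ((k : ℤ) + 1) * ((dn : ℤ) + (4 * g + 4) * o2 + ok)) ≤
      ((A * (dn + cn) : ℕ) : ℤ) := by
  have e1 : (dn : ℤ) + (4 * g + 4) * o2 + ok ≤ (4 * g + 5) * ((dn : ℤ) + cn) := by
    have a1 : (0 : ℤ) ≤ dn := by positivity
    have a2 : (0 : ℤ) ≤ cn := by positivity
    have a3 : (0 : ℤ) ≤ g := by positivity
    have a4 : (4 * (g : ℤ) + 4) * o2 ≤ (4 * g + 4) * cn :=
      mul_le_mul_of_nonneg_left c2 (by positivity)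
    nlinarith [mul_nonneg a3 a1]
  have e2 : 16 * ((k : ℤ) + 1) * (4 * g + 5) ≤ A := by
    rw [hA]
    push_cast
    linarith [(Nat.cast_nonneg A₀ : (0 : ℤ) ≤ A₀)]
  calc _ = 16 * ((k : ℤ) + 1) * ((dn : ℤ) + (4 * g + 4) * o2 + ok) := by ring
    _ ≤ 16 * ((k : ℤ) + 1) * ((4 * g + 5) * ((dn : ℤ) + cn)) :=
        mul_le_mul_of_nonneg_left e1 (by positivity)
    _ = 16 * ((k : ℤ) + 1) * (4 * g + 5) * ((dn : ℤ) + cn) := by ring
    _ ≤ A * ((dn : ℤ) + cn) := mul_le_mul_of_nonneg_right e2 (by positivity)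
    _ = _ := by push_cast; ring

theorem piece_PAIR (hMCD : S_MCD) (hCRD : S_CRD) (hTRL : S_TRL) : S_PAIR := by
  intro g h b hg hh hb hbg
  obtain ⟨k, ε, hε, hkε, hcard⟩ := PAIR_ke g b hg hbg
  obtain ⟨A₀, hA₀⟩ := hMCD g h b k ε hg hh hb hε hcard
  obtain ⟨A, hA⟩ : ∃ A, A = 16 * (k + 1) * (4 * g + 5) + A₀ + 2 := ⟨_, rfl⟩
  refine ⟨A, ?_⟩
  intro K _ _ L _ _ _ f a α hf ha hα hfm T₁ T₂ q₁ q₂ hdis hT₁ hT₂ hq₁ hq₂
  obtain ⟨x, y, hxy, rfl⟩ := Finset.card_eq_two.1 hT₁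
  rw [Finset.prod_pair hxy] at hq₁
  obtain ⟨hc1, hc0⟩ := PAIR_coeff (α x) (α y)
  rw [← hq₁, coeff_map] at hc1 hc0
  obtain ⟨s, hs⟩ : ∃ s : K, s = q₁.coeff 1 / 2 := ⟨_, rfl⟩
  have hsL : algebraMap K L s = -(α x + α y) / 2 := by
    rw [hs, map_div₀, hc1, map_ofNat]
  obtain ⟨σ, hσ⟩ : ∃ σ : L, σ = algebraMap K L s := ⟨_, rfl⟩
  obtain ⟨θ, hθ⟩ : ∃ θ : L, θ = α x + σ := ⟨_, rfl⟩
  have h20 : (2 : L) ≠ 0 := two_ne_zero
  have hσ' : 2 * σ = -(α x + α y) := by
    rw [hσ, hsL]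
    field_simp
  have hθy : α y + σ = -θ := by
    rw [hθ]
    linear_combination hσ'
  have hθ0 : θ ≠ 0 := by
    intro h0
    have h1 : α x + σ = 0 := by rw [← hθ, h0]
    have h2 : α y + σ = 0 := by rw [hθy, h0, neg_zero]
    exact hxy (hα (by linear_combination h1 - h2))
  obtain ⟨δ, hδ⟩ : ∃ δ : K, δ = s ^ 2 - q₁.coeff 0 := ⟨_, rfl⟩
  have hθδ : θ ^ 2 = algebraMap K L δ := by
    rw [hδ, map_sub, map_pow, hc0, ← hσ, hθ]
    linear_combination (α x) * hσ'
  obtain ⟨f', hf'⟩ : ∃ f', f' = f.comp (X - C s) := ⟨_, rfl⟩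
  obtain ⟨G, hG⟩ : ∃ G, G = q₂.comp (X - C s) := ⟨_, rfl⟩
  obtain ⟨t1, t2⟩ := hTRL K s
  obtain ⟨hf'1, hf'2, hf'3⟩ := t1 h f hf
  rw [← hf'] at hf'1 hf'2 hf'3
  have hf'm : f'.map (algebraMap K L) = C a * ∏ j, (X - C (α j + σ)) := by
    rw [hf', hσ]
    exact t2 f L a (Fin (2 * h + 2)) Finset.univ α hfm
  have hGm : G.map (algebraMap K L) = C 1 * ∏ j ∈ T₂, (X - C (α j + σ)) := by
    rw [hG, hσ]
    exact t2 q₂ L 1 (Fin (2 * h + 2)) T₂ α (by rw [hq₂, C_1, one_mul])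
  have hfd : f'.natDegree = 2 * h + 2 := by
    rw [← natDegree_map (algebraMap K L), hf'm, natDegree_C_mul ha,
      natDegree_prod_of_monic _ _ fun j _ => monic_X_sub_C _]
    simp only [natDegree_X_sub_C]
    simp
  have hGd : G.natDegree = b := by
    rw [← natDegree_map (algebraMap K L), hGm, C_1, one_mul,
      natDegree_prod_of_monic _ _ fun j _ => monic_X_sub_C _]
    simp only [natDegree_X_sub_C]
    simp [hT₂]
  have hdvd : (X ^ 2 - C δ) * G ∣ f' := by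
    rw [← Polynomial.map_dvd_map' (algebraMap K L), Polynomial.map_mul, hGm, hf'm, C_1, one_mul,
      Polynomial.map_sub, Polynomial.map_pow, Polynomial.map_X, Polynomial.map_C, ← hθδ]
    have e1 : (X ^ 2 - C (θ ^ 2) : L[X]) = ∏ j ∈ ({x, y} : Finset (Fin (2 * h + 2))),
        (X - C (α j + σ)) := by
      rw [Finset.prod_pair hxy, ← hθ, hθy, C_neg, C_pow]
      ring
    rw [e1, ← Finset.prod_union hdis]
    exact Dvd.dvd.mul_left (Finset.prod_dvd_prod_of_subset _ _ _ (Finset.subset_univ _)) _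
  obtain ⟨c, d, e, hcd, he, hD, hMC⟩ := hA₀ K f' G δ hf'1 hfd hGd hdvd
  obtain ⟨D, hDD⟩ : ∃ D, D = C e * DD b k ε δ c d G := ⟨_, rfl⟩
  rw [← hDD] at hD hMC
  rw [hf'3] at hMC
  refine ⟨D, hD, ?_, ?_⟩
  · have p1 : 1 ≤ MC h f := MC_pos h f hf
    have p2 : 1 ≤ (discr K).natAbs := one_le_discr K
    have p3 : 1 ≤ A ^ Module.finrank ℚ K := Nat.one_le_pow _ _ (by omega)
    have p4 : 1 ≤ A ^ Module.finrank ℚ K * (discr K).natAbs * MC h f :=
      Nat.mul_pos (Nat.mul_pos p3 p2) p1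
    calc MC g D ≤ (A₀ ^ Module.finrank ℚ K * (discr K).natAbs * MC h f) ^ A₀ := hMC
      _ ≤ (A ^ Module.finrank ℚ K * (discr K).natAbs * MC h f) ^ A₀ := by
          refine Nat.pow_le_pow_left ?_ _
          refine Nat.mul_le_mul_right _ (Nat.mul_le_mul_right _ (Nat.pow_le_pow_left ?_ _))
          omega
      _ ≤ _ := Nat.pow_le_pow_right p4 (by omega)
  · -- the enumeration
    obtain ⟨E, hE⟩ : ∃ E : Fin b → Fin (2 * h + 2), E = fun j => T₂.orderEmbOfFin hT₂ j := ⟨_, rfl⟩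
    have hEmem : ∀ j, E j ∈ T₂ := by
      intro j
      rw [hE]
      exact Finset.orderEmbOfFin_mem T₂ hT₂ j
    have hEinj : Function.Injective E := by
      rw [hE]
      exact (T₂.orderEmbOfFin hT₂).injective
    have hEsurj : ∀ i ∈ T₂, ∃ j, E j = i := by
      intro i hi
      have : i ∈ Set.range (T₂.orderEmbOfFin hT₂) := by
        rw [Finset.range_orderEmbOfFin]
        exact hi
      rw [hE]
      exact this
    have hprod : ∏ j ∈ T₂, (X - C (α j + σ)) = ∏ j : Fin b, (X - C (α (E j) + σ)) := by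
      have himg : T₂ = Finset.univ.image E := by
        ext i
        rw [Finset.mem_image]
        constructor
        · intro hi
          obtain ⟨j, hj⟩ := hEsurj i hi
          exact ⟨j, Finset.mem_univ _, hj⟩
        · rintro ⟨j, -, rfl⟩
          exact hEmem j
      rw [himg, Finset.prod_image fun i _ j _ hij => hEinj hij]
    have hxT : x ∉ T₂ := fun hx => Finset.disjoint_left.1 hdis (by simp) hx
    have hyT : y ∉ T₂ := fun hy => Finset.disjoint_left.1 hdis (by simp) hy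
    obtain ⟨τ, hτ⟩ : ∃ τ : Fin b ⊕ Fin 2 → Fin (2 * h + 2),
        τ = Sum.elim E (fun q : Fin 2 => if (q : ℕ) = 0 then x else y) := ⟨_, rfl⟩
    have hpts : ∀ i, pts θ (fun j => α (E j) + σ) i = α (τ i) + σ := by
      intro i
      rcases i with j | q
      · rw [hτ]
        rfl
      · rw [hτ]
        simp only [pts, Sum.elim_inr]
        split_ifs
        · exact hθ
        · exact hθy.symm
    have hτinj : Function.Injective τ := by
      intro i j hij
      rw [hτ] at hij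
      rcases i with i | i <;> rcases j with j | j
      · exact congrArg Sum.inl (hEinj hij)
      · simp only [Sum.elim_inl, Sum.elim_inr] at hij
        exfalso
        split_ifs at hij
        · exact hxT (hij ▸ hEmem i)
        · exact hyT (hij ▸ hEmem i)
      · simp only [Sum.elim_inl, Sum.elim_inr] at hij
        exfalso
        split_ifs at hij
        · exact hxT (hij ▸ hEmem j)
        · exact hyT (hij ▸ hEmem j)
      · simp only [Sum.elim_inr] at hij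
        congr 1
        have hi := i.2
        have hj := j.2
        split_ifs at hij with h1 h2 h2
        · exact Fin.ext (by omega)
        · exact absurd hij hxy
        · exact absurd hij.symm hxy
        · exact Fin.ext (by omega)
    have hptsinj : Function.Injective (pts θ (fun j => α (E j) + σ)) := by
      intro i j hij
      rw [hpts, hpts] at hij
      exact hτinj (hα (add_right_cancel hij))
    have hτsurj : ∀ i ∈ ({x, y} : Finset (Fin (2 * h + 2))) ∪ T₂, ∃ j, τ j = i := by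
      intro i hi
      rw [hτ]
      rcases Finset.mem_union.1 hi with hi | hi
      · rcases Finset.mem_insert.1 hi with rfl | hi
        · exact ⟨Sum.inr 0, by simp⟩
        · rw [Finset.mem_singleton] at hi
          subst hi
          exact ⟨Sum.inr 1, by simp⟩
      · obtain ⟨j, hj⟩ := hEsurj i hi
        exact ⟨Sum.inl j, hj⟩
    intro v w hwv i hi j hj i' hi' j' hj' h1 h2 h3 h4 h5 h6
    have hGm' : G.map (algebraMap K L) = C 1 * ∏ j, (X - C (α (E j) + σ)) := by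
      rw [hGm, hprod]
    have key := hCRD K L g b k ε hg hε hkε hcard v w hwv G δ c d e θ 1 (fun j => α (E j) + σ)
      one_ne_zero hθ0 hptsinj hθδ hGm' hcd he
    rw [← hDD] at key
    obtain ⟨I, rfl⟩ := hτsurj i hi
    obtain ⟨J, rfl⟩ := hτsurj j hj
    obtain ⟨I', rfl⟩ := hτsurj i' hi'
    obtain ⟨J', rfl⟩ := hτsurj j' hj'
    have hk := key I J I' J' (fun hh => h1 (by rw [hh])) (fun hh => h2 (by rw [hh]))
      (fun hh => h3 (by rw [hh])) (fun hh => h4 (by rw [hh])) (fun hh => h5 (by rw [hh]))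
      (fun hh => h6 (by rw [hh]))
    simp only [hpts, add_sub_add_right_eq_sub] at hk
    have hfac : 0 < A.factorial := Nat.factorial_pos A
    have c2 : ord (v.valuation K) (2 : K) ≤ cnt A.factorial v := by
      have := PAIR_cnt v 2 A.factorial (by norm_num) hfac
        (Nat.dvd_factorial (by norm_num) (by omega))
      simpa using this
    have hkA : k + 1 ≤ A := by
      rw [hA]
      nlinarith
    have ck : ord (v.valuation K) ((k + 1 : ℕ) : K) ≤ cnt A.factorial v :=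
      PAIR_cnt v (k + 1) A.factorial (by omega) hfac (Nat.dvd_factorial (by omega) hkA)
    obtain ⟨r, hr⟩ : ∃ r : ℕ, r = Ideal.ramificationIdx' v.asIdeal w.asIdeal := ⟨_, rfl⟩
    rw [← hr] at hk ⊢
    have hr0 : (0 : ℤ) ≤ (r : ℤ) := by positivity
    have hin := PAIR_num k g A A₀ hA (discExp g D v) (cnt A.factorial v) _ _ c2 ck
    exact PAIR_fin _ _ _ _ _ hr0 hk hin

end Pool.Agent.Lib.MP_ca2859_nt.CC
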