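import Pool.Agent.Lib.MP_ca2859_nt.CC.Stm

/-!
# Cyclic covers, piece RTS
-/

set_option autoImplicit false

open Polynomial WithZero IsDedekindDomain NumberField
open Pool.Agent.Lib.MP_ca2859_nt Pool.Agent.Lib.MP_ca2859_nt.GR

namespace Pool.Agent.Lib.MP_ca2859_nt.CC

theorem RTS_prod {F : Type} [Field F] (b : ℕ) (θ g0 : F) (β : Fin b → F) :
    (X ^ 2 - C (θ ^ 2)) * (C g0 * ∏ j, (X - C (β j))) =
      C g0 * ∏ i, (X - C (pts θ β i)) := by
  rw [Fintype.prod_sum_type, Fin.prod_univ_two]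
  have h1 : (X - C (pts θ β (Sum.inr 0)) : F[X]) = X - C θ := rfl
  have h2 : (X - C (pts θ β (Sum.inr 1)) : F[X]) = X + C θ := by
    show X - C (-θ) = X + C θ
    rw [C_neg, sub_neg_eq_add]
  have h3 : ∏ j, (X - C (pts θ β (Sum.inl j)) : F[X]) = ∏ j, (X - C (β j)) := rfl
  rw [h1, h2, h3, C_pow]
  ring

theorem piece_RTS : S_RTS := by
  intro F _ _ n b f G a g0 θ α β hsep ha hf hg hG hdvd
  have h1 : ((X ^ 2 - C (θ ^ 2)) * G).Separable := hsep.of_dvd hdvd
  rw [hG, RTS_prod] at h1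
  have hinj : Function.Injective (pts θ β) := separable_prod_X_sub_C_iff.1 h1.of_mul_right
  refine ⟨?_, hinj, ?_⟩
  · intro h0
    have h2 : pts θ β (Sum.inr 0) = pts θ β (Sum.inr 1) := by
      show θ = -θ
      rw [h0, neg_zero]
    have h3 := hinj h2
    simp at h3
  · have h2 : ∀ i, ∃ j, α j = pts θ β i := by
      intro i
      have h3 : f.eval (pts θ β i) = 0 := by
        obtain ⟨q, hq⟩ := hdvd
        rw [hq, hG, RTS_prod, eval_mul, eval_mul, eval_prod,
          Finset.prod_eq_zero (Finset.mem_univ i) (by simp), mul_zero, zero_mul]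
      rw [hf, eval_mul, eval_C, eval_prod] at h3
      rcases mul_eq_zero.1 h3 with h4 | h4
      · exact absurd h4 ha
      · obtain ⟨j, -, hj⟩ := Finset.prod_eq_zero_iff.1 h4
        refine ⟨j, ?_⟩
        rw [eval_sub, eval_X, eval_C] at hj
        exact (sub_eq_zero.1 hj).symm
    choose τ hτ using h2
    exact ⟨τ, fun i j hij => hinj (by rw [← hτ, ← hτ, hij]), hτ⟩

end Pool.Agent.Lib.MP_ca2859_nt.CC
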