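import Mathlib
import Pool.Agent.Lib.MP_ca2859_nt.CC.Stm

set_option autoImplicit false

open Polynomial WithZero IsDedekindDomain NumberField
open Pool.Agent.Lib.MP_ca2859_nt Pool.Agent.Lib.MP_ca2859_nt.GR

namespace Pool.Agent.Lib.MP_ca2859_nt.CC

section tau
variable {R : Type} [CommRing R] [IsDedekindDomain R]

/-- inverse image of a place under a ring automorphism -/
noncomputable def tauPl (σ : R ≃+* R) (w : HeightOneSpectrum R) : HeightOneSpectrum R where
  asIdeal := w.asIdeal.comap (σ : R →+* R)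
  isPrime := w.isPrime.comap _
  ne_bot := by
    intro h
    apply w.ne_bot
    rw [eq_bot_iff]
    intro x hx
    have h1 : σ.symm x ∈ w.asIdeal.comap (σ : R →+* R) := by
      rw [Ideal.mem_comap]
      simpa using hx
    rw [h, Ideal.mem_bot] at h1
    rw [Ideal.mem_bot]
    simpa using congrArg σ h1

omit [IsDedekindDomain R] in
theorem tauPl_pow (σ : R ≃+* R) (w : HeightOneSpectrum R) (n : ℕ) (x : R) :
    x ∈ (tauPl σ w).asIdeal ^ n ↔ σ x ∈ w.asIdeal ^ n := by
  have h1 : (tauPl σ w).asIdeal = w.asIdeal.map (σ.symm : R →+* R) := by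
    show w.asIdeal.comap (σ : R →+* R) = _
    exact (Ideal.map_symm σ).symm
  rw [h1, ← Ideal.map_pow]
  have h2 : Ideal.map (σ.symm : R →+* R) (w.asIdeal ^ n) =
      (w.asIdeal ^ n).comap (σ : R →+* R) := Ideal.map_symm σ
  rw [h2, Ideal.mem_comap]
  rfl

theorem tauPl_int (σ : R ≃+* R) (w : HeightOneSpectrum R) (x : R) :
    (tauPl σ w).intValuation x = w.intValuation (σ x) := by
  rcases eq_or_ne x 0 with rfl | hx
  · simp
  have hsx : σ x ≠ 0 := by simpa using hx
  apply le_antisymm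
  · have h1 := HeightOneSpectrum.intValuation_if_neg w hsx
    rw [h1, HeightOneSpectrum.intValuation_le_pow_iff_mem, tauPl_pow,
      ← HeightOneSpectrum.intValuation_le_pow_iff_mem, h1]
  · have h1 := HeightOneSpectrum.intValuation_if_neg (tauPl σ w) hx
    rw [h1, HeightOneSpectrum.intValuation_le_pow_iff_mem, ← tauPl_pow,
      ← HeightOneSpectrum.intValuation_le_pow_iff_mem, h1]

end tau

theorem piece_TAU : S_TAU := by
  intro K M _ _ _ _ _ τ w
  set σ : 𝓞 M ≃+* 𝓞 M := NumberField.RingOfIntegers.mapRingEquiv (τ : M ≃+* M) with hσ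
  have hσa : ∀ x : 𝓞 M, ((σ x : 𝓞 M) : M) = τ (x : M) := fun x => rfl
  refine ⟨tauPl σ w, ?_, ?_⟩
  · intro v hv
    refine ⟨?_⟩
    have h1 : v.asIdeal = w.asIdeal.comap (algebraMap (𝓞 K) (𝓞 M)) := hv.over
    rw [h1]
    ext y
    show algebraMap (𝓞 K) (𝓞 M) y ∈ w.asIdeal ↔ σ (algebraMap (𝓞 K) (𝓞 M) y) ∈ w.asIdeal
    have h2 : σ (algebraMap (𝓞 K) (𝓞 M) y) = algebraMap (𝓞 K) (𝓞 M) y := by
      apply NumberField.RingOfIntegers.ext
      rw [hσa]
      have h3 : ((algebraMap (𝓞 K) (𝓞 M) y : 𝓞 M) : M) = algebraMap K M (y : K) := rfl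
      rw [h3]
      exact τ.commutes _
    rw [h2]
  · intro x
    have key : (tauPl σ w).valuation M x = w.valuation M (τ x) := by
      obtain ⟨a, b, hb, rfl⟩ := IsFractionRing.div_surjective (A := 𝓞 M) x
      rw [map_div₀, map_div₀, map_div₀]
      have e : ∀ a : 𝓞 M, (tauPl σ w).valuation M (algebraMap (𝓞 M) M a) =
          w.valuation M (τ (algebraMap (𝓞 M) M a)) := by
        intro a
        have h3 : τ (algebraMap (𝓞 M) M a) = algebraMap (𝓞 M) M (σ a) := rfl
        rw [h3, HeightOneSpectrum.valuation_of_algebraMap, HeightOneSpectrum.valuation_of_algebraMap,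
          tauPl_int]
      rw [e, e]
    unfold ord
    rw [key]

end Pool.Agent.Lib.MP_ca2859_nt.CC
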