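import Mathlib
import Pool.Agent.Lib.MP_ca2859_nt.TwLow
import Pool.Agent.Lib.MP_ca2859_nt.CC.Stm

/-!
# Piece TRL: translation of the coordinate
-/

set_option autoImplicit false

open Polynomial WithZero IsDedekindDomain NumberField
open Pool.Agent.Lib.MP_ca2859_nt Pool.Agent.Lib.MP_ca2859_nt.GR

namespace Pool.Agent.Lib.MP_ca2859_nt.CC

theorem TRL_sep {K : Type} [Field K] (s : K) (f : K[X]) (hf : f.Separable) :
    (f.comp (X - C s)).Separable := by
  rw [separable_def] at hf ⊢
  have h := hf.map (compRingHom (X - C s))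
  simp only [coe_compRingHom_apply] at h
  rw [derivative_comp, derivative_sub, derivative_X, derivative_C, sub_zero, one_mul]
  exact h

theorem TRL_deg {K : Type} [Field K] (s : K) (f : K[X]) :
    (f.comp (X - C s)).natDegree = f.natDegree := by
  rw [natDegree_comp, natDegree_X_sub_C, mul_one]

theorem TRL_same {K : Type} [Field K] (s : K) (g : ℕ) (f : K[X]) :
    SameCurve g f (f.comp (X - C s)) := by
  refine ⟨1, -s, 0, 1, 1, by simp, one_ne_zero, fun x _ => ?_⟩
  rw [eval_comp, eval_sub, eval_X, eval_C]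
  simp [sub_eq_add_neg]

theorem piece_TRL : S_TRL := by
  intro K _ _ s
  refine ⟨?_, ?_⟩
  · intro h f hf
    have hd := TRL_deg s f
    refine ⟨⟨TRL_sep s f hf.1, by rw [hd]; exact hf.2⟩, hd, ?_⟩
    have hle : f.natDegree ≤ 2 * h + 2 := by
      rcases hf.2 with h1 | h1 <;> omega
    unfold MC
    apply finprod_congr
    intro v
    rw [discExp_same h f (f.comp (X - C s)) hle (by rw [hd]; exact hle) (TRL_same s h f) v]
  · intro p L _ _ a ι T α hp
    rw [Polynomial.map_comp, hp, Polynomial.map_sub, Polynomial.map_X, Polynomial.map_C,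
      mul_comp, C_comp, prod_comp]
    congr 1
    apply Finset.prod_congr rfl
    intro j _
    rw [sub_comp, X_comp, C_comp, C_add]
    ring

end Pool.Agent.Lib.MP_ca2859_nt.CC
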