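import Mathlib
import Pool.Agent.Lib.MP_ca2859_nt.CC.Stm

/-!
# Fixed field theorem, part 2: piece ADMP
-/

set_option autoImplicit false

open Polynomial WithZero IsDedekindDomain NumberField
open Pool.Agent.Lib.MP_ca2859_nt Pool.Agent.Lib.MP_ca2859_nt.GR

namespace Pool.Agent.Lib.MP_ca2859_nt.CC

theorem piece_ADMP (hP : S_PAIR) (hD : S_DIRE) : S_ADMP := by
  intro g h a₁ a₂ hg hh h1 h2 hadm
  rcases hadm with hsum | ⟨ha, hb⟩ | ⟨ha, hb⟩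
  · obtain ⟨A, hA⟩ := hD g h hg hh
    refine ⟨A, ?_⟩
    intro K _ _ L _ _ _ f a α hf ha hα hfac T₁ T₂ q₁ q₂ hdis hc1 hc2 hq1 hq2
    refine hA K L f a α hf ha hα hfac (T₁ ∪ T₂) (q₁ * q₂) ?_ ?_
    · rw [Finset.card_union_of_disjoint hdis, hc1, hc2, hsum]
    · rw [Polynomial.map_mul, hq1, hq2, Finset.prod_union hdis]
  · obtain ⟨A, hA⟩ := hP g h a₂ hg hh (by omega) hb
    refine ⟨A, ?_⟩
    intro K _ _ L _ _ _ f a α hf ha0 hα hfac T₁ T₂ q₁ q₂ hdis hc1 hc2 hq1 hq2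
    exact hA K L f a α hf ha0 hα hfac T₁ T₂ q₁ q₂ hdis (by rw [hc1, ha]) hc2 hq1 hq2
  · obtain ⟨A, hA⟩ := hP g h a₁ hg hh (by omega) hb
    refine ⟨A, ?_⟩
    intro K _ _ L _ _ _ f a α hf ha0 hα hfac T₁ T₂ q₁ q₂ hdis hc1 hc2 hq1 hq2
    have := hA K L f a α hf ha0 hα hfac T₂ T₁ q₂ q₁ hdis.symm (by rw [hc2, ha]) hc1 hq2 hq1
    rwa [Finset.union_comm] at this

end Pool.Agent.Lib.MP_ca2859_nt.CC
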