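import Mathlib
import Pool.Agent.Lib.MP_ca2859_nt.CC.Stm

/-!
# Fixed field theorem, part 2: piece DIRE
-/

set_option autoImplicit false

open Polynomial WithZero IsDedekindDomain NumberField
open Pool.Agent.Lib.MP_ca2859_nt Pool.Agent.Lib.MP_ca2859_nt.GR

namespace Pool.Agent.Lib.MP_ca2859_nt.CC

/-- `ord 2 ≤ cnt A!` for `A ≥ 2` -/
theorem ord_two_le_cnt_factorial {K : Type} [Field K] [NumberField K]
    (v : HeightOneSpectrum (𝓞 K)) (A m : ℕ) (hm : 1 ≤ m) (hA : m ≤ A) :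
    ord (v.valuation K) ((m : ℕ) : K) ≤ (cnt A.factorial v : ℤ) ∧
      0 ≤ ord (v.valuation K) ((m : ℕ) : K) := by
  obtain ⟨k, hk⟩ := Nat.dvd_factorial (by omega : 0 < m) hA
  have hf : 0 < A.factorial := Nat.factorial_pos A
  have hk0 : 0 < k := by
    rcases Nat.eq_zero_or_pos k with h | h
    · rw [h, mul_zero] at hk; omega
    · exact h
  have h1 := ord_eq_cnt (K := K) A.factorial hf v
  have h2 := ord_eq_cnt (K := K) m (by omega) v
  have h3 := ord_eq_cnt (K := K) k hk0 v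
  have hm0 : ((m : ℕ) : K) ≠ 0 := by exact_mod_cast (by omega : m ≠ 0)
  have hkK : ((k : ℕ) : K) ≠ 0 := by exact_mod_cast hk0.ne'
  have e1 : ((A.factorial : ℕ) : K) = ((m : ℕ) : K) * ((k : ℕ) : K) := by
    rw [hk]; push_cast; ring
  rw [e1, ord_mul hm0 hkK] at h1
  omega

theorem piece_DIRE (hT : FF.S_TMC) (hC : FF.S_CR6) : S_DIRE := by
  intro g h hg hh
  refine ⟨4 * (2 * h + 2) + 4 * g + 4, ?_⟩
  intro K _ _ L _ _ _ f a α hf ha hα hfac T q hT4 hq
  obtain ⟨e, he, hH, hMC⟩ := hT K L h hh f hf a ha α hα hfac T q g hg hT4 hq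
  set A : ℕ := 4 * (2 * h + 2) + 4 * g + 4 with hAdef
  refine ⟨C e * q, hH, ?_, ?_⟩
  · have hb : (4 * (2 * h + 2)) ^ Module.finrank ℚ K * (discr K).natAbs * MC h f ≤
        A ^ Module.finrank ℚ K * (discr K).natAbs * MC h f :=
      Nat.mul_le_mul_right _ (Nat.mul_le_mul_right _ (Nat.pow_le_pow_left (by omega) _))
    have hpos : 0 < A ^ Module.finrank ℚ K * (discr K).natAbs * MC h f :=
      Nat.mul_pos (Nat.mul_pos (Nat.pow_pos (by omega)) (one_le_discr K)) (MC_pos h f hf)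
    exact (hMC.trans hb).trans (Nat.le_self_pow (by omega) _)
  · intro v w hw i hi j hj k hk l hl hij hik hil hjk hjl hkl
    have h1 := hC K L v w hw (2 * h + 2) α hα T q g hg hT4 hq e he i hi j hj k hk l hl
      hij hik hil hjk hjl hkl
    refine h1.trans (add_le_add le_rfl (mul_le_mul_of_nonneg_left ?_ (Int.natCast_nonneg _)))
    obtain ⟨h2, h3⟩ := ord_two_le_cnt_factorial (K := K) v A 2 (by omega) (by omega)
    have h4 : ((2 : ℕ) : K) = (2 : K) := by norm_num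
    rw [h4] at h2 h3
    push_cast
    have h5 : (0 : ℤ) ≤ (discExp g (C e * q) v : ℤ) := Int.natCast_nonneg _
    have h6 : ((4 * g + 4 : ℕ) : ℤ) ≤ (A : ℤ) := by exact_mod_cast (by omega : 4 * g + 4 ≤ A)
    have h7 : (1 : ℤ) ≤ (A : ℤ) := by exact_mod_cast (by omega : 1 ≤ A)
    push_cast at h6
    nlinarith [mul_nonneg h5 (sub_nonneg.2 h7), mul_nonneg h3 (sub_nonneg.2 h6),
      mul_nonneg (by linarith : (0 : ℤ) ≤ (A : ℤ)) (sub_nonneg.2 h2)]

end Pool.Agent.Lib.MP_ca2859_nt.CC
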