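import Pool.Agent.Lib.MP_ca2859_nt.CC.Stm
import Pool.Agent.Lib.MP_ca2859_nt.GR.T1

/-!
# Cyclic covers, piece MCD: the bad primes of the covering curve
-/

set_option autoImplicit false

open Polynomial WithZero IsDedekindDomain NumberField
open Pool.Agent.Lib.MP_ca2859_nt Pool.Agent.Lib.MP_ca2859_nt.GR

namespace Pool.Agent.Lib.MP_ca2859_nt.CC

private theorem MCD_norm_pos {K : Type} [Field K] [NumberField K] (v : HeightOneSpectrum (𝓞 K)) :
    1 ≤ Ideal.absNorm v.asIdeal := by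
  rw [Nat.one_le_iff_ne_zero, Ne, Ideal.absNorm_eq_zero_iff]
  exact v.ne_bot

private theorem MCD_union {K : Type} [Field K] [NumberField K]
    (A B C D E : Finset (HeightOneSpectrum (𝓞 K)))
    (h : ∀ v ∈ E, v ∈ A ∨ v ∈ B ∨ v ∈ C ∨ v ∈ D) :
    ∏ v ∈ E, Ideal.absNorm v.asIdeal ≤
      (∏ v ∈ A, Ideal.absNorm v.asIdeal) * (∏ v ∈ B, Ideal.absNorm v.asIdeal) *
        (∏ v ∈ C, Ideal.absNorm v.asIdeal) * ∏ v ∈ D, Ideal.absNorm v.asIdeal := by
  classical
  have key : ∀ X Y : Finset (HeightOneSpectrum (𝓞 K)), ∏ v ∈ X ∪ Y, Ideal.absNorm v.asIdeal ≤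
      (∏ v ∈ X, Ideal.absNorm v.asIdeal) * ∏ v ∈ Y, Ideal.absNorm v.asIdeal := by
    intro X Y
    have h2 := Finset.prod_union_inter (s₁ := X) (s₂ := Y)
      (f := fun v : HeightOneSpectrum (𝓞 K) => Ideal.absNorm v.asIdeal)
    rw [← h2]
    refine Nat.le_mul_of_pos_right _ ?_
    exact Finset.prod_pos fun v _ => MCD_norm_pos v
  have h1 : ∏ v ∈ E, Ideal.absNorm v.asIdeal ≤ ∏ v ∈ ((A ∪ B) ∪ C) ∪ D, Ideal.absNorm v.asIdeal :=
    Finset.prod_le_prod_of_subset_of_one_le' (fun v hv => by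
      simp only [Finset.mem_union]
      have := h v hv
      tauto) (fun v _ _ => MCD_norm_pos v)
  refine h1.trans ((key _ _).trans (Nat.mul_le_mul_right _ ((key _ _).trans
    (Nat.mul_le_mul_right _ (key _ _)))))

/-- Over the field of all branch points the covering curve splits. -/
private theorem MCD_pfac (hFACT : S_FACT) {K L' : Type} [Field K] [NumberField K] [Field L']
    [NumberField L'] [Algebra K L'] (b k ε : ℕ) (hε : ε ≤ 1) (δ c d : K) (G : K[X])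
    (θ ζ g0 : L') (β ω : Fin b → L') (hg0 : g0 ≠ 0) (hθ : θ ^ 2 = algebraMap K L' δ)
    (hG : G.map (algebraMap K L') = C g0 * ∏ j, (X - C (β j)))
    (hC : Cov k θ (algebraMap K L' c) (algebraMap K L' d) ζ β ω) (e : K) (he : e ≠ 0) :
    ∃ u : L', PFac ((C e * DD b k ε δ c d G).map (algebraMap K L')) u
      (xx (b := b) (k := k) (ε := ε) θ ζ ω) (zz (b := b) (k := k) (ε := ε) ζ ω) := by
  have h := hFACT L' b k ε θ (algebraMap K L' c) (algebraMap K L' d) ζ g0 β ω hε hg0 hC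
  have hD : (DD b k ε δ c d G).map (algebraMap K L') =
      DD b k ε (θ ^ 2) (algebraMap K L' c) (algebraMap K L' d) (C g0 * ∏ j, (X - C (β j))) := by
    rw [DD_map, hθ, hG]
  have he' : algebraMap K L' e ≠ 0 := by
    rw [Ne, FaithfulSMul.algebraMap_eq_zero_iff]
    exact he
  refine ⟨algebraMap K L' e * (g0 * ∏ j, ((β j + θ) * (algebraMap K L' c +
    algebraMap K L' d * θ) ^ k / (2 * θ))), ?_, ?_, h.ind⟩
  · exact mul_ne_zero he' h.u0
  · rw [Polynomial.map_mul, Polynomial.map_C, hD, h.fac, C_mul (a := algebraMap K L' e), mul_assoc]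

private theorem MCD_core (hRTS : S_RTS) (hFRP : S_FRP) (hCDJ : S_CDJ) (hCOVE : S_COVE)
    (hFACT : S_FACT) (hHYP : S_HYP) (hLOCD : S_LOCD) (hFINI : S_FINI) (hGLOB : FF.S_GLOB)
    {g h b k ε : ℕ} (hg : 1 ≤ g) (hh : 1 ≤ h) (hb : 1 ≤ b) (hε : ε ≤ 1)
    (hcard : b * (k + 1) + 2 * ε = 2 * g + 2) {K L₀ : Type} [Field K] [NumberField K]
    [Field L₀] [NumberField L₀] [Algebra K L₀] (f G : K[X]) (δ : K) (hf : IsHyperelliptic h f)
    (hdvd : (X ^ 2 - C δ) * G ∣ f) (a g0 θ : L₀) (α : Fin (2 * h + 2) → L₀) (β : Fin b → L₀)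
    (ha : a ≠ 0) (hα : f.map (algebraMap K L₀) = C a * ∏ j, (X - C (α j))) (hg0 : g0 ≠ 0)
    (hβ : G.map (algebraMap K L₀) = C g0 * ∏ j, (X - C (β j)))
    (hθ : θ ^ 2 = algebraMap K L₀ δ) :
    ∃ c d e : K, c ^ 2 - δ * d ^ 2 ≠ 0 ∧ e ≠ 0 ∧ IsHyperelliptic g (C e * DD b k ε δ c d G) ∧
      MC g (C e * DD b k ε δ c d G) ≤ (∏ v ∈ SB h f, Ideal.absNorm v.asIdeal) *
        (k + 1) ^ Module.finrank ℚ K * (4 ^ Module.finrank ℚ K * (discr L₀).natAbs) *
        (2 ^ Module.finrank ℚ K * (discr K).natAbs) := by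
  classical
  have hdvd' : (X ^ 2 - C (θ ^ 2)) * G.map (algebraMap K L₀) ∣ f.map (algebraMap K L₀) := by
    have := Polynomial.map_dvd (algebraMap K L₀) hdvd
    rw [Polynomial.map_mul, Polynomial.map_sub, Polynomial.map_pow, Polynomial.map_X,
      Polynomial.map_C, ← hθ] at this
    exact this
  obtain ⟨hθ0, hinj, -⟩ := hRTS L₀ (2 * h + 2) b (f.map (algebraMap K L₀))
    (G.map (algebraMap K L₀)) a g0 θ α β hf.1.map ha hα hg0 hβ hdvd'
  obtain ⟨c, d, hcp, hcm, J₁, hJ₁, hval⟩ := hCDJ K L₀ h b hh hb f G δ θ a g0 α β hf ha hα hg0 hβ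
    hθ hdvd
  obtain ⟨L', i1, i2, i3, i4, i5, ζ, ω, hCov⟩ := hCOVE K L₀ b k θ β c d hθ0 hinj hcp hcm
  set φ := algebraMap L₀ L' with hφ
  have hcomp : ∀ x : K, algebraMap K L' x = φ (algebraMap K L₀ x) := fun x =>
    IsScalarTower.algebraMap_apply K L₀ L' x
  have hcomp' : (algebraMap K L') = φ.comp (algebraMap K L₀) := RingHom.ext hcomp
  have hθ' : (φ θ) ^ 2 = algebraMap K L' δ := by
    rw [hcomp, ← hθ, map_pow]
  have hmapprod : ∀ (n : ℕ) (p : K[X]) (x : L₀) (γ : Fin n → L₀),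
      p.map (algebraMap K L₀) = C x * ∏ j, (X - C (γ j)) →
      p.map (algebraMap K L') = C (φ x) * ∏ j, (X - C (φ (γ j))) := by
    intro n p x γ hp
    rw [hcomp', ← Polynomial.map_map, hp, Polynomial.map_mul, Polynomial.map_C,
      Polynomial.map_prod]
    congr 1
    refine Finset.prod_congr rfl ?_
    intro j _
    rw [Polynomial.map_sub, Polynomial.map_X, Polynomial.map_C]
  have hβ' := hmapprod b G g0 β hβ
  have hα' := hmapprod (2 * h + 2) f a α hα
  have hg0' : φ g0 ≠ 0 := by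
    rw [Ne, FaithfulSMul.algebraMap_eq_zero_iff]
    exact hg0
  have ha' : φ a ≠ 0 := by
    rw [Ne, FaithfulSMul.algebraMap_eq_zero_iff]
    exact ha
  have hcardI : Fintype.card (Ix b k ε) = 2 * g + 2 := by
    rw [← hcard]
    simp [Ix, Fintype.card_sum, Fintype.card_prod, Fintype.card_fin]
  have hhyp : ∀ e : K, e ≠ 0 → IsHyperelliptic g (C e * DD b k ε δ c d G) := by
    intro e he
    obtain ⟨u, hu⟩ := MCD_pfac hFACT b k ε hε δ c d G (φ θ) ζ (φ g0) (fun j => φ (β j)) ω hg0' hθ'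
      hβ' hCov e he
    exact hHYP K L' g _ (Ix b k ε) u _ _ hcardI hu
  have hhyp1 : IsHyperelliptic g (DD b k ε δ c d G) := by
    have := hhyp 1 one_ne_zero
    rwa [C_1, one_mul] at this
  have hcd : c ^ 2 - δ * d ^ 2 ≠ 0 := by
    intro h0
    have h1 := congrArg (algebraMap K L₀) h0
    rw [map_sub, map_mul, map_pow, map_pow, map_zero, ← hθ] at h1
    refine mul_ne_zero hcp hcm ?_
    linear_combination h1
  have hk0 : ((k + 1 : ℕ) : K) ≠ 0 := by
    rw [Nat.cast_ne_zero]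
    omega
  set Bk : Finset (HeightOneSpectrum (𝓞 K)) := (finite_val_ne_one ((k + 1 : ℕ) : K) hk0).toFinset
    with hBk
  obtain ⟨e, he, J₂, hJ₂, hgood⟩ := hGLOB K (fun e v => discExp g (C e * DD b k ε δ c d G) v = 0)
    ((SB h f ∪ Bk) ∪ J₁)
    (by
      intro v hv
      simp only [Finset.mem_union, not_or] at hv
      obtain ⟨⟨hv1, hv2⟩, hv3⟩ := hv
      obtain ⟨h2v, -, -⟩ := not_mem_SB h f hf v hv1
      have hkv : v.valuation K ((k + 1 : ℕ) : K) = 1 := by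
        rw [hBk, Set.Finite.mem_toFinset] at hv2
        by_contra hcon
        exact hv2 hcon
      obtain ⟨w₀, hw₀⟩ := exists_place_above (K := K) (L := L₀) v
      obtain ⟨w, hw⟩ := exists_place_above (K := L₀) (L := L') w₀
      have hwv : w.asIdeal.LiesOver v.asIdeal :=
        Ideal.LiesOver.trans w.asIdeal w₀.asIdeal v.asIdeal
      obtain ⟨α₀, ρ, hfar⟩ := hFRP K L' h b hh f G δ (φ θ) (φ a) (φ g0) (fun j => φ (α j))
        (fun j => φ (β j)) hf ha' hα' hg0' hβ' hθ' hdvd v hv1 w hwv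
      refine hLOCD K L' g b k ε hg hε hcard v w hwv h2v hkv G δ c d α₀ ρ (φ θ) ζ (φ g0)
        (fun j => φ (β j)) ω hg0' hθ' hβ' hCov hfar ?_
      intro j
      have h3 := hval v hv1 hv3 w₀ hw₀ j
      have h4 := HeightOneSpectrum.valuation_liesOver L' w₀ w ((algebraMap K L₀ c -
        algebraMap K L₀ d * θ) / (algebraMap K L₀ c + algebraMap K L₀ d * θ))
      have h5 := HeightOneSpectrum.valuation_liesOver L' w₀ w ((β j - θ) / (β j + θ))
      rw [h3] at h4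
      have h6 := h4.symm.trans h5
      rw [hcomp c, hcomp d]
      rw [← map_mul φ, ← map_sub φ, ← map_add φ, ← map_div₀ φ, ← map_sub φ, ← map_add φ,
        ← map_div₀ φ]
      exact h6)
    (hFINI K g hg _ hhyp1)
  refine ⟨c, d, e, hcd, he, hhyp e he, ?_⟩
  rw [MC_eq_prod g _ (hhyp e he)]
  refine (MCD_union (SB h f) Bk J₁ J₂ _ ?_).trans ?_
  · intro v hv
    rw [Set.Finite.mem_toFinset] at hv
    by_contra hcon
    push Not at hcon
    refine hv (hgood v ?_ hcon.2.2.2)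
    simp only [Finset.mem_union, not_or]
    exact ⟨⟨hcon.1, hcon.2.1⟩, hcon.2.2.1⟩
  · refine Nat.mul_le_mul (Nat.mul_le_mul (Nat.mul_le_mul_left _ ?_) hJ₁) hJ₂
    refine prod_dvd_le (K := K) (k + 1) (Nat.succ_pos k) Bk ?_
    intro v hv
    rw [hBk, Set.Finite.mem_toFinset] at hv
    intro h0
    refine hv ?_
    have h1 := w_eq_exp (w := v.valuation K) hk0
    rw [h0] at h1
    simpa using h1

/-- **Piece MCD.** -/
theorem piece_MCD (hRTS : S_RTS) (hFRP : S_FRP) (hCDJ : S_CDJ) (hCOVE : S_COVE)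
    (hFACT : S_FACT) (hHYP : S_HYP) (hLOCD : S_LOCD) (hFINI : S_FINI) (hBND : S_BND)
    (hGLOB : FF.S_GLOB) : S_MCD := by
  intro g h b k ε hg hh hb hε hcard
  obtain ⟨A, hA⟩ := hBND h k
  refine ⟨A, ?_⟩
  intro K _ _ f G δ hf hfd hGd hdvd
  obtain ⟨a, α, π, hdata⟩ := exists_rootData (L := spl f) (2 * h + 2) f hfd (by omega) hf.1
    (IsSplittingField.splits (spl f) f)
  have hf0 : f ≠ 0 := by
    rintro rfl
    rw [natDegree_zero] at hfd
    omega
  have hF0 : f.map (algebraMap K (spl f)) ≠ 0 := by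
    rw [Ne, Polynomial.map_eq_zero]
    exact hf0
  have hG0 : G ≠ 0 := by
    rintro rfl
    rw [mul_zero] at hdvd
    exact hf0 (zero_dvd_iff.1 hdvd)
  have hGs : (G.map (algebraMap K (spl f))).Splits :=
    (IsSplittingField.splits (spl f) f).of_dvd hF0
      (Polynomial.map_dvd _ ((Dvd.intro_left _ rfl).trans hdvd))
  have hQs : ((X ^ 2 - C δ : K[X]).map (algebraMap K (spl f))).Splits :=
    (IsSplittingField.splits (spl f) f).of_dvd hF0
      (Polynomial.map_dvd _ ((Dvd.intro _ rfl).trans hdvd))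
  obtain ⟨β, hβ⟩ := split_enum _ hGs b (by rw [natDegree_map]; exact hGd)
  obtain ⟨θ, hθ⟩ := hQs.exists_eval_eq_zero (by
    rw [Polynomial.degree_map, Polynomial.degree_X_pow_sub_C (by norm_num)]
    norm_num)
  have hθ' : θ ^ 2 = algebraMap K (spl f) δ := by
    rw [Polynomial.map_sub, Polynomial.map_pow, Polynomial.map_X, Polynomial.map_C,
      Polynomial.eval_sub, Polynomial.eval_pow, Polynomial.eval_X, Polynomial.eval_C] at hθ
    exact sub_eq_zero.1 hθ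
  have hg0 : (G.map (algebraMap K (spl f))).leadingCoeff ≠ 0 := by
    rw [Polynomial.leadingCoeff_ne_zero, Ne, Polynomial.map_eq_zero]
    exact hG0
  obtain ⟨c, d, e, h1, h2, h3, h4⟩ := MCD_core hRTS hFRP hCDJ hCOVE hFACT hHYP hLOCD hFINI hGLOB
    hg hh hb hε hcard f G δ hf hdvd a _ θ α β hdata.a0 hdata.split hg0 hβ hθ'
  refine ⟨c, d, e, h1, h2, h3, h4.trans ?_⟩
  have hB0 := prod_B0_le (K := K) h
  have hB0' : ∏ v ∈ B0 K h, Ideal.absNorm v.asIdeal ≤ (4 * h + 4) ^ Module.finrank ℚ K := by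
    have e1 : 4 * h + 4 = 2 * (2 * h + 2) := by ring
    rw [e1]
    exact hB0
  have hSB := (prod_SB_le h f hf).trans (Nat.mul_le_mul_left _ hB0')
  have hQ := (spl_discr h hh f hf hfd (MC h f) le_rfl).2
  have hQ' : (discr (spl f)).natAbs ≤ ((((2 * h + 2) ^ (2 * h + 2)) ^ (Module.finrank ℚ K) *
      (MC h f * (4 * h + 4) ^ Module.finrank ℚ K)) ^ ((2 * h + 2) ^ (2 * h + 2))) *
      (discr K).natAbs ^ ((2 * h + 2) ^ (2 * h + 2)) :=
    hQ.trans (Nat.mul_le_mul_right _ (Nat.pow_le_pow_left (Nat.mul_le_mul_left _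
      (Nat.mul_le_mul_left _ hB0')) _))
  have hfin := hA (Module.finrank ℚ K) (discr K).natAbs (MC h f) (discr (spl f)).natAbs
    Module.finrank_pos (one_le_discr K) (MC_pos h f hf) hQ'
  exact (Nat.mul_le_mul_right _ (Nat.mul_le_mul_right _ (Nat.mul_le_mul_right _ hSB))).trans hfin

end Pool.Agent.Lib.MP_ca2859_nt.CC
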