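import Pool.Agent.Lib.MP_ca2859_nt.CC.Stm

/-!
# Cyclic covers: an equation with unit determinants has good reduction
-/

set_option autoImplicit false

open Polynomial WithZero IsDedekindDomain NumberField
open Pool.Agent.Lib.MP_ca2859_nt Pool.Agent.Lib.MP_ca2859_nt.GR

namespace Pool.Agent.Lib.MP_ca2859_nt.CC

/-- products over ordered pairs -/
private theorem UNIT_pairs {M : Type*} [CommMonoid M] {n : ℕ} (hn : 2 ≤ n) (a : Fin n → M) :
    ∏ i, ∏ j ∈ Finset.univ.erase i, (a i * a j) = (∏ i, a i) ^ (2 * n - 2) := by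
  have h1 : ∀ i, ∏ j ∈ Finset.univ.erase i, (a i * a j) = a i ^ (n - 2) * ∏ j, a j := by
    intro i
    rw [Finset.prod_mul_distrib, Finset.prod_const, Finset.card_erase_of_mem (Finset.mem_univ i),
      Finset.card_univ, Fintype.card_fin, ← Finset.mul_prod_erase Finset.univ a (Finset.mem_univ i),
      ← mul_assoc, ← pow_succ, show n - 2 + 1 = n - 1 by omega]
  rw [Finset.prod_congr rfl fun i _ => h1 i, Finset.prod_mul_distrib, Finset.prod_pow,
    Finset.prod_const, Finset.card_univ, Fintype.card_fin, ← pow_add,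
    show n - 2 + n = 2 * n - 2 by omega]

private theorem UNIT_discr_map {K L : Type*} [Field K] [Field L] (φ : K →+* L) (f : K[X])
    (hf : 0 < f.natDegree) : (f.map φ).discr = φ f.discr := by
  have h0 : 0 < f.degree := natDegree_pos_iff_degree_pos.1 hf
  have h1 : 0 < (f.map φ).degree := by rw [degree_map]; exact h0
  have e1 := resultant_deriv h0
  have e2 := resultant_deriv h1
  rw [natDegree_map, leadingCoeff_map, derivative_map, resultant_map_map, e1, map_mul, map_mul,
    map_pow, map_neg, map_one] at e2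
  have hf0 : f ≠ 0 := by
    rintro rfl
    simp at hf
  have hl : φ f.leadingCoeff ≠ 0 := by
    rw [_root_.map_ne_zero]
    exact leadingCoeff_ne_zero.2 hf0
  exact (mul_left_cancel₀ (mul_ne_zero (pow_ne_zero _ (neg_ne_zero.2 one_ne_zero)) hl) e2).symm

/-- degree, discriminant and leading coefficient of a product of linear factors none of which is
constant -/
private theorem UNIT_main {L : Type*} [Field L] (w : Valuation L ℤᵐ⁰) {ι : Type} [Fintype ι]
    {n : ℕ} (hn : 2 ≤ n) (hc : Fintype.card ι = n) (u : L) (x z : ι → L) (hu : w u = 1)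
    (hz : ∀ i, z i ≠ 0) (hd : ∀ i j, i ≠ j → w (dt x z i j) = 1) :
    (C u * ∏ i, (C (z i) * X - C (x i))).natDegree = n ∧
    w (C u * ∏ i, (C (z i) * X - C (x i))).discr = 1 ∧
    (C u * ∏ i, (C (z i) * X - C (x i))).leadingCoeff = u * ∏ i, z i := by
  classical
  let e : Fin n ≃ ι := (Fintype.equivFinOfCardEq hc).symm
  have hu0 : u ≠ 0 := by
    rintro rfl
    rw [map_zero] at hu
    exact zero_ne_one hu
  have hb : u * ∏ i, z i ≠ 0 := mul_ne_zero hu0 (Finset.prod_ne_zero_iff.2 fun i _ => hz i)
  have h1 : C u * ∏ i, (C (z i) * X - C (x i)) =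
      C (u * ∏ i, z i) * ∏ j : Fin n, (X - C (x (e j) / z (e j))) := by
    have h2 : ∏ i, (C (z i) * X - C (x i)) = (∏ i, C (z i)) * ∏ i, (X - C (x i / z i)) := by
      rw [← Finset.prod_mul_distrib]
      refine Finset.prod_congr rfl fun i _ => ?_
      rw [mul_sub, ← C_mul, mul_div_cancel₀ _ (hz i)]
    rw [h2, C_mul, map_prod, ← Equiv.prod_comp e (fun i => (X - C (x i / z i))), mul_assoc]
  have hmonic : (∏ j : Fin n, (X - C (x (e j) / z (e j)))).Monic :=
    monic_prod_of_monic _ _ fun j _ => monic_X_sub_C _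
  refine ⟨?_, ?_, ?_⟩
  · rw [h1]
    exact natDegree_split _ hb _
  · obtain ⟨ε, hε⟩ := discr_split (by omega : 1 ≤ n) _ hb (fun j => x (e j) / z (e j))
    rw [h1, hε, w_unit, map_mul, map_pow, map_prod]
    have ha : ∀ j, w (z (e j)) ≠ 0 := fun j => (Valuation.ne_zero_iff w).2 (hz _)
    have hwb : w (u * ∏ i, z i) = ∏ j, w (z (e j)) := by
      rw [map_mul, hu, one_mul, map_prod, Equiv.prod_comp e (fun i => w (z i))]
    have hs : ∀ i, w (∏ j ∈ Finset.univ.erase i, (x (e i) / z (e i) - x (e j) / z (e j))) =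
        (∏ j ∈ Finset.univ.erase i, (w (z (e i)) * w (z (e j))))⁻¹ := by
      intro i
      rw [map_prod, ← Finset.prod_inv_distrib]
      refine Finset.prod_congr rfl fun j hj => ?_
      have hij : e i ≠ e j := fun h => (Finset.mem_erase.1 hj).1 (e.injective h).symm
      have h3 : x (e i) / z (e i) - x (e j) / z (e j) =
          dt x z (e i) (e j) / (z (e i) * z (e j)) := by
        rw [dt, div_sub_div _ _ (hz _) (hz _)]
        congr 1
        ring
      rw [h3, map_div₀, hd _ _ hij, map_mul, one_div]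
    rw [hwb, Finset.prod_congr rfl fun i _ => hs i, Finset.prod_inv_distrib,
      UNIT_pairs hn (fun j => w (z (e j)))]
    exact mul_inv_cancel₀ (pow_ne_zero _ (Finset.prod_ne_zero_iff.2 fun j _ => ha j))
  · rw [h1, leadingCoeff_mul, leadingCoeff_C, hmonic.leadingCoeff, mul_one]

private theorem UNIT_le {a b : ℤᵐ⁰} (h : a * b = 1) (hb : b ≤ 1) (ha : a ≤ 1) : a = 1 := by
  refine le_antisymm ha ?_
  rw [← h]
  exact mul_le_of_le_one_right' hb

theorem piece_UNIT : S_UNIT := by
  classical
  intro K _ _ L _ _ _ g hg P v w hlies h2 ι _ u x z hc hfac hu hint hd f hf hs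
  have := hlies
  set E := Ideal.ramificationIdx' v.asIdeal w.asIdeal with hE
  have hE0 : E ≠ 0 := Ideal.IsDedekindDomain.ramificationIdx'_ne_zero_of_liesOver w.asIdeal v.ne_bot
  have hvw : ∀ x : K, w.valuation L (algebraMap K L x) = v.valuation K x ^ E := fun x =>
    (HeightOneSpectrum.valuation_liesOver L v w x).symm
  have hone : ∀ x : K, w.valuation L (algebraMap K L x) = 1 → v.valuation K x = 1 := by
    intro x hx
    rw [hvw] at hx
    exact (pow_eq_one_iff.1 hx).resolve_right hE0
  -- degree and discriminant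
  have key : ((P.map (algebraMap K L)).natDegree = 2 * g + 1 ∨
      (P.map (algebraMap K L)).natDegree = 2 * g + 2) ∧
      w.valuation L (P.map (algebraMap K L)).discr = 1 ∧
      ((P.map (algebraMap K L)).natDegree ≠ 2 * g + 2 →
        w.valuation L (P.map (algebraMap K L)).leadingCoeff = 1) := by
    by_cases h0 : ∀ i, z i ≠ 0
    · obtain ⟨a1, a2, a3⟩ := UNIT_main (w.valuation L) (by omega) hc u x z hu h0 hd
      rw [hfac.fac]
      exact ⟨Or.inr a1, a2, fun h => absurd a1 h⟩
    · push Not at h0
      obtain ⟨i₀, hi₀⟩ := h0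
      have hp : ∀ j, j ≠ i₀ → w.valuation L (x i₀) * w.valuation L (z j) = 1 := by
        intro j hj
        have h := hd i₀ j (Ne.symm hj)
        rw [dt, hi₀, mul_zero, sub_zero, map_mul] at h
        exact h
      have : Nontrivial ι := Fintype.one_lt_card_iff_nontrivial.1 (by omega)
      obtain ⟨j₀, hj₀⟩ := exists_ne i₀
      have hx0 : w.valuation L (x i₀) = 1 := UNIT_le (hp j₀ hj₀) (hint j₀).2 (hint i₀).1
      have hz1 : ∀ j, j ≠ i₀ → w.valuation L (z j) = 1 := by
        intro j hj
        have h := hp j hj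
        rwa [hx0, one_mul] at h
      have hP : P.map (algebraMap K L) = C (u * -x i₀) *
          ∏ i : (Finset.univ.erase i₀ : Finset ι), (C (z i) * X - C (x i)) := by
        rw [hfac.fac, Finset.prod_coe_sort (Finset.univ.erase i₀) (fun i => (C (z i) * X - C (x i))),
          ← Finset.mul_prod_erase Finset.univ _ (Finset.mem_univ i₀), hi₀, C_0, zero_mul, zero_sub,
          C_mul, C_neg, mul_assoc]
      have hcard : Fintype.card (Finset.univ.erase i₀ : Finset ι) = 2 * g + 1 := by
        rw [Fintype.card_coe, Finset.card_erase_of_mem (Finset.mem_univ _), Finset.card_univ, hc]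
        rfl
      have hu' : w.valuation L (u * -x i₀) = 1 := by
        rw [map_mul, hu, Valuation.map_neg, hx0, one_mul]
      obtain ⟨a1, a2, a3⟩ := UNIT_main (w.valuation L) (by omega) hcard (u * -x i₀)
        (fun i => x i) (fun i => z i) hu' (fun i => by
          intro h
          have h1 := hz1 i (Finset.mem_erase.1 i.2).1
          rw [h, map_zero] at h1
          exact zero_ne_one h1) (fun i j hij => hd i j fun h => hij (Subtype.ext h))
      rw [hP]
      refine ⟨Or.inl a1, a2, fun _ => ?_⟩
      rw [a3, map_mul, hu', one_mul, map_prod]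
      exact Finset.prod_eq_one fun i _ => hz1 i (Finset.mem_erase.1 i.2).1
  obtain ⟨k1, k2, k3⟩ := key
  rw [natDegree_map] at k1 k3
  have hdeg : P.natDegree ≤ 2 * g + 2 := by omega
  rw [UNIT_discr_map _ _ (by omega)] at k2
  have hdisc := hone _ k2
  have heq : v.valuation K (eqDisc g P) = 1 := by
    rw [eqDisc]
    split_ifs with h
    · rw [map_mul, map_pow, h2, hdisc, one_pow, one_mul]
    · have h3 := k3 h
      rw [leadingCoeff_map] at h3
      rw [map_mul, map_mul, map_pow, map_pow, h2, hdisc, hone _ h3, one_pow, one_pow, one_mul,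
        one_mul]
  have hCB : CB (w.valuation L) 1 (P.map (algebraMap K L)) := by
    rw [hfac.fac]
    have h3 : CB (w.valuation L) 1 (∏ i, (C (z i) * X - C (x i))) := by
      refine Finset.prod_induction _ (fun q => CB (w.valuation L) 1 q) (fun a b ha hb => ?_) CB_one
        fun i _ => ?_
      · have h4 := ha.mul hb
        rwa [one_mul] at h4
      · have h4 := (CB_C (w := w.valuation L) (hint i).2).mul CB_X
        rw [one_mul] at h4
        exact h4.sub (CB_C (hint i).1)
    have h4 := (CB_C (w := w.valuation L) hu.le).mul h3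
    rwa [one_mul] at h4
  have hint' : ∀ i, v.valuation K (P.coeff i) ≤ 1 := by
    intro i
    have h3 := hCB i
    rw [coeff_map, hvw] at h3
    exact (pow_le_one_iff hE0).1 h3
  rw [discExp_same g f P hf hdeg hs v]
  apply Nat.le_zero.mp
  refine minDiscExp_le _ g _ 0 ⟨P, 0, ⟨hint', fun i => by simp, hdeg, by simp, ?_, ?_⟩, ?_⟩
  · rw [f0_zero]; exact k1
  · rw [f0_zero]; exact sameCurve_refl g _
  · rw [f0_zero, heq]
    simp

end Pool.Agent.Lib.MP_ca2859_nt.CC
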